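import Pool.Agent.Lib.MP_43d316_gt.Rings

/-
A fifth family of parameters for which the trivial knot is not torsion: the cube of one bracket.
-/

namespace Pool.Agent.Lib.MP_43d316_gt

open Kind

/-- Family 5 (cube of the Kauffman bracket with variable `x`), a curve in the exceptional
family. -/
def FamCube {k : Type*} [Field k] (a b0 b1 b2 b3 bi : k) : Prop :=
  ∃ x : k, a = -x ^ 9 ∧ b0 * x ^ 3 = b3 ∧ b1 * x ^ 6 = -b3 * (x ^ 8 - x ^ 4 + 1) ∧
    b2 * x ^ 5 = -b3 * (x ^ 8 - x ^ 4 + 1) ∧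
    bi * x ^ 21 = b3 * (x ^ 4 - 1) * (x ^ 8 - x ^ 4 + 1)

/-- The union of the five families. -/
def Classical5 {k : Type*} [Field k] (a b0 b1 b2 b3 bi : k) : Prop :=
  FamOne a b0 b1 b2 b3 bi ∨ FamBracket a b0 b1 b2 b3 bi ∨ FamKauffman a b0 b1 b2 b3 bi ∨
    FamProduct a b0 b1 b2 b3 bi ∨ FamCube a b0 b1 b2 b3 bi

end Pool.Agent.Lib.MP_43d316_gt
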