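import Pool.Agent.Results.MP_43d316_gt.FiveFamilies

/-
The statement with four families follows from the statement with five families, and its
exception cannot be dropped.
-/

namespace Pool.Agent.Lib.MP_43d316_gt.Cb

open Pool.Agent.Results.MP_43d316_gt.FiveFamilies

universe u

theorem cube_exc {k : Type*} [Field k] {a b0 b1 b2 b3 bi : k} (ha : a ≠ 0)
    (h : FamCube a b0 b1 b2 b3 bi) : Exceptional a b0 b1 b2 b3 bi := by
  obtain ⟨x, h1, h2, h3, h4, h5⟩ := h
  have hx : x ≠ 0 := by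
    rintro rfl
    exact ha (by simpa using h1)
  have e0 : b0 = b3 / x ^ 3 := by rw [eq_div_iff (pow_ne_zero 3 hx), h2]
  have e1 : b1 = -b3 * (x ^ 8 - x ^ 4 + 1) / x ^ 6 := by rw [eq_div_iff (pow_ne_zero 6 hx), h3]
  have e2 : b2 = -b3 * (x ^ 8 - x ^ 4 + 1) / x ^ 5 := by rw [eq_div_iff (pow_ne_zero 5 hx), h4]
  have ei : bi = b3 * (x ^ 4 - 1) * (x ^ 8 - x ^ 4 + 1) / x ^ 21 := by
    rw [eq_div_iff (pow_ne_zero 21 hx), h5]
  constructor
  · rw [h1, e0]
    field_simp
    ring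
  · rw [h1, e0, e1, e2, ei]
    field_simp
    ring

theorem cube_zero {k : Type*} [Field k] {a b0 b1 b2 b3 : k} (ha : a ≠ 0) (hb : b3 ≠ 0)
    (h : FamCube a b0 b1 b2 b3 0) : Classical4 a b0 b1 b2 b3 0 := by
  obtain ⟨x, h1, h2, h3, h4, h5⟩ := h
  have hx : x ≠ 0 := by
    rintro rfl
    exact ha (by simpa using h1)
  have e0 : b0 = b3 / x ^ 3 := by rw [eq_div_iff (pow_ne_zero 3 hx), h2]
  have e1 : b1 = -b3 * (x ^ 8 - x ^ 4 + 1) / x ^ 6 := by rw [eq_div_iff (pow_ne_zero 6 hx), h3]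
  have e2 : b2 = -b3 * (x ^ 8 - x ^ 4 + 1) / x ^ 5 := by rw [eq_div_iff (pow_ne_zero 5 hx), h4]
  rw [zero_mul, eq_comm, mul_eq_zero, mul_eq_zero] at h5
  rcases h5 with (h5 | h5) | h5
  · exact absurd h5 hb
  · refine Or.inl ⟨?_, ?_⟩
    · have : x ^ 4 = 1 := by linear_combination h5
      rw [h1, show (-x ^ 9) ^ 4 = (x ^ 4) ^ 9 by ring, this, one_pow]
    · have h6 : x ^ 4 = 1 := by linear_combination h5
      have h8 : x ^ 8 = 1 := by rw [show x ^ 8 = (x ^ 4) ^ 2 by ring, h6, one_pow]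
      have h9 : a = -x := by rw [h1, show x ^ 9 = x ^ 8 * x by ring, h8, one_mul]
      rw [h9, e0, e1, e2, h8, h6]
      field_simp
      linear_combination (-b3) * h6
  · refine Or.inr (Or.inl ⟨-x⁻¹, ?_, ?_, ?_⟩)
    · rw [h1]
      field_simp
      linear_combination (-(x ^ 4 + 1)) * h5
    · rw [e0, e1, e2, h5]
      field_simp
      ring
    · rw [e0, e2, h5]
      field_simp
      linear_combination b3 * h5

/-- The earlier statement with four families, from the statement with five families. -/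
theorem four_of_five (R : Type u) [CommRing R] (a b0 b3 : Rˣ) (b1 b2 bi : R)
    (h : ¬ ((AtPoint R fun _ _ f =>
        f bi ≠ 0 ∧ Exceptional (f a) (f b0) (f b1) (f b2) (f b3) (f bi)) ∧
      ¬ AtPoint R fun _ _ f => Classical4 (f a) (f b0) (f b1) (f b2) (f b3) (f bi))) :
    ¬ KnotTorsion (a : R) b0 b1 b2 b3 bi ↔
      AtPoint R fun _ _ f => Classical4 (f a) (f b0) (f b1) (f b2) (f b3) (f bi) := by
  have up : (AtPoint R fun _ _ f => Classical4 (f a) (f b0) (f b1) (f b2) (f b3) (f bi)) →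
      AtPoint R fun _ _ f => Classical5 (f a) (f b0) (f b1) (f b2) (f b3) (f bi) :=
    fun ⟨k, _, _, f, hf, hc⟩ => ⟨k, _, ‹_›, f, hf, five_iff.2 (Or.inl hc)⟩
  rw [result R a b0 b3 b1 b2 bi fun h1 => h ⟨h1.1, fun h2 => h1.2 (up h2)⟩]
  refine ⟨fun ⟨k, _, _, f, hf, hc⟩ => ?_, up⟩
  have un : ∀ x : Rˣ, f x ≠ 0 := fun x => (x.isUnit.map f).ne_zero
  rcases five_iff.1 hc with hc | hc
  · exact ⟨k, _, ‹_›, f, hf, hc⟩
  · by_cases hi : f bi = 0
    · refine ⟨k, _, ‹_›, f, hf, ?_⟩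
      rw [hi] at hc ⊢
      exact cube_zero (un a) (un b3) hc
    · exact by_contra fun h1 => h ⟨⟨k, _, ‹_›, f, hf, hi, cube_exc (un a) hc⟩, h1⟩

/-- Over the rational numbers, at the point `x = 2` of the fifth family, the trivial knot is not
torsion although the parameters lie in one of the first four families at no point. -/
theorem strict : ¬ KnotTorsion (-512 : ℚ) (1 / 8) (-241 / 64) (-241 / 32) 1 (3615 / 2 ^ 21) ∧
    ¬ AtPoint ℚ fun _ _ f => Classical4 (f (-512)) (f (1 / 8)) (f (-241 / 64)) (f (-241 / 32))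
      (f 1) (f (3615 / 2 ^ 21)) := by
  constructor
  · have h := (result ℚ (Units.mk0 (-512) (by norm_num)) (Units.mk0 (1 / 8) (by norm_num)) 1
      (-241 / 64) (-241 / 32) (3615 / 2 ^ 21) ?_).2 ?_
    · simpa using h
    all_goals
      have key : AtPoint ℚ fun _ _ f => Classical5 (f (Units.mk0 (-512 : ℚ) (by norm_num)))
          (f (Units.mk0 (1 / 8 : ℚ) (by norm_num))) (f (-241 / 64)) (f (-241 / 32))
          (f (1 : ℚˣ)) (f (3615 / 2 ^ 21)) := by
        refine ⟨AlgebraicClosure ℚ, inferInstance, inferInstance, algebraMap ℚ _,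
          fun r hr => (map_ne_zero _).2 (nonZeroDivisors.ne_zero hr), five_iff.2 (Or.inr ?_)⟩
        simpa using (cube_new (k := AlgebraicClosure ℚ)).1
    · exact fun h => h.2 key
    · exact key
  · rintro ⟨k, _, _, f, -, hc⟩
    have : CharZero k := (RingHom.charZero_iff f.injective).1 inferInstance
    refine (cube_new (k := k)).2.2.2 ?_
    simpa using hc

end Pool.Agent.Lib.MP_43d316_gt.Cb
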