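import Pool.Agent.Lib.MP_43d316_gt.Cube

/-
On the fifth family there is an invariant satisfying the skein relation.
-/

namespace Pool.Agent.Lib.MP_43d316_gt.Cb

open Kind

theorem five_iff {k : Type*} [Field k] {a b0 b1 b2 b3 bi : k} :
    Classical5 a b0 b1 b2 b3 bi ↔ Classical4 a b0 b1 b2 b3 bi ∨ FamCube a b0 b1 b2 b3 bi := by
  simp only [Classical5, Classical4, or_assoc]

theorem suff_cube {k : Type*} [Field k] {a b0 b1 b2 b3 bi : k} (ha : a ≠ 0)
    (h : FamCube a b0 b1 b2 b3 bi) :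
    ∃ F : Word → k, Inv F a ∧ SiteRel F b0 b1 b2 b3 bi := by
  obtain ⟨x, h1, h2, h3, h4, h5⟩ := h
  have hx : x ≠ 0 := by
    rintro rfl
    exact ha (by simpa using h1)
  have e0 : b0 = b3 / x ^ 3 := by rw [eq_div_iff (pow_ne_zero 3 hx), h2]
  have e1 : b1 = -b3 * (x ^ 8 - x ^ 4 + 1) / x ^ 6 := by rw [eq_div_iff (pow_ne_zero 6 hx), h3]
  have e2 : b2 = -b3 * (x ^ 8 - x ^ 4 + 1) / x ^ 5 := by rw [eq_div_iff (pow_ne_zero 5 hx), h4]
  have ei : bi = b3 * (x ^ 4 - 1) * (x ^ 8 - x ^ 4 + 1) / x ^ 21 := by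
    rw [eq_div_iff (pow_ne_zero 21 hx), h5]
  obtain ⟨F, hF, r1, r2, r3⟩ := exists_bracket hx
  have hfr : -x ^ 3 * -x ^ 3 * -x ^ 3 = a := by rw [h1]; ring
  refine ⟨fun w => F w * F w * F w, hfr ▸ (hF.mul hF).mul hF, fun P Q i hS => ?_⟩
  have u1 := r1 P Q i hS
  have u2 := r2 P Q i hS
  have u3 := r3 P Q i hS
  beta_reduce
  generalize F (P ++ Q) = x0 at *
  generalize F (P ++ [(pos, i)] ++ Q) = x1 at *
  generalize F (P ++ [(pos, i), (pos, i)] ++ Q) = x2 at *
  generalize F (P ++ [(pos, i), (pos, i), (pos, i)] ++ Q) = x3 at *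
  generalize F (P ++ [(cap, i), (cup, i)] ++ Q) = xi at *
  obtain rfl : x1 = x * x0 + x⁻¹ * xi := by linear_combination u1
  obtain rfl : x2 = x ^ 2 * x0 + (1 - x⁻¹ ^ 4) * xi := by linear_combination u2
  obtain rfl : x3 = x ^ 3 * x0 + (x - x⁻¹ ^ 3 + x⁻¹ ^ 7) * xi := by linear_combination u3
  rw [e0, e1, e2, ei]
  field_simp
  ring

theorem not_torsion {R : Type*} [CommRing R] {k : Type*} [Field k] (f : R →+* k)
    (hf : ∀ r ∈ nonZeroDivisors R, f r ≠ 0) {a b0 b1 b2 b3 bi : R} {F : Word → k}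
    (hF : Inv F (f a)) (hS : SiteRel F (f b0) (f b1) (f b2) (f b3) (f bi)) :
    ¬ KnotTorsion a b0 b1 b2 b3 bi := by
  let _ : Algebra R k := f.toAlgebra
  let g : Link → k := Quot.lift (fun D : Diagram => F D.1) (by
    rintro D E ⟨P, Q, u, v, m, h1, h2⟩
    rw [h1, h2]
    exact hF.move P Q u v m (h1 ▸ D.2) (h2 ▸ E.2))
  let L : (Link →₀ R) →ₗ[R] k := Finsupp.linearCombination R g
  have hL : ∀ D, L (gen R D) = F D.1 := by
    intro D
    simp only [L, gen, Finsupp.linearCombination_single, one_smul]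
    rfl
  have hle : Submodule.span R (relations a b0 b1 b2 b3 bi) ≤ LinearMap.ker L := by
    rw [Submodule.span_le]
    rintro x (⟨P, Q, i, L0, L1, L2, L3, Li, h0, h1, h2, h3, hi, rfl⟩ |
      ⟨P, Q, i, L0, L1, h0, h1, rfl⟩)
    · have := hS P Q i (site_of_ok (h1 ▸ L1.2))
      simp only [SetLike.mem_coe, LinearMap.mem_ker, map_add, map_smul, hL, h0, h1, h2, h3, hi,
        Algebra.smul_def]
      exact this
    · have := hF.frame P Q i (h0 ▸ L0.2) (by rw [curl, ← h1]; exact L1.2)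
      simp only [SetLike.mem_coe, LinearMap.mem_ker, map_sub, map_smul, hL, h0, h1,
        Algebra.smul_def]
      rw [curl] at this
      exact sub_eq_zero.2 this
  rintro ⟨r, hr, hr'⟩
  have h1 := congrArg (Submodule.liftQ _ L hle) hr'
  rw [map_smul, map_zero, trivialKnot, Submodule.liftQ_apply, hL] at h1
  have h2 : F unknot.1 = 1 := hF.unk
  rw [h2, Algebra.smul_def, mul_one] at h1
  exact hf r hr h1

theorem suff_ring {R : Type*} [CommRing R] {k : Type*} [Field k] [IsAlgClosed k] (f : R →+* k)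
    (hf : ∀ r ∈ nonZeroDivisors R, f r ≠ 0) (a b0 b3 : Rˣ) (b1 b2 bi : R)
    (h : Classical5 (f a) (f b0) (f b1) (f b2) (f b3) (f bi)) :
    ¬ KnotTorsion (a : R) b0 b1 b2 b3 bi := by
  have un : ∀ x : Rˣ, f x ≠ 0 := fun x => (x.isUnit.map f).ne_zero
  rcases five_iff.1 h with h | h
  · obtain ⟨F, hF, hS⟩ := suff_all (un a) (un b0) (un b3) h
    exact not_torsion f hf hF hS
  · obtain ⟨F, hF, hS⟩ := suff_cube (un a) h
    exact not_torsion f hf hF hS

/-- The point `x = 2` of the fifth family lies in the exceptional family, has `bi ≠ 0` and lies in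
none of the first four families, in characteristic zero. -/
theorem cube_new {k : Type*} [Field k] [CharZero k] :
    FamCube (-512 : k) (1 / 8) (-241 / 64) (-241 / 32) 1 (3615 / 2 ^ 21) ∧
      Exceptional (-512 : k) (1 / 8) (-241 / 64) (-241 / 32) 1 (3615 / 2 ^ 21) ∧
      (3615 / 2 ^ 21 : k) ≠ 0 ∧
      ¬ Classical4 (-512 : k) (1 / 8) (-241 / 64) (-241 / 32) 1 (3615 / 2 ^ 21) := by
  refine ⟨⟨2, by norm_num, by norm_num, by norm_num, by norm_num, by norm_num⟩,
    ⟨by norm_num, by norm_num⟩, by norm_num, ?_⟩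
  rintro (⟨h, -⟩ | ⟨y, h1, h2, h3⟩ | ⟨e, he, -, h, -⟩ | ⟨-, h⟩)
  · norm_num at h
  · have h4 : (y - 8) * (y + 1 / 2) * (y - 1 / 32) = 0 := by linear_combination h2
    rcases mul_eq_zero.1 h4 with h4 | h4
    · rcases mul_eq_zero.1 h4 with h4 | h4
      · obtain rfl : y = 8 := by linear_combination h4
        norm_num at h3
      · obtain rfl : y = -1 / 2 := by linear_combination h4
        norm_num at h1
    · obtain rfl : y = 1 / 32 := by linear_combination h4
      norm_num at h1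
  · rcases he with rfl | rfl <;> norm_num at h
  · norm_num at h

end Pool.Agent.Lib.MP_43d316_gt.Cb
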