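import Mathlib

/-
Framed unoriented links as sliced (Morse) diagrams modulo the Turaev moves, and the
(4, infinity) skein module.
-/

namespace Pool.Agent.Lib.MP_43d316_gt

/-- The elementary slices of a link diagram: a local minimum, a local maximum, a right-handed
half twist of two vertical strands, and a left-handed half twist. -/
inductive Kind
  | cup
  | cap
  | pos
  | neg

/-- Number of strands an elementary slice uses up at its bottom. -/
def Kind.inp : Kind → ℕ
  | .cup => 0
  | .cap => 2
  | .pos => 2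
  | .neg => 2

/-- Number of strands an elementary slice produces at its top. -/
def Kind.out : Kind → ℕ
  | .cup => 2
  | .cap => 0
  | .pos => 2
  | .neg => 2

/-- A sliced diagram read from bottom to top; the letter `(x, i)` is the slice `x` with `i`
vertical strands to its left. -/
abbrev Word : Type := List (Kind × ℕ)

/-- `Ok m w n`: the word `w` is a tangle diagram with `m` bottom and `n` top endpoints. -/
def Ok : ℕ → Word → ℕ → Prop
  | m, [], n => m = n
  | m, (x, i) :: w, n => i + x.inp ≤ m ∧ Ok (m - x.inp + x.out) w n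

open Kind in
/-- The local moves generating isotopy of framed unoriented links (blackboard framing):
exchange of heights of distant slices, straightening of zigzags, sliding a strand past a
minimum or maximum, the Reidemeister moves II and III, and the framed Reidemeister move I
(a right curl equals a left curl of the same sign). -/
inductive Move : Word → Word → Prop
  | far (x y : Kind) (i k : ℕ) :
      Move [(x, i), (y, i + x.out + k)] [(y, i + x.inp + k), (x, i)]
  | zig (i : ℕ) : Move [(cup, i + 1), (cap, i)] []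
  | zag (i : ℕ) : Move [(cup, i), (cap, i + 1)] []
  | cupPos (i : ℕ) : Move [(cup, i + 1), (pos, i)] [(cup, i), (neg, i + 1)]
  | cupNeg (i : ℕ) : Move [(cup, i + 1), (neg, i)] [(cup, i), (pos, i + 1)]
  | capPos (i : ℕ) : Move [(pos, i), (cap, i + 1)] [(neg, i + 1), (cap, i)]
  | capNeg (i : ℕ) : Move [(neg, i), (cap, i + 1)] [(pos, i + 1), (cap, i)]
  | twoPos (i : ℕ) : Move [(pos, i), (neg, i)] []
  | twoNeg (i : ℕ) : Move [(neg, i), (pos, i)] []
  | three (i : ℕ) :
      Move [(pos, i), (pos, i + 1), (pos, i)] [(pos, i + 1), (pos, i), (pos, i + 1)]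
  | curl (i : ℕ) :
      Move [(cup, i + 1), (pos, i), (cap, i + 1)] [(cup, i), (pos, i + 1), (cap, i)]

/-- Closed diagrams (the empty word is the empty link). -/
def Diagram : Type := {w : Word // Ok 0 w 0}

/-- Two closed diagrams differ by one local move. -/
def Step (D E : Diagram) : Prop :=
  ∃ P Q u v : Word, Move u v ∧ D.1 = P ++ u ++ Q ∧ E.1 = P ++ v ++ Q

/-- Framed unoriented links: closed diagrams modulo the local moves. -/
def Link : Type := Quot Step

/-- The link of a diagram. -/
def Diagram.link (D : Diagram) : Link := Quot.mk Step D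

/-- The basis vector of the free module on links given by a diagram. -/
noncomputable def gen (R : Type*) [CommRing R] (D : Diagram) : Link →₀ R :=
  Finsupp.single D.link 1

open Kind in
/-- The skein relations `b0 L0 + b1 L1 + b2 L2 + b3 L3 + bi Linf` and the framing relations
`L(1) - a L` (a positive curl adds `+1` to the framing). -/
def relations {R : Type*} [CommRing R] (a b0 b1 b2 b3 bi : R) : Set (Link →₀ R) :=
  {x | ∃ (P Q : Word) (i : ℕ) (L0 L1 L2 L3 Li : Diagram),
      L0.1 = P ++ Q ∧
      L1.1 = P ++ [(pos, i)] ++ Q ∧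
      L2.1 = P ++ [(pos, i), (pos, i)] ++ Q ∧
      L3.1 = P ++ [(pos, i), (pos, i), (pos, i)] ++ Q ∧
      Li.1 = P ++ [(cap, i), (cup, i)] ++ Q ∧
      x = b0 • gen R L0 + b1 • gen R L1 + b2 • gen R L2 + b3 • gen R L3 + bi • gen R Li} ∪
  {x | ∃ (P Q : Word) (i : ℕ) (L L' : Diagram),
      L.1 = P ++ Q ∧
      L'.1 = P ++ [(cup, i + 1), (pos, i), (cap, i + 1)] ++ Q ∧
      x = gen R L' - a • gen R L}

/-- The (4, infinity) skein module of the 3-sphere. -/
abbrev Skein {R : Type*} [CommRing R] (a b0 b1 b2 b3 bi : R) : Type _ :=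
  (Link →₀ R) ⧸ Submodule.span R (relations a b0 b1 b2 b3 bi)

/-- The round diagram of the zero-framed trivial knot. -/
def unknot : Diagram :=
  ⟨[(Kind.cup, 0), (Kind.cap, 0)], ⟨le_refl 0, le_refl 2, rfl⟩⟩

/-- The class `t` of the trivial knot in the skein module. -/
noncomputable def trivialKnot {R : Type*} [CommRing R] (a b0 b1 b2 b3 bi : R) :
    Skein a b0 b1 b2 b3 bi :=
  Submodule.Quotient.mk (gen R unknot)

/-- The class of the trivial knot is a torsion element: it is killed by a non-zero-divisor. -/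
def KnotTorsion {R : Type*} [CommRing R] (a b0 b1 b2 b3 bi : R) : Prop :=
  ∃ r : R, r ∈ nonZeroDivisors R ∧ r • trivialKnot a b0 b1 b2 b3 bi = 0

/-- Family 1 (invariants counting crossings and components). -/
def FamOne {k : Type*} [Field k] (a b0 b1 b2 b3 bi : k) : Prop :=
  a ^ 4 = 1 ∧ b0 + b1 * a ^ 3 + b2 * a ^ 2 + b3 * a + bi * a ^ 2 = 0

/-- Family 2 (Kauffman bracket with variable `x`). -/
def FamBracket {k : Type*} [Field k] (a b0 b1 b2 b3 bi : k) : Prop :=
  ∃ x : k, a = -x ^ 3 ∧ b0 + b1 * x + b2 * x ^ 2 + b3 * x ^ 3 = 0 ∧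
    bi * x ^ 7 = b0 * x ^ 5 + b2 * x ^ 3 + b3 * (x ^ 4 - 1)

/-- Family 3 (two-variable Kauffman polynomial for `e = 1`, Dubrovnik polynomial for
`e = -1`). -/
def FamKauffman {k : Type*} [Field k] (a b0 b1 b2 b3 bi : k) : Prop :=
  ∃ e : k, (e = 1 ∨ e = -1) ∧ b2 ≠ e * b0 ∧
    b1 * b3 = e * b3 ^ 2 + e * b0 * b2 - b0 ^ 2 ∧
    a ^ 2 * bi * b3 = (b2 - e * b0) * (a * b0 + e * b3)

/-- The exceptional family: two equations in the parameters. -/
def Exceptional {k : Type*} [CommRing k] (a b0 b1 b2 b3 bi : k) : Prop :=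
  a * b0 ^ 3 + b3 ^ 3 = 0 ∧ a * bi * b3 ^ 2 = b0 * (b2 * b3 - b0 * b1)

/-- Family 4 (product of two Kauffman brackets), a hypersurface in the exceptional family. -/
def FamProduct {k : Type*} [Field k] (a b0 b1 b2 b3 bi : k) : Prop :=
  Exceptional a b0 b1 b2 b3 bi ∧
    b0 ^ 4 - b0 ^ 2 * b1 * b3 + b0 * b2 * b3 ^ 2 - b3 ^ 4 = 0

/-- The union of the four families. -/
def Classical4 {k : Type*} [Field k] (a b0 b1 b2 b3 bi : k) : Prop :=
  FamOne a b0 b1 b2 b3 bi ∨ FamBracket a b0 b1 b2 b3 bi ∨ FamKauffman a b0 b1 b2 b3 bi ∨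
    FamProduct a b0 b1 b2 b3 bi

end Pool.Agent.Lib.MP_43d316_gt
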