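import Pool.Agent.Lib.MP_43d316_gt.RMat

-- part Pool.Agent.Lib.MP_43d316_gt.Ortho
section

/-
The explicit R-matrices.
-/

namespace Pool.Agent.Lib.MP_43d316_gt

open Kind

/-- Data for an R-matrix of orthogonal or symplectic type. -/
structure RData (K I : Type*) [Field K] [LinearOrder I] where
  nu : I → I
  q : K
  w : I → K
  invol : ∀ a, nu (nu a) = a
  anti : ∀ a b, a < b → nu b < nu a
  nofix : ∀ a, nu a ≠ a
  q_ne : q ≠ 0
  w_ne : ∀ a, w a ≠ 0

namespace RData

variable {K I : Type*} [Field K] [LinearOrder I] (D : RData K I)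

/-- Matrix of the minimum. -/
def cu (a b : I) : K := if b = D.nu a then D.w a else 0

/-- Matrix of the maximum. -/
def ca (a b : I) : K := if b = D.nu a then (D.w (D.nu a))⁻¹ else 0

/-- Diagonal coefficients. -/
def rr (a b : I) : K := if a = b then D.q else if b = D.nu a then D.q⁻¹ else 1

/-- The difference of the two smoothings. -/
def sm (a b c d : I) : K := (if c = a ∧ d = b then 1 else 0) - D.ca a b * D.cu c d

/-- The skein parameter. -/
def z : K := D.q - D.q⁻¹

/-- The positive crossing. -/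
def R (a b c d : I) : K :=
  (if c = b ∧ d = a then D.rr a b else 0) + if a < d then D.z * D.sm a b c d else 0

/-- The negative crossing. -/
def Rb (a b c d : I) : K :=
  (if c = b ∧ d = a then (D.rr a b)⁻¹ else 0) - if d < a then D.z * D.sm a b c d else 0

theorem nu_inj {a b : I} : D.nu a = D.nu b ↔ a = b :=
  ⟨fun h => by rw [← D.invol a, h, D.invol], fun h => by rw [h]⟩

theorem nu_lt {a b : I} : D.nu a < D.nu b ↔ b < a :=
  ⟨fun h => by simpa [D.invol] using D.anti _ _ h, D.anti _ _⟩

theorem eq_nu {a b : I} : a = D.nu b ↔ b = D.nu a :=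
  ⟨fun h => by rw [h, D.invol], fun h => by rw [h, D.invol]⟩

theorem rr_ne (a b : I) : D.rr a b ≠ 0 := by
  unfold rr
  split_ifs
  · exact D.q_ne
  · exact inv_ne_zero D.q_ne
  · exact one_ne_zero

theorem rr_symm (a b : I) : D.rr a b = D.rr b a := by
  unfold rr
  simp only [D.eq_nu (a := b), eq_comm (a := b)]

theorem rr_nu (a b : I) : D.rr (D.nu a) b = (D.rr a b)⁻¹ := by
  unfold rr
  by_cases h1 : a = b
  · subst h1
    simp [D.nofix, D.invol]
  · by_cases h2 : b = D.nu a
    · subst h2
      simp [h1]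
    · have h3 : ¬ D.nu a = b := fun h => h2 h.symm
      have h4 : ¬ b = a := fun h => h1 h.symm
      simp [h1, h2, h3, h4, D.invol]

theorem sm_supp {a b c d : I} (h : D.sm a b c d ≠ 0) :
    (c = a ∧ d = b) ∨ (b = D.nu a ∧ d = D.nu c) := by
  by_contra hn
  apply h
  rw [not_or] at hn
  unfold sm ca cu
  rw [if_neg hn.1]
  by_cases h1 : b = D.nu a
  · have h2 : ¬ d = D.nu c := fun h2 => hn.2 ⟨h1, h2⟩
    simp [h2]
  · simp [h1]

theorem tri_R : Tri (· < ·) D.R := by
  intro a b c d h
  by_cases h1 : c = b ∧ d = a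
  · exact Or.inl h1
  · right
    unfold R at h
    rw [if_neg h1, zero_add] at h
    by_cases h2 : a < d
    · rw [if_pos h2] at h
      refine ⟨h2, ?_⟩
      rcases D.sm_supp (right_ne_zero_of_mul h) with ⟨rfl, rfl⟩ | ⟨rfl, rfl⟩
      · exact h2
      · simpa [D.invol] using D.anti _ _ h2
    · exact absurd (if_neg h2) h

theorem tri_Rb : Tri (fun x y => y < x) D.Rb := by
  intro a b c d h
  by_cases h1 : c = b ∧ d = a
  · exact Or.inl h1
  · right
    unfold Rb at h
    rw [if_neg h1, zero_sub, neg_ne_zero] at h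
    by_cases h2 : d < a
    · rw [if_pos h2] at h
      refine ⟨h2, ?_⟩
      rcases D.sm_supp (right_ne_zero_of_mul h) with ⟨rfl, rfl⟩ | ⟨rfl, rfl⟩
      · exact h2
      · simpa [D.invol] using D.anti _ _ h2
    · exact absurd (if_neg h2) h

theorem diag (x y : I) : D.R x y y x * D.Rb y x x y = 1 := by
  simp [R, Rb, D.rr_symm y x, D.rr_ne]

theorem sm_rot (a x p y : I) :
    D.w (D.nu y) * D.sm a (D.nu y) x p = -(D.w x * D.sm (D.nu x) a p y) := by
  have hA : D.w (D.nu y) * (D.ca a (D.nu y) * D.cu x p) =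
      D.w x * (if p = D.nu x ∧ y = a then 1 else 0) := by
    unfold ca cu
    by_cases k1 : y = a
    · subst k1
      by_cases k2 : p = D.nu x
      · simp [k2, D.w_ne]
      · simp [k2]
    · simp [k1, D.nu_inj]
  have hB : D.w x * (D.ca (D.nu x) a * D.cu p y) =
      D.w (D.nu y) * (if x = a ∧ p = D.nu y then 1 else 0) := by
    unfold ca cu
    by_cases k1 : x = a
    · subst k1
      by_cases k2 : p = D.nu y
      · subst k2
        simp [D.invol, D.w_ne]
      · have k3 : ¬ y = D.nu p := fun h => k2 (D.eq_nu.1 h)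
        simp [k2, k3]
    · have k2 : ¬ a = x := fun h => k1 h.symm
      simp [k1, k2, D.invol]
  unfold sm
  linear_combination -hA - hB

theorem sm_cond {a x p y : I} (h : D.sm a (D.nu y) x p ≠ 0) :
    (a < p ↔ y < D.nu x) ∧ (p < a ↔ D.nu x < y) := by
  rcases D.sm_supp h with ⟨rfl, rfl⟩ | ⟨h1, rfl⟩
  · constructor
    · rw [← D.nu_lt, D.invol]
    · rw [← D.nu_lt, D.invol]
  · obtain rfl : y = a := D.nu_inj.1 h1
    exact ⟨Iff.rfl, Iff.rfl⟩

theorem diag_rot (a x p y : I) (t : K) :
    D.w (D.nu y) * (if x = D.nu y ∧ p = a then t else 0) =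
      D.w x * (if p = a ∧ y = D.nu x then t else 0) := by
  by_cases k1 : x = D.nu y
  · subst k1
    simp [D.invol]
  · have k2 : ¬ y = D.nu x := fun h => k1 (D.eq_nu.1 h)
    simp [k1, k2]

theorem rot1 (a x p y : I) :
    D.w (D.nu y) * D.R a (D.nu y) x p = D.w x * D.Rb (D.nu x) a p y := by
  have h1 := D.sm_rot a x p y
  have h2 : (if x = D.nu y ∧ p = a then D.rr a (D.nu y) else 0) =
      if x = D.nu y ∧ p = a then (D.rr (D.nu x) a)⁻¹ else 0 := by
    split_ifs with h
    · rw [D.rr_nu, inv_inv, h.1, D.rr_symm]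
    · rfl
  unfold R Rb
  rw [mul_add, mul_sub, h2, D.diag_rot, sub_eq_add_neg]
  congr 1
  by_cases hz : D.sm a (D.nu y) x p = 0
  · have hz' : D.sm (D.nu x) a p y = 0 := by
      rw [hz, mul_zero, eq_comm, neg_eq_zero] at h1
      exact (mul_eq_zero.1 h1).resolve_left (D.w_ne x)
    simp [hz, hz']
  · simp only [(D.sm_cond hz).1]
    split_ifs
    · linear_combination D.z * h1
    · simp

theorem rot2 (a x p y : I) :
    D.w (D.nu y) * D.Rb a (D.nu y) x p = D.w x * D.R (D.nu x) a p y := by
  have h1 := D.sm_rot a x p y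
  have h2 : (if x = D.nu y ∧ p = a then (D.rr a (D.nu y))⁻¹ else 0) =
      if x = D.nu y ∧ p = a then D.rr (D.nu x) a else 0 := by
    split_ifs with h
    · rw [D.rr_nu, h.1, D.rr_symm]
    · rfl
  unfold R Rb
  rw [mul_add, mul_sub, h2, D.diag_rot, sub_eq_add_neg]
  congr 1
  by_cases hz : D.sm a (D.nu y) x p = 0
  · have hz' : D.sm (D.nu x) a p y = 0 := by
      rw [hz, mul_zero, eq_comm, neg_eq_zero] at h1
      exact (mul_eq_zero.1 h1).resolve_left (D.w_ne x)
    simp [hz, hz']
  · simp only [(D.sm_cond hz).2]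
    split_ifs
    · linear_combination (-D.z) * h1
    · simp

theorem R_sub (a b c d : I) : D.R a b c d - D.Rb a b c d = D.z * D.sm a b c d := by
  unfold R Rb
  rcases lt_trichotomy a d with h | rfl | h
  · have h1 : ¬ (c = b ∧ d = a) := fun hh => h.ne' hh.2
    simp [h, h1, not_lt.2 h.le]
  · by_cases h1 : c = b
    · subst h1
      unfold rr sm ca cu z
      by_cases h2 : a = c
      · subst h2
        have := (D.nofix a).symm
        simp [this]
      · by_cases h3 : c = D.nu a
        · subst h3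
          simp [h2, D.nofix, D.invol, D.w_ne]
        · have h4 : ¬ c = a := fun h => h2 h.symm
          simp [h2, h3, h4]
    · have hz : D.sm a b c a = 0 := by
        by_contra hne
        rcases D.sm_supp hne with ⟨rfl, rfl⟩ | ⟨rfl, h3⟩
        · exact h1 rfl
        · exact h1 (D.eq_nu.1 h3)
      simp [h1, hz]
  · have h1 : ¬ (c = b ∧ d = a) := fun hh => h.ne hh.2
    simp [h, h1, not_lt.2 h.le]

variable [Fintype I]

/-- The ratio of weights of dual states. -/
def eta (a : I) : K := D.w (D.nu a) / D.w a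

theorem sum_cu (x : I) (F : I → K) : ∑ y, D.cu x y * F y = D.w x * F (D.nu x) := by
  simp [cu]

theorem sum_cu' (y : I) (F : I → K) : ∑ x, D.cu x y * F x = D.w (D.nu y) * F (D.nu y) := by
  simp [cu, D.eq_nu (a := y)]

theorem slide_cup (S T : I → I → I → I → K)
    (h : ∀ a x p y, D.w (D.nu y) * S a (D.nu y) x p = D.w x * T (D.nu x) a p y) :
    shift (opCup D.cu) * opX S = opCup D.cu * shift (opX T) := by
  refine end_ext1 fun f a s => ?_
  simp only [Module.End.mul_apply, shift_cons, opCup_apply, opX_cons]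
  rw [Finset.sum_comm]
  simp only [D.sum_cu, D.sum_cu']
  simp only [Finset.mul_sum]
  rw [Finset.sum_comm]
  refine Finset.sum_congr rfl fun x _ => ?_
  rw [Finset.sum_comm]
  refine Finset.sum_congr rfl fun p _ => Finset.sum_congr rfl fun y _ => ?_
  rw [← mul_assoc, ← mul_assoc, h]

theorem slide_cap (S T : I → I → I → I → K)
    (h : ∀ a x p y, D.w (D.nu y) * T a (D.nu y) x p = D.w x * S (D.nu x) a p y) :
    opX S * shift (opCap D.ca) = shift (opX T) * opCap D.ca := by
  refine end_ext3 fun f a b c s => ?_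
  simp only [Module.End.mul_apply, shift_cons, opCap_cons, opX_cons]
  rw [Finset.sum_comm (f := fun x y => T b c x y * _)]
  refine Finset.sum_congr rfl fun p _ => ?_
  have h1 := h b (D.nu a) p (D.nu c)
  rw [D.invol, D.invol] at h1
  have h2 := D.w_ne c
  have h3 := D.w_ne (D.nu a)
  rw [Finset.sum_eq_single (D.nu c), Finset.sum_eq_single (D.nu a)]
  · simp only [ca, D.invol, if_true]
    field_simp
    linear_combination (-f (Stream'.cons p s)) * h1
  · intro x _ hx
    simp [ca, hx]
  · simp
  · intro x _ hx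
    have : ¬ c = D.nu x := fun hh => hx (D.eq_nu.1 hh)
    simp [ca, this]
  · simp

theorem sum_Rb_ca {A : K}
    (hA : ∀ a, D.q * D.eta a - (if D.nu a < a then D.z else 0) +
      D.z * ∑ d ∈ Finset.univ.filter (· < a), D.eta d = A) (a b : I) :
    ∑ x, ∑ y, D.Rb a b x y * D.ca x y = A * D.ca a b := by
  have e1 : ∀ x, ∑ y, D.Rb a b x y * D.ca x y = D.Rb a b x (D.nu x) * (D.w (D.nu x))⁻¹ := by
    intro x
    simp [ca]
  simp only [e1]
  rw [← Equiv.sum_comp (⟨D.nu, D.nu, D.invol, D.invol⟩ : I ≃ I)]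
  simp only [Equiv.coe_fn_mk, D.invol]
  by_cases hb : b = D.nu a
  · subst hb
    have h1 := D.w_ne a
    have h2 := D.w_ne (D.nu a)
    have e2 : ∀ y, D.Rb a (D.nu a) (D.nu y) y * (D.w y)⁻¹ =
        (if y = a then D.q * (D.w a)⁻¹ else 0) -
        (if y = D.nu a then (if D.nu a < a then D.z else 0) * (D.w (D.nu a))⁻¹ else 0) +
        (if y < a then D.z * (D.w (D.nu a))⁻¹ * D.eta y else 0) := by
      intro y
      unfold Rb sm ca cu rr eta
      simp only [D.nu_inj, D.invol, and_self, if_true, (D.nofix a).symm, if_false, inv_inv]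
      have h3 := D.w_ne y
      by_cases k1 : y = a
      · subst k1
        simp [(D.nofix y).symm]
      · by_cases k2 : y = D.nu a
        · subst k2
          simp only [D.invol, D.nofix, if_false, and_self, if_true]
          split_ifs
          · field_simp
            ring
          · simp
        · simp only [k1, k2, if_false, and_false]
          split_ifs
          · field_simp
            ring
          · simp
    simp only [e2, Finset.sum_add_distrib, Finset.sum_sub_distrib, Finset.sum_ite_eq',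
      Finset.mem_univ, if_true]
    rw [← Finset.sum_filter, ← Finset.mul_sum, ← hA a]
    simp only [ca, if_true, eta]
    field_simp
  · rw [ca, if_neg hb, mul_zero]
    refine Finset.sum_eq_zero fun y _ => ?_
    have k1 : ¬ (D.nu y = b ∧ y = a) := fun hh => hb (by rw [← hh.1, hh.2])
    have k2 : ¬ (D.nu y = a ∧ y = b) := fun hh => hb (by rw [← hh.1, D.invol, hh.2])
    simp [Rb, sm, ca, k1, k2, hb]

theorem pre {A A' : K} (hu : A * A' = 1)
    (hA : ∀ a, D.q * D.eta a - (if D.nu a < a then D.z else 0) +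
      D.z * ∑ d ∈ Finset.univ.filter (· < a), D.eta d = A)
    (hv : A + D.z - D.z * ∑ d, D.eta d = A') :
    Pre shift (stOp D.cu D.ca D.R D.Rb) A A' D.z (∑ d, D.eta d) where
  far := stOp_far _ _ _ _
  zig := by
    refine end_ext1 fun f a s => ?_
    simp only [stOp, Module.End.mul_apply, shift_cons, opCup_apply, opCap_cons, D.sum_cu,
      Module.End.one_apply]
    rw [Finset.sum_eq_single (D.nu a)]
    · simp [ca, D.invol, D.w_ne]
    · intro x _ hx
      simp [ca, hx]
    · simp
  zag := by
    refine end_ext1 fun f a s => ?_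
    simp only [stOp, Module.End.mul_apply, shift_cons, opCup_apply, opCap_cons, D.sum_cu,
      Module.End.one_apply]
    rw [Finset.sum_eq_single a]
    · simp [ca, D.invol, D.w_ne]
    · intro x _ hx
      simp [ca, D.invol, hx.symm]
    · simp
  cupPos := D.slide_cup _ _ D.rot1
  cupNeg := D.slide_cup _ _ D.rot2
  capPos := D.slide_cap _ _ D.rot2
  capNeg := D.slide_cap _ _ D.rot1
  unit := hu
  negCap := by
    refine end_ext2 fun f a b s => ?_
    simp only [stOp, Module.End.mul_apply, opX_cons, opCap_cons, LinearMap.smul_apply,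
      Pi.smul_apply, smul_eq_mul, ← mul_assoc, ← Finset.sum_mul]
    rw [D.sum_Rb_ca hA]
  loop := by
    ext f s
    simp only [stOp, Module.End.mul_apply, opCup_apply, opCap_cons, D.sum_cu,
      LinearMap.smul_apply, Pi.smul_apply, smul_eq_mul, Module.End.one_apply, Finset.sum_mul]
    rw [← Equiv.sum_comp (⟨D.nu, D.nu, D.invol, D.invol⟩ : I ≃ I)]
    refine Finset.sum_congr rfl fun x _ => ?_
    simp [ca, eta, D.invol, div_eq_mul_inv, mul_assoc]
  skein := by
    refine end_ext2 fun f a b s => ?_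
    simp only [stOp, Module.End.mul_apply, opX_cons, opCap_cons, opCup_apply,
      LinearMap.smul_apply, LinearMap.sub_apply, Pi.smul_apply, Pi.sub_apply, smul_eq_mul,
      Module.End.one_apply, ← Finset.sum_sub_distrib, ← sub_mul, D.R_sub]
    simp only [sm, mul_sub, sub_mul, Finset.sum_sub_distrib, Finset.mul_sum, mul_assoc]
    congr 1
    simp [ite_and]
  value := hv

theorem dub [Inhabited I] {A A' : K} (hu : A * A' = 1)
    (hA : ∀ a, D.q * D.eta a - (if D.nu a < a then D.z else 0) +
      D.z * ∑ d ∈ Finset.univ.filter (· < a), D.eta d = A)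
    (hv : A + D.z - D.z * ∑ d, D.eta d = A') :
    Dub (shRep shift (stOp D.cu D.ca D.R D.Rb)) A A' D.z (∑ d, D.eta d) :=
  dub_of_tri (D.pre hu hA hv) D.tri_R D.tri_Rb D.diag

end RData

end Pool.Agent.Lib.MP_43d316_gt
end

-- part Pool.Agent.Lib.MP_43d316_gt.Inst
section

/-
The two families of R-matrices that are used: even orthogonal type and rank one symplectic
type (the Kauffman bracket).
-/

namespace Pool.Agent.Lib.MP_43d316_gt

open Kind

section Ortho

variable {K : Type*} [Field K]

/-- Even orthogonal data of size `2 n + 2`. -/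
def orthoData (n : ℕ) (q : K) (hq : q ≠ 0) : RData K (Fin (2 * n + 2)) where
  nu := Fin.rev
  q := q
  w := fun c => if (c : ℕ) ≤ n then 1 else q ^ (2 * ((c : ℤ) - (n + 1)))
  invol := Fin.rev_rev
  anti := fun _ _ h => Fin.rev_lt_rev.2 h
  nofix := fun a h => by
    have := congrArg Fin.val h
    rw [Fin.val_rev] at this
    omega
  q_ne := hq
  w_ne := fun c => by
    split_ifs
    · exact one_ne_zero
    · exact zpow_ne_zero _ hq

/-- Exponents of the weights. -/
def oexp (n d : ℕ) : ℤ := if d ≤ n then 2 * ((n : ℤ) - d) else 2 * ((n : ℤ) + 1 - d)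

theorem ortho_eta (n : ℕ) (q : K) (hq : q ≠ 0) (d : Fin (2 * n + 2)) :
    (orthoData n q hq).eta d = q ^ oexp n d := by
  have hd := d.2
  simp only [RData.eta, orthoData, oexp, Fin.val_rev]
  by_cases h : (d : ℕ) ≤ n
  · rw [if_pos h, if_pos h, if_neg (by omega), div_one]
    congr 1
    omega
  · rw [if_neg h, if_neg h, if_pos (by omega), one_div, ← zpow_neg]
    congr 1
    ring

theorem ortho_sum (n : ℕ) (q : K) (hq : q ≠ 0) (a : ℕ) :
    (q - q⁻¹) * ∑ d ∈ Finset.range a, q ^ oexp n d =
      q ^ (2 * n + 1) - q * q ^ oexp n a + if n < a then q - q⁻¹ else 0 := by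
  induction a with
  | zero =>
    simp only [Finset.range_zero, Finset.sum_empty, mul_zero, oexp, Nat.zero_le, if_true,
      Nat.not_lt_zero, if_false, add_zero, Nat.cast_zero, sub_zero]
    rw [show (2 * (n : ℤ)) = ((2 * n : ℕ) : ℤ) by push_cast; ring, zpow_natCast]
    ring
  | succ a ih =>
    rw [Finset.sum_range_succ, mul_add, ih]
    rcases lt_trichotomy a n with h | rfl | h
    · have h1 : oexp n a = oexp n (a + 1) + 2 := by
        unfold oexp
        rw [if_pos h.le, if_pos (by omega)]
        push_cast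
        ring
      rw [if_neg (by omega), if_neg (by omega), h1, zpow_add₀ hq]
      field_simp
      ring
    · have h1 : oexp a a = 0 := by simp [oexp]
      have h2 : oexp a (a + 1) = 0 := by simp [oexp]
      rw [if_neg (lt_irrefl _), if_pos (Nat.lt_succ_self _), h1, h2, zpow_zero]
      ring
    · have h1 : oexp n a = oexp n (a + 1) + 2 := by
        unfold oexp
        rw [if_neg (by omega), if_neg (by omega)]
        push_cast
        ring
      rw [if_pos h, if_pos (by omega), h1, zpow_add₀ hq]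
      field_simp
      ring

theorem sum_filter_fin {N : ℕ} (a : Fin N) (F : ℕ → K) :
    ∑ d ∈ Finset.univ.filter (· < a), F d = ∑ d ∈ Finset.range a, F d := by
  refine Finset.sum_bij (fun d _ => (d : ℕ)) ?_ ?_ ?_ ?_
  · intro d hd
    simpa using hd
  · intro d _ e _ h
    exact Fin.ext h
  · intro b hb
    have hb' : b < a := by simpa using hb
    exact ⟨⟨b, hb'.trans a.2⟩, Finset.mem_filter.2 ⟨Finset.mem_univ _, hb'⟩, rfl⟩
  · intro d _
    rfl

/-- The orthogonal representation. -/
def orthoRep (n : ℕ) (q : K) (hq : q ≠ 0) :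
    Kind → ℕ → Module.End K (St K (Fin (2 * n + 2))) :=
  shRep shift (stOp (orthoData n q hq).cu (orthoData n q hq).ca (orthoData n q hq).R
    (orthoData n q hq).Rb)

theorem ortho_dub (n : ℕ) (q : K) (hq : q ≠ 0) (hz : q - q⁻¹ ≠ 0) :
    Dub (orthoRep n q hq) (q ^ (2 * n + 1)) (q ^ (2 * n + 1))⁻¹ (q - q⁻¹)
      (1 + (q ^ (2 * n + 1) - (q ^ (2 * n + 1))⁻¹) * (q - q⁻¹)⁻¹) := by
  have hs : (q - q⁻¹) * ∑ d, (orthoData n q hq).eta d =
      q ^ (2 * n + 1) - (q ^ (2 * n + 1))⁻¹ + (q - q⁻¹) := by
    simp only [ortho_eta]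
    rw [Fin.sum_univ_eq_sum_range (fun d => q ^ oexp n d), ortho_sum n q hq, if_pos (by omega)]
    have : oexp n (2 * n + 2) = -((2 * n + 2 : ℕ) : ℤ) := by
      unfold oexp
      rw [if_neg (by omega)]
      push_cast
      ring
    rw [this, zpow_neg, zpow_natCast]
    field_simp
    ring
  have hd : ∑ d, (orthoData n q hq).eta d =
      1 + (q ^ (2 * n + 1) - (q ^ (2 * n + 1))⁻¹) * (q - q⁻¹)⁻¹ := by
    apply mul_left_cancel₀ hz
    rw [hs, mul_add, mul_one, mul_left_comm, mul_inv_cancel₀ hz]
    ring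
  rw [← hd]
  refine (orthoData n q hq).dub (mul_inv_cancel₀ (pow_ne_zero _ hq)) (fun a => ?_) ?_
  · simp only [ortho_eta]
    rw [sum_filter_fin a (fun d => q ^ oexp n d)]
    have h1 := ortho_sum n q hq a
    have h2 : ((orthoData n q hq).nu a < a) ↔ n < a := by
      show Fin.rev a < a ↔ _
      rw [Fin.lt_def, Fin.val_rev]
      have := a.2
      omega
    simp only [h2]
    show q * _ - (if n < a then q - q⁻¹ else 0) + (q - q⁻¹) * _ = _
    rw [h1]
    ring
  · show _ + (q - q⁻¹) - (q - q⁻¹) * _ = _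
    rw [hs]
    ring

/-- Data of the Kauffman bracket. -/
def brData (q : K) (hq : q ≠ 0) : RData K (Fin 2) where
  nu := Fin.rev
  q := q
  w := ![1, -q ^ 2]
  invol := Fin.rev_rev
  anti := fun _ _ h => Fin.rev_lt_rev.2 h
  nofix := by decide
  q_ne := hq
  w_ne := fun c => by
    fin_cases c
    · exact one_ne_zero
    · exact neg_ne_zero.2 (pow_ne_zero _ hq)

/-- The representation of the Kauffman bracket. -/
def brRep (q : K) (hq : q ≠ 0) : Kind → ℕ → Module.End K (St K (Fin 2)) :=
  shRep shift (stOp (brData q hq).cu (brData q hq).ca (brData q hq).R (brData q hq).Rb)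

theorem br_dub (q : K) (hq : q ≠ 0) :
    Dub (brRep q hq) (-q ^ 3) (-q⁻¹ ^ 3) (q - q⁻¹) (-q ^ 2 - q⁻¹ ^ 2) := by
  have e0 : (brData q hq).eta 0 = -q ^ 2 := by simp [RData.eta, brData]
  have e1 : (brData q hq).eta 1 = -q⁻¹ ^ 2 := by
    simp [RData.eta, brData, Fin.rev, inv_neg]
  have hd : ∑ d, (brData q hq).eta d = -q ^ 2 - q⁻¹ ^ 2 := by
    rw [Fin.sum_univ_two, e0, e1]
    ring
  rw [← hd]
  refine (brData q hq).dub (by field_simp) (fun a => ?_) ?_
  · rw [Finset.sum_filter, Fin.sum_univ_two, e0, e1]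
    fin_cases a
    · have : ¬ (brData q hq).nu 0 < 0 := by simp
      simp only [Fin.zero_eta, this, e0]
      show q * _ - _ + (q - q⁻¹) * _ = _
      simp
      ring
    · have : (brData q hq).nu 1 < 1 := by
        show Fin.rev (1 : Fin 2) < 1
        decide
      simp only [Fin.mk_one, this, e1]
      show q * _ - (q - q⁻¹) + (q - q⁻¹) * _ = _
      simp
      field_simp
      ring
  · rw [hd]
    show _ + (q - q⁻¹) - (q - q⁻¹) * _ = _
    field_simp
    ring

theorem br_pos (q : K) (hq : q ≠ 0) (i : ℕ) :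
    brRep q hq pos i = q • 1 + q⁻¹ • (brRep q hq cap i * brRep q hq cup i) := by
  have : stOp (brData q hq).cu (brData q hq).ca (brData q hq).R (brData q hq).Rb pos =
      q • 1 + q⁻¹ • (opCap (brData q hq).ca * opCup (brData q hq).cu) := by
    refine end_ext2 fun f a b s => ?_
    simp only [stOp, opX_cons, LinearMap.add_apply, LinearMap.smul_apply, Pi.add_apply,
      Pi.smul_apply, Module.End.one_apply, Module.End.mul_apply, opCap_cons, opCup_apply,
      smul_eq_mul, Fin.sum_univ_two]
    fin_cases a <;> fin_cases b <;>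
      simp [RData.R, RData.sm, RData.ca, RData.cu, RData.rr, RData.z, brData, Fin.rev] <;>
      field_simp <;> ring
  simp only [brRep, shRep]
  rw [this, map_add, map_smul, map_smul, map_one, map_mul]
  rfl

end Ortho

end Pool.Agent.Lib.MP_43d316_gt
end
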