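import Pool.Agent.Lib.MP_43d316_gt.Inst

/-
Interpolation: from a dense family of representations to an invariant with values in the
ring of parameters, normalised to be one on the trivial knot.
-/

namespace Pool.Agent.Lib.MP_43d316_gt

open Kind

/-- The positive curl. -/
def curl (i : ℕ) : Word := [(cup, i + 1), (pos, i), (cap, i + 1)]

/-- An invariant of framed links with framing factor `a` and value one on the trivial knot. -/
structure Inv {k : Type*} [CommRing k] (F : Word → k) (a : k) : Prop where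
  move : ∀ P Q u v, Move u v → Ok 0 (P ++ u ++ Q) 0 → Ok 0 (P ++ v ++ Q) 0 →
    F (P ++ u ++ Q) = F (P ++ v ++ Q)
  frame : ∀ P Q i, Ok 0 (P ++ Q) 0 → Ok 0 (P ++ curl i ++ Q) 0 →
    F (P ++ curl i ++ Q) = a * F (P ++ Q)
  unk : F [(cup, 0), (cap, 0)] = 1

theorem Inv.mul {k : Type*} [CommRing k] {F G : Word → k} {a b : k} (hF : Inv F a)
    (hG : Inv G b) : Inv (fun w => F w * G w) (a * b) where
  move P Q u v m h1 h2 := by rw [hF.move P Q u v m h1 h2, hG.move P Q u v m h1 h2]
  frame P Q i h1 h2 := by rw [hF.frame P Q i h1 h2, hG.frame P Q i h1 h2]; ring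
  unk := by rw [hF.unk, hG.unk, one_mul]

theorem Inv.map {k l : Type*} [CommRing k] [CommRing l] {F : Word → k} {a : k} (hF : Inv F a)
    (f : k →+* l) : Inv (fun w => f (F w)) (f a) where
  move P Q u v m h1 h2 := by rw [hF.move P Q u v m h1 h2]
  frame P Q i h1 h2 := by rw [hF.frame P Q i h1 h2, map_mul]
  unk := by rw [hF.unk, map_one]

/-- A place in a closed diagram where two strands can be twisted. -/
def Site (P Q : Word) (i : ℕ) : Prop := ∃ n, Ok 0 P n ∧ i + 2 ≤ n ∧ Ok n Q 0

theorem site_of_ok {P Q : Word} {i : ℕ} (h : Ok 0 (P ++ [(pos, i)] ++ Q) 0) : Site P Q i := by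
  obtain ⟨l, h1, h2⟩ := ok_append.1 h
  obtain ⟨n, h3, h4, h5⟩ := ok_append.1 h1
  have h6 : n - 2 + 2 = l := h5
  have h7 : i + 2 ≤ n := h4
  obtain rfl : n = l := by omega
  exact ⟨n, h3, h7, h2⟩

theorem Site.ne {P Q : Word} {i : ℕ} (h : Site P Q i) (u : Word) : P ++ u ++ Q ≠ [] := by
  obtain ⟨n, h1, h2, _⟩ := h
  intro h0
  simp only [List.append_eq_nil_iff] at h0
  rw [h0.1.1] at h1
  have : 0 = n := h1
  omega

theorem Site.ok {P Q : Word} {i : ℕ} (h : Site P Q i) {u : Word}
    (hu : ∀ n, i + 2 ≤ n → Ok n u n) : Ok 0 (P ++ u ++ Q) 0 := by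
  obtain ⟨n, h1, h2, h3⟩ := h
  exact ok_append.2 ⟨n, ok_append.2 ⟨n, h1, hu n h2⟩, h3⟩

theorem Site.ok0 {P Q : Word} {i : ℕ} (h : Site P Q i) : Ok 0 (P ++ [] ++ Q) 0 :=
  h.ok fun _ _ => rfl

theorem Site.ok1 {P Q : Word} {i : ℕ} (h : Site P Q i) : Ok 0 (P ++ [(pos, i)] ++ Q) 0 :=
  h.ok fun n hn => by simp only [Ok, Kind.inp, Kind.out]; omega

theorem Site.ok2 {P Q : Word} {i : ℕ} (h : Site P Q i) :
    Ok 0 (P ++ [(pos, i), (pos, i)] ++ Q) 0 :=
  h.ok fun n hn => by simp only [Ok, Kind.inp, Kind.out]; omega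

theorem Site.ok3 {P Q : Word} {i : ℕ} (h : Site P Q i) :
    Ok 0 (P ++ [(pos, i), (pos, i), (pos, i)] ++ Q) 0 :=
  h.ok fun n hn => by simp only [Ok, Kind.inp, Kind.out]; omega

theorem Site.oki {P Q : Word} {i : ℕ} (h : Site P Q i) :
    Ok 0 (P ++ [(cap, i), (cup, i)] ++ Q) 0 :=
  h.ok fun n hn => by simp only [Ok, Kind.inp, Kind.out]; omega

theorem move_left_ne {u v : Word} (m : Move u v) : u ≠ [] := by
  cases m <;> simp

theorem move_right_ne {P Q u v : Word} (m : Move u v) (h : Ok 0 (P ++ u ++ Q) 0) :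
    P ++ v ++ Q ≠ [] := by
  intro h0
  simp only [List.append_eq_nil_iff] at h0
  obtain ⟨⟨rfl, rfl⟩, rfl⟩ := h0
  rw [List.nil_append, List.append_nil] at h
  cases m <;> simp [Ok, Kind.inp, Kind.out] at h

/-- A linear relation between the five diagrams at every site. -/
def SiteRel {k : Type*} [CommRing k] (F : Word → k) (c0 c1 c2 c3 ci : k) : Prop :=
  ∀ P Q i, Site P Q i →
    c0 * F (P ++ Q) + c1 * F (P ++ [(pos, i)] ++ Q) + c2 * F (P ++ [(pos, i), (pos, i)] ++ Q) +
      c3 * F (P ++ [(pos, i), (pos, i), (pos, i)] ++ Q) +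
      ci * F (P ++ [(cap, i), (cup, i)] ++ Q) = 0

theorem SiteRel.map {k l : Type*} [CommRing k] [CommRing l] {F : Word → k}
    {c0 c1 c2 c3 ci : k} (h : SiteRel F c0 c1 c2 c3 ci) (f : k →+* l) :
    SiteRel (fun w => f (F w)) (f c0) (f c1) (f c2) (f c3) (f ci) := by
  intro P Q i hs
  have := congrArg f (h P Q i hs)
  simpa using this

theorem interp {L J : Type*} [CommRing L] (A : J → Type*) [∀ j, Ring (A j)]
    [∀ j, Algebra ℚ (A j)] [∀ j, Nontrivial (A j)] (e : J → L →+* ℚ)
    (r : ∀ j, Kind → ℕ → A j) (a a' z d : L)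
    (h : ∀ j, Dub (r j) (e j a) (e j a') (e j z) (e j d))
    (hinj : ∀ x, (∀ j, e j x = 0) → x = 0) (hd : ∀ j, e j d ≠ 0) :
    ∃ G : Word → L, Inv G a ∧ ∀ c0 c1 c2 c3 ci : L,
      (∀ j i, e j c0 • (1 : A j) + e j c1 • r j pos i + e j c2 • (r j pos i * r j pos i) +
        e j c3 • (r j pos i * r j pos i * r j pos i) + e j ci • (r j cap i * r j cup i) = 0) →
      SiteRel G c0 c1 c2 c3 ci := by
  let io : L →+* (∀ j, A j) := RingHom.pi fun j => (algebraMap ℚ (A j)).comp (e j)
  let _ : Algebra L (∀ j, A j) := io.toAlgebra' fun c x => by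
    funext j
    exact Algebra.commutes (e j c) (x j)
  have hs : ∀ (c : L) (x : ∀ j, A j) (j : J), (c • x) j = e j c • x j := by
    intro c x j
    rw [Algebra.smul_def, Algebra.smul_def]
    rfl
  have ext0 : ∀ x, (∀ j, e j x = 0) → x = 0 := hinj
  have hR : Dub (fun x i j => r j x i) a a' z d :=
    { far := fun x y i k => funext fun j => (h j).far x y i k
      zig := fun i => funext fun j => (h j).zig i
      zag := fun i => funext fun j => (h j).zag i
      cupPos := fun i => funext fun j => (h j).cupPos i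
      cupNeg := fun i => funext fun j => (h j).cupNeg i
      capPos := fun i => funext fun j => (h j).capPos i
      capNeg := fun i => funext fun j => (h j).capNeg i
      twoPos := fun i => funext fun j => (h j).twoPos i
      twoNeg := fun i => funext fun j => (h j).twoNeg i
      three := fun i => funext fun j => (h j).three i
      unit := by
        rw [← sub_eq_zero]
        refine hinj _ fun j => ?_
        rw [map_sub, map_mul, map_one, (h j).unit, sub_self]
      negCap := fun i => funext fun j => by rw [hs]; exact (h j).negCap i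
      loop := fun i => funext fun j => by rw [hs]; exact (h j).loop i
      skein := fun i => funext fun j => by rw [hs]; exact (h j).skein i }
  have hev : ∀ (w : Word) (j : J), ev (fun x i j => r j x i) w j = ev (r j) w := by
    intro w j
    induction w with
    | nil => rfl
    | cons p w ih =>
      obtain ⟨x, i⟩ := p
      rw [ev_cons, ev_cons, Pi.mul_apply, ih]
  have hex : ∀ w : Word, ∃ g : L, Ok 0 w 0 → w ≠ [] →
      ∀ j, ev (r j) w = (e j d * e j g) • (1 : A j) := by
    intro w
    by_cases hw : Ok 0 w 0 ∧ w ≠ []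
    · obtain ⟨g, hg⟩ := closed_ev hR hw.1 hw.2
      refine ⟨g, fun _ _ j => ?_⟩
      rw [← hev, hg, hs, map_mul]
      rfl
    · exact ⟨0, fun h1 h2 => absurd ⟨h1, h2⟩ hw⟩
  choose G hG using hex
  have key : ∀ x : L, (∀ j, (e j d * e j x) • (1 : A j) = 0) → x = 0 := by
    intro x hx
    refine hinj x fun j => ?_
    have h1 := hx j
    rw [smul_eq_zero] at h1
    exact (mul_eq_zero.1 (h1.resolve_right one_ne_zero)).resolve_left (hd j)
  refine ⟨G, ⟨?_, ?_, ?_⟩, ?_⟩
  · intro P Q u v m h1 h2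
    rw [← sub_eq_zero]
    refine key _ fun j => ?_
    have k1 := hG _ h1 (by simp [move_left_ne m]) j
    have k2 := hG _ h2 (move_right_ne m h1) j
    rw [map_sub, mul_sub, sub_smul, ← k1, ← k2]
    simp only [ev_append]
    rw [(h j).toFramed.move m, sub_self]
  · intro P Q i h1 h2
    rw [← sub_eq_zero]
    refine key _ fun j => ?_
    have hne : P ++ Q ≠ [] := by
      intro h0
      simp only [List.append_eq_nil_iff] at h0
      obtain ⟨rfl, rfl⟩ := h0
      simp [curl, Ok, Kind.inp] at h2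
    have k1 := hG _ h1 hne j
    have k2 := hG _ h2 (by simp [curl]) j
    have k3 := (h j).toFramed.curlR i
    rw [map_sub, map_mul, mul_sub, sub_smul, mul_left_comm, mul_smul (e j a), ← k1, ← k2]
    simp only [ev_append, curl, ev_cons, ev_nil, mul_one]
    rw [← mul_assoc (r j cup (i + 1)), k3]
    simp
  · rw [← sub_eq_zero]
    refine key _ fun j => ?_
    have k1 := hG _ unknot.2 (by simp [unknot]) j
    simp only [unknot] at k1
    rw [map_sub, mul_sub, sub_smul, ← k1, map_one, mul_one]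
    simp only [ev_cons, ev_nil, mul_one]
    rw [(h j).loop, sub_self]
  · intro c0 c1 c2 c3 ci hc P Q i hS
    refine key _ fun j => ?_
    have k0 := hG _ hS.ok0 (hS.ne _) j
    have k1 := hG _ hS.ok1 (hS.ne _) j
    have k2 := hG _ hS.ok2 (hS.ne _) j
    have k3 := hG _ hS.ok3 (hS.ne _) j
    have ki := hG _ hS.oki (hS.ne _) j
    rw [List.append_nil] at k0
    have k := congrArg (fun x => ev (r j) P * x * ev (r j) Q) (hc j i)
    simp only [map_add, map_mul, mul_add, add_smul, mul_left_comm (e j d), mul_smul (e j c0),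
      mul_smul (e j c1), mul_smul (e j c2), mul_smul (e j c3), mul_smul (e j ci),
      ← k0, ← k1, ← k2, ← k3, ← ki]
    simpa only [ev_append, ev_cons, ev_nil, mul_one, mul_add, add_mul, mul_smul_comm,
      smul_mul_assoc, mul_assoc, mul_zero, zero_mul] using k

end Pool.Agent.Lib.MP_43d316_gt
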