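import Pool.Agent.Lib.MP_43d316_gt.Defs

/-
The linear algebra behind the necessary condition.  A vector `(x1, x2, x3, x4)` stands for a
relation between the two smoothings and the two crossings.
-/

namespace Pool.Agent.Lib.MP_43d316_gt

/-- The properties of the space of relations among the four simplest two-tangles
(normalised so that `b3 = 1`; `s` is the inverse of `a`, `t` the value of the two-component
trivial link). -/
structure Null {k : Type*} [Field k] (Z : k → k → k → k → Prop) (a s b0 b1 b2 bi t : k) :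
    Prop where
  unit : a * s = 1
  b0_ne : b0 ≠ 0
  lin : ∀ {x1 x2 x3 x4 y1 y2 y3 y4 : k} (c d : k), Z x1 x2 x3 x4 → Z y1 y2 y3 y4 →
    Z (c * x1 + d * y1) (c * x2 + d * y2) (c * x3 + d * y3) (c * x4 + d * y4)
  sym : ∀ {x1 x2 x3 x4 : k}, Z x1 x2 x3 x4 → Z x2 x1 x4 x3
  sig : ∀ {x1 x2 x3 x4 : k}, Z x1 x2 x3 x4 →
    Z (x1 * s - x4 * (bi * a)) (x3 - x4 * b1) (-x4 * b0) (x2 - x4 * b2)
  defect : Z (s * (b2 - b0 * b1) + b0 ^ 2 * (bi * a)) (bi * a - b0 * b2 + b0 ^ 2 * b1)
    (b0 ^ 3 + s) (b1 * s - b0 * (bi * a) + b0 ^ 2 * b2)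
  val : ∀ {x1 x2 x3 x4 : k}, Z x1 x2 x3 x4 → x1 * t + x2 + x3 * a + x4 * s = 0
  cubic : b0 * a + b1 + b2 * s + s ^ 2 + bi * a * t = 0

namespace Null

variable {k : Type*} [Field k] {Z : k → k → k → k → Prop} {a s b0 b1 b2 bi t : k}

omit [Field k] in
theorem cast {x1 x2 x3 x4 y1 y2 y3 y4 : k} (h : Z x1 x2 x3 x4) (h1 : x1 = y1) (h2 : x2 = y2)
    (h3 : x3 = y3) (h4 : x4 = y4) : Z y1 y2 y3 y4 := by
  subst h1 h2 h3 h4
  exact h

theorem one_of_sq (h : Null Z a s b0 b1 b2 bi t) (h1 : s ^ 4 = 1)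
    (h2 : b0 + b1 * s + b2 * s ^ 2 + s ^ 3 + bi * s ^ 2 = 0) : FamOne a b0 b1 b2 1 bi := by
  have hu := h.unit
  have h4 : a ^ 4 = 1 := by
    linear_combination (-a ^ 4) * h1 + (a ^ 3 * s ^ 3 + a ^ 2 * s ^ 2 + a * s + 1) * hu
  have h3 : s = a ^ 3 := by linear_combination (-s) * h4 + a ^ 3 * hu
  subst h3
  refine ⟨h4, ?_⟩
  linear_combination h2 - (b2 * a ^ 2 + (a ^ 5 + a) + bi * a ^ 2) * h4

theorem smooth (h : Null Z a s b0 b1 b2 bi t) {p q : k} (hz : Z p q 0 0)
    (hpq : p ≠ 0 ∨ q ≠ 0) : FamOne a b0 b1 b2 1 bi := by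
  have v1 := h.val hz
  have v2 := h.val (h.sym hz)
  have hp : p ≠ 0 := by
    rintro rfl
    rcases hpq with h0 | h0
    · exact h0 rfl
    · exact h0 (by linear_combination v1)
  have hq : q = -p * t := by linear_combination v1
  subst hq
  have ht : t ^ 2 = 1 := by
    apply mul_left_cancel₀ hp
    linear_combination -v2
  have z1 : Z 1 (-t) 0 0 := cast (h.lin p⁻¹ 0 hz hz) (by field_simp; ring) (by field_simp; ring)
    (by ring) (by ring)
  have z2 : Z s 0 0 (-t) := cast (h.sig z1) (by ring) (by ring) (by ring) (by ring)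
  have z3 : Z 0 (s * t) 0 (-t) := cast (h.lin 1 (-s) z2 z1) (by ring) (by ring) (by ring)
    (by ring)
  have v3 := h.val (h.sym z3)
  have hu := h.unit
  have hs : s ^ 2 = t := by
    linear_combination s * v3 - s ^ 2 * ht + t * hu
  refine h.one_of_sq (by linear_combination (s ^ 2 + t) * hs + ht) ?_
  linear_combination s * h.cubic - (b0 + bi * t) * hu + bi * hs

theorem bracket (h : Null Z a s b0 b1 b2 bi t) {x y : k} (hz : Z y x 0 (-1)) :
    FamOne a b0 b1 b2 1 bi ∨ FamBracket a b0 b1 b2 1 bi := by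
  have z1 := h.sym hz
  have z2 : Z (x * s + y ^ 2) (x * y - 1) 0 0 :=
    cast (h.lin 1 y (h.sig z1) hz) (by ring) (by ring) (by ring) (by ring)
  by_cases c1 : x * s + y ^ 2 ≠ 0 ∨ x * y - 1 ≠ 0
  · exact Or.inl (h.smooth z2 c1)
  push Not at c1
  obtain ⟨e1, e2⟩ := c1
  have z3 : Z (y * s + bi * a + (x + b2) * y + b0 * x) (b1 + (x + b2) * x + b0 * y) 0 0 :=
    cast (h.lin 1 b0 (h.lin 1 (x + b2) (h.sig hz) hz) z1) (by ring) (by ring) (by ring) (by ring)
  by_cases c2 : y * s + bi * a + (x + b2) * y + b0 * x ≠ 0 ∨ b1 + (x + b2) * x + b0 * y ≠ 0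
  · exact Or.inl (h.smooth z3 c2)
  push Not at c2
  obtain ⟨e3, e4⟩ := c2
  have hx : x ≠ 0 := by
    rintro rfl
    simp at e2
  have hy : y = x⁻¹ := by
    field_simp
    linear_combination e2
  subst hy
  have hu := h.unit
  have hs : s = -x⁻¹ ^ 3 := by
    field_simp at e1 ⊢
    linear_combination e1
  subst hs
  have ha : a = -x ^ 3 := by
    field_simp at hu
    linear_combination -hu
  subst ha
  refine Or.inr ⟨x, rfl, ?_, ?_⟩
  · field_simp at e4
    linear_combination e4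
  · field_simp at e3
    linear_combination -e3

theorem kauff (h : Null Z a s b0 b1 b2 bi t) {e p q : k} (he : e = 1 ∨ e = -1)
    (hz : Z p (e * p) q (e * q)) (hpq : p ≠ 0 ∨ q ≠ 0) :
    FamOne a b0 b1 b2 1 bi ∨ FamBracket a b0 b1 b2 1 bi ∨ FamKauffman a b0 b1 b2 1 bi := by
  have hee : e ^ 2 = 1 := by rcases he with rfl | rfl <;> ring
  by_cases hq : q = 0
  · subst hq
    have hp : p ≠ 0 := by simpa using hpq
    exact Or.inl (h.smooth (cast hz rfl rfl rfl (by ring)) (Or.inl hp))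
  obtain ⟨z, hzz⟩ : ∃ z, z * q = -p := ⟨-p / q, by field_simp⟩
  have z1 : Z (-e * z) (-z) e 1 := by
    refine cast (h.lin (e * q⁻¹) 0 hz hz) ?_ ?_ ?_ ?_ <;> field_simp
    · linear_combination e * hzz
    · linear_combination hzz + p * hee
    · ring
    · linear_combination hee
  have z2 : Z (-e * z * s - bi * a - b0 * z) (e - b1 - e * b0 * z) 0 (e * b0 - b2 - z) := by
    refine cast (h.lin 1 (e * b0) (h.sig z1) z1) ?_ (by ring) ?_ (by ring)
    · linear_combination (-b0 * z) * hee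
    · linear_combination b0 * hee
  by_cases c1 : e * b0 - b2 - z = 0
  · rw [c1] at z2
    by_cases c2 : -e * z * s - bi * a - b0 * z ≠ 0 ∨ e - b1 - e * b0 * z ≠ 0
    · exact Or.inl (h.smooth z2 c2)
    push Not at c2
    obtain ⟨e1, e2⟩ := c2
    have hu := h.unit
    by_cases c3 : z = 0
    · subst c3
      have v := h.val z1
      have hs : s ^ 2 = -e := by linear_combination s * v - e * hu
      have hb : bi = 0 := by linear_combination (-s) * e1 - bi * hu
      refine Or.inl (h.one_of_sq (by linear_combination (s ^ 2 - e) * hs + hee) ?_)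
      linear_combination (-s) * e2 - s ^ 2 * c1 + (s + e * b0) * hs - b0 * hee + s ^ 2 * hb
    · refine Or.inr (Or.inr ⟨e, he, fun hb => c3 (by linear_combination -c1 - hb), ?_, ?_⟩)
      · linear_combination -e2 + e * b0 * c1 - b0 ^ 2 * hee
      · linear_combination (-a) * e1 + (a * b0 + e) * c1 - e * z * hu
  · have z3 : Z ((-e * z * s - bi * a - b0 * z) / -(e * b0 - b2 - z))
        ((e - b1 - e * b0 * z) / -(e * b0 - b2 - z)) 0 (-1) := by
      refine cast (h.lin (-(e * b0 - b2 - z))⁻¹ 0 z2 z2) ?_ ?_ (by ring) ?_ <;> field_simp <;>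
        ring
    rcases h.bracket z3 with h1 | h1
    · exact Or.inl h1
    · exact Or.inr (Or.inl h1)

theorem main (h : Null Z a s b0 b1 b2 bi t) :
    FamOne a b0 b1 b2 1 bi ∨ FamBracket a b0 b1 b2 1 bi ∨ FamKauffman a b0 b1 b2 1 bi ∨
      Exceptional a b0 b1 b2 1 bi := by
  have d1 := h.defect
  have hu := h.unit
  generalize hB : s * (b2 - b0 * b1) + b0 ^ 2 * (bi * a) = B at d1
  generalize hA : bi * a - b0 * b2 + b0 ^ 2 * b1 = A at d1
  generalize hD : b0 ^ 3 + s = D at d1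
  generalize hC : b1 * s - b0 * (bi * a) + b0 ^ 2 * b2 = C at d1
  have d2 := h.sym d1
  by_cases c1 : B - A ≠ 0 ∨ D - C ≠ 0
  · have z : Z (B - A) (-1 * (B - A)) (D - C) (-1 * (D - C)) :=
      cast (h.lin 1 (-1) d1 d2) (by ring) (by ring) (by ring) (by ring)
    rcases h.kauff (Or.inr rfl) z c1 with h1 | h1 | h1
    · exact Or.inl h1
    · exact Or.inr (Or.inl h1)
    · exact Or.inr (Or.inr (Or.inl h1))
  push Not at c1
  by_cases c2 : A ≠ 0 ∨ D ≠ 0
  · have z : Z A (1 * A) D (1 * D) :=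
      cast d1 (by linear_combination c1.1) (by ring) rfl (by linear_combination -c1.2)
    rcases h.kauff (Or.inl rfl) z c2 with h1 | h1 | h1
    · exact Or.inl h1
    · exact Or.inr (Or.inl h1)
    · exact Or.inr (Or.inr (Or.inl h1))
  push Not at c2
  refine Or.inr (Or.inr (Or.inr ⟨?_, ?_⟩))
  · linear_combination a * hD + a * c2.2 - hu
  · linear_combination hA + c2.1

theorem zero_case [IsAlgClosed k] (h : Null Z a s b0 b1 b2 0 t)
    (he : Exceptional a b0 b1 b2 1 0) :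
    FamOne a b0 b1 b2 1 0 ∨ FamBracket a b0 b1 b2 1 0 ∨ FamKauffman a b0 b1 b2 1 0 := by
  obtain ⟨e1, e2⟩ := he
  have hu := h.unit
  have h0 := h.b0_ne
  have hc := h.cubic
  have hs : s = -b0 ^ 3 := by linear_combination s * e1 - b0 ^ 3 * hu
  have h2 : b2 = b0 * b1 := by
    apply mul_left_cancel₀ h0
    linear_combination -e2
  subst hs h2
  have h3 : (b0 ^ 4 - 1) * (b0 ^ 4 + 1 - b1 * b0 ^ 2) = 0 := by
    linear_combination b0 ^ 2 * hc + hu
  rcases mul_eq_zero.1 h3 with h4 | h4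
  · have he : b0 ^ 2 = 1 ∨ b0 ^ 2 = -1 := by
      have : (b0 ^ 2 - 1) * (b0 ^ 2 + 1) = 0 := by linear_combination h4
      rcases mul_eq_zero.1 this with h5 | h5
      · exact Or.inl (by linear_combination h5)
      · exact Or.inr (by linear_combination h5)
    by_cases c : b0 * b1 = b0 ^ 2 * b0
    · have h5 : b1 = b0 ^ 2 := by
        apply mul_left_cancel₀ h0
        linear_combination c
      subst h5
      refine Or.inl (h.one_of_sq (by linear_combination (b0 ^ 8 + b0 ^ 4 + 1) * h4) ?_)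
      linear_combination (-b0) * h4
    · refine Or.inr (Or.inr ⟨b0 ^ 2, he, c, by linear_combination (-b1) * h4, ?_⟩)
      have h5 : a * b0 + b0 ^ 2 = 0 := by
        linear_combination b0 ^ 2 * e1 - a * b0 * h4
      linear_combination (-(b0 * b1 - b0 ^ 2 * b0)) * h5
  · obtain ⟨x, hx⟩ := IsAlgClosed.exists_root
      (Polynomial.X ^ 2 + Polynomial.C b0⁻¹ * Polynomial.X + Polynomial.C (b0⁻¹ ^ 2) :
        Polynomial k) (by
      have : (Polynomial.X ^ 2 + Polynomial.C b0⁻¹ * Polynomial.X + Polynomial.C (b0⁻¹ ^ 2) :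
        Polynomial k).degree = 2 := by compute_degree!
      rw [this]
      decide)
    have hx1 : x ^ 2 + b0⁻¹ * x + b0⁻¹ ^ 2 = 0 := by simpa using hx
    have hx2 : (b0 * x) ^ 2 + b0 * x + 1 = 0 := by
      field_simp at hx1
      linear_combination hx1
    have hx3 : (b0 * x) ^ 3 = 1 := by linear_combination (b0 * x - 1) * hx2
    have hb1 : b1 * b0 ^ 2 = b0 ^ 4 + 1 := by linear_combination -h4
    refine Or.inr (Or.inl ⟨x, ?_, ?_, ?_⟩)
    · apply mul_left_cancel₀ (pow_ne_zero 3 h0)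
      linear_combination e1 + hx3
    · apply mul_left_cancel₀ (pow_ne_zero 3 h0)
      linear_combination (b0 ^ 4 + 1) * hx2 + hx3 + (b0 * x + (b0 * x) ^ 2) * hb1
    · apply mul_left_cancel₀ (pow_ne_zero 4 h0)
      linear_combination (-1) * hx2 - ((b0 * x) ^ 2 + b0 * x + b0 ^ 4 + 1) * hx3 -
        (b0 * x) ^ 3 * hb1

end Null

end Pool.Agent.Lib.MP_43d316_gt
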