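import Pool.Agent.Lib.MP_43d316_gt.Interp
import Pool.Agent.Lib.MP_43d316_gt.NecAlg

/-
From an invariant satisfying the skein relation to the linear algebra of `NecAlg`.
-/

namespace Pool.Agent.Lib.MP_43d316_gt

open Kind

variable {k : Type*} [Field k] {F : Word → k} {a : k}

instance decOk : ∀ (m : ℕ) (w : Word) (n : ℕ), Decidable (Ok m w n)
  | m, [], n => inferInstanceAs (Decidable (m = n))
  | m, (x, i) :: w, n =>
    @instDecidableAnd _ _ (inferInstanceAs (Decidable (i + x.inp ≤ m)))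
      (decOk (m - x.inp + x.out) w n)

theorem Inv.mv (hF : Inv F a) (A B : Word) {u v Q : Word} {l : ℕ} (m : Move u v)
    (hQ : Ok l Q 0) (h1 : Ok 0 (A ++ u ++ B) l) (h2 : Ok 0 (A ++ v ++ B) l) :
    F (A ++ u ++ (B ++ Q)) = F (A ++ v ++ (B ++ Q)) := by
  refine hF.move A (B ++ Q) u v m ?_ ?_
  · rw [← List.append_assoc]
    exact ok_append.2 ⟨l, h1, hQ⟩
  · rw [← List.append_assoc]
    exact ok_append.2 ⟨l, h2, hQ⟩

theorem Inv.fr (hF : Inv F a) (A B : Word) {Q : Word} {l : ℕ} (i : ℕ)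
    (hQ : Ok l Q 0) (h1 : Ok 0 (A ++ B) l) (h2 : Ok 0 (A ++ curl i ++ B) l) :
    F (A ++ curl i ++ (B ++ Q)) = a * F (A ++ (B ++ Q)) := by
  refine hF.frame A (B ++ Q) i ?_ ?_
  · rw [← List.append_assoc]
    exact ok_append.2 ⟨l, h1, hQ⟩
  · rw [← List.append_assoc]
    exact ok_append.2 ⟨l, h2, hQ⟩

theorem ok_cons4 {Q : Word} (hQ : Ok 4 Q 0) {i : ℕ} (hi : i ≤ 2) :
    Ok 4 ((pos, i) :: Q) 0 :=
  ⟨by simp only [Kind.inp]; omega, hQ⟩

/-- A left-handed half twist next to a minimum. -/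
theorem Inv.cupNegTwist (hF : Inv F a) {P Q : Word} {n i : ℕ} (hP : Ok 0 P n) (hi : i ≤ n)
    (hQ : Ok (n + 2) Q 0) :
    F (P ++ (cup, i) :: (neg, i) :: Q) = a * F (P ++ (cup, i) :: Q) := by
  have ok : ∀ {T : Word}, Ok n T (n + 2) → Ok 0 (P ++ T) (n + 2) := fun h =>
    ok_append.2 ⟨n, hP, h⟩
  have s1 := hF.mv (P ++ [(cup, i), (neg, i)]) [] (Move.zig (i + 1)) hQ
    (by simp only [List.append_assoc]; apply ok; simp [Ok, Kind.inp, Kind.out]; omega)
    (by simp only [List.append_assoc]; apply ok; simp [Ok, Kind.inp, Kind.out]; omega)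
  have s2 := hF.mv (P ++ [(cup, i)]) [(cap, i + 1)] (Move.far neg cup i 0) hQ
    (by simp only [List.append_assoc]; apply ok; simp [Ok, Kind.inp, Kind.out]; omega)
    (by simp only [List.append_assoc]; apply ok; simp [Ok, Kind.inp, Kind.out]; omega)
  have s3 := hF.mv P [(neg, i), (cap, i + 1)] (Move.far cup cup i 0) hQ
    (by simp only [List.append_assoc]; apply ok; simp [Ok, Kind.inp, Kind.out]; omega)
    (by simp only [List.append_assoc]; apply ok; simp [Ok, Kind.inp, Kind.out]; omega)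
  have s4 := hF.mv (P ++ [(cup, i), (cup, i)]) [] (Move.capNeg i) hQ
    (by simp only [List.append_assoc]; apply ok; simp [Ok, Kind.inp, Kind.out]; omega)
    (by simp only [List.append_assoc]; apply ok; simp [Ok, Kind.inp, Kind.out]; omega)
  have s5 := hF.mv (P ++ [(cup, i)]) [] (Move.curl i) hQ
    (by simp only [List.append_assoc]; apply ok; simp [Ok, Kind.inp, Kind.out]; omega)
    (by simp only [List.append_assoc]; apply ok; simp [Ok, Kind.inp, Kind.out]; omega)
  have s6 := hF.fr (P ++ [(cup, i)]) [] i hQ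
    (by simp only [List.append_assoc]; apply ok; simp [Ok, Kind.inp, Kind.out]; omega)
    (by simp only [List.append_assoc]; apply ok; simp [curl, Ok, Kind.inp, Kind.out]; omega)
  simp only [curl, List.append_assoc, List.cons_append, List.nil_append, Kind.out, Kind.inp,
    add_zero, add_assoc, Nat.reduceAdd] at s1 s2 s3 s4 s5 s6
  rw [← s1, s2, s3, s4, ← s5, s6]

/-- A left-handed half twist next to a maximum. -/
theorem Inv.negCapTwist (hF : Inv F a) {P Q : Word} {n i : ℕ} (hP : Ok 0 P (n + 2))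
    (hi : i ≤ n) (hQ : Ok n Q 0) :
    F (P ++ (neg, i) :: (cap, i) :: Q) = a * F (P ++ (cap, i) :: Q) := by
  have ok : ∀ {T : Word}, Ok (n + 2) T n → Ok 0 (P ++ T) n := fun h =>
    ok_append.2 ⟨n + 2, hP, h⟩
  have s1 := hF.mv P [(neg, i), (cap, i)] (Move.zag (i + 1)) hQ
    (by simp only [List.append_assoc]; apply ok; simp [Ok, Kind.inp, Kind.out]; omega)
    (by simp only [List.append_assoc]; apply ok; simp [Ok, Kind.inp, Kind.out]; omega)
  have s2 := hF.mv (P ++ [(cup, i + 1)]) [(cap, i)] (Move.far neg cap i 0) hQ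
    (by simp only [List.append_assoc]; apply ok; simp [Ok, Kind.inp, Kind.out]; omega)
    (by simp only [List.append_assoc]; apply ok; simp [Ok, Kind.inp, Kind.out]; omega)
  have s3 := hF.mv P [(cap, i + 2), (cap, i)] (Move.cupNeg i) hQ
    (by simp only [List.append_assoc]; apply ok; simp [Ok, Kind.inp, Kind.out]; omega)
    (by simp only [List.append_assoc]; apply ok; simp [Ok, Kind.inp, Kind.out]; omega)
  have s4 := hF.mv (P ++ [(cup, i), (pos, i + 1)]) [] (Move.far cap cap i 0) hQ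
    (by simp only [List.append_assoc]; apply ok; simp [Ok, Kind.inp, Kind.out]; omega)
    (by simp only [List.append_assoc]; apply ok; simp [Ok, Kind.inp, Kind.out]; omega)
  have s5 := hF.mv P [(cap, i)] (Move.curl i) hQ
    (by simp only [List.append_assoc]; apply ok; simp [Ok, Kind.inp, Kind.out]; omega)
    (by simp only [List.append_assoc]; apply ok; simp [Ok, Kind.inp, Kind.out]; omega)
  have s6 := hF.fr P [(cap, i)] i hQ
    (by apply ok; simp [Ok, Kind.inp, Kind.out]; omega)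
    (by simp only [List.append_assoc]; apply ok; simp [curl, Ok, Kind.inp, Kind.out]; omega)
  simp only [curl, List.append_assoc, List.cons_append, List.nil_append, Kind.out, Kind.inp,
    add_zero, add_assoc, Nat.reduceAdd] at s1 s2 s3 s4 s5 s6
  rw [← s1, ← s2, s3, ← s4, ← s5, s6]

theorem Inv.cupPosTwist (hF : Inv F a) {s : k} (hs : a * s = 1) {P Q : Word} {n i : ℕ}
    (hP : Ok 0 P n) (hi : i ≤ n) (hQ : Ok (n + 2) Q 0) :
    F (P ++ (cup, i) :: (pos, i) :: Q) = s * F (P ++ (cup, i) :: Q) := by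
  have ok : ∀ {T : Word}, Ok n T (n + 2) → Ok 0 (P ++ T) (n + 2) := fun h =>
    ok_append.2 ⟨n, hP, h⟩
  have s1 := hF.cupNegTwist hP hi (Q := (pos, i) :: Q)
    ⟨by simp only [Kind.inp]; omega, by simpa [Kind.inp, Kind.out] using hQ⟩
  have s2 := hF.mv (P ++ [(cup, i)]) [] (Move.twoNeg i) hQ
    (by simp only [List.append_assoc]; apply ok; simp [Ok, Kind.inp, Kind.out]; omega)
    (by simp only [List.append_assoc]; apply ok; simp [Ok, Kind.inp, Kind.out]; omega)
  simp only [List.append_assoc, List.cons_append, List.nil_append] at s2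
  linear_combination s * s2 - s * s1 - F (P ++ (cup, i) :: (pos, i) :: Q) * hs

theorem Inv.posCapTwist (hF : Inv F a) {s : k} (hs : a * s = 1) {P Q : Word} {n i : ℕ}
    (hP : Ok 0 P (n + 2)) (hi : i ≤ n) (hQ : Ok n Q 0) :
    F (P ++ (pos, i) :: (cap, i) :: Q) = s * F (P ++ (cap, i) :: Q) := by
  have ok : ∀ {T : Word} {l : ℕ}, Ok (n + 2) T l → Ok 0 (P ++ T) l := fun h =>
    ok_append.2 ⟨n + 2, hP, h⟩
  have s1 := hF.negCapTwist (P := P ++ [(pos, i)])
    (by apply ok; simp [Ok, Kind.inp, Kind.out]; omega) hi hQ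
  have s2 := hF.mv P [(cap, i)] (Move.twoPos i) hQ
    (by simp only [List.append_assoc]; apply ok; simp [Ok, Kind.inp, Kind.out]; omega)
    (by simp only [List.append_assoc]; apply ok; simp [Ok, Kind.inp, Kind.out]; omega)
  simp only [List.append_assoc, List.cons_append, List.nil_append] at s1 s2
  linear_combination s * s2 - s * s1 - F (P ++ (pos, i) :: (cap, i) :: Q) * hs

/-- The first smoothing. -/
def tU (F : Word → k) (Q : Word) : k := F ((cup, 0) :: (cup, 2) :: Q)

/-- The second smoothing. -/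
def tV (F : Word → k) (Q : Word) : k := F ((cup, 0) :: (cup, 1) :: Q)

section Facts

variable (hF : Inv F a) {s : k} (hs : a * s = 1) {Q : Word} (hQ : Ok 4 Q 0)
include hF hQ

theorem fact_cc : F ((cup, 0) :: (cup, 0) :: Q) = tU F Q :=
  (hF.mv [] [] (Move.far cup cup 0 0) hQ (by decide) (by decide)).symm

include hs in
theorem fact_U0 : tU F ((pos, 0) :: Q) = s * tU F Q := by
  have s1 : F ((cup, 0) :: (pos, 0) :: (cup, 2) :: Q) = tU F ((pos, 0) :: Q) :=
    hF.mv [(cup, 0)] [] (Move.far pos cup 0 0) hQ (by decide) (by decide)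
  rw [← s1]
  exact hF.cupPosTwist hs (P := []) (n := 0) rfl le_rfl (Q := (cup, 2) :: Q) ⟨le_rfl, hQ⟩

include hs in
theorem fact_V1 : tV F ((pos, 1) :: Q) = s * tV F Q :=
  hF.cupPosTwist hs (P := [(cup, 0)]) (n := 2) (by decide) (by decide) hQ

theorem fact_U1 : tU F ((pos, 1) :: Q) = tV F ((neg, 0) :: Q) := by
  rw [← fact_cc hF (ok_cons4 hQ (by decide))]
  exact (hF.mv [(cup, 0)] [] (Move.cupNeg 0) hQ (by decide) (by decide)).symm

theorem fact_V0 : tV F ((pos, 0) :: Q) = tU F ((neg, 1) :: Q) := by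
  rw [← fact_cc hF (Q := (neg, 1) :: Q) ⟨by decide, hQ⟩]
  exact hF.mv [(cup, 0)] [] (Move.cupPos 0) hQ (by decide) (by decide)

theorem fact_Vc : tV F ((neg, 0) :: (pos, 0) :: Q) = tV F Q :=
  hF.mv [(cup, 0), (cup, 1)] [] (Move.twoNeg 0) hQ (by decide) (by decide)

theorem fact_Uc : tU F ((neg, 1) :: (pos, 1) :: Q) = tU F Q :=
  hF.mv [(cup, 0), (cup, 2)] [] (Move.twoNeg 1) hQ (by decide) (by decide)

theorem fact_U10 : tU F ((pos, 1) :: (pos, 0) :: Q) = tV F Q := by
  rw [fact_U1 hF (ok_cons4 hQ (by decide)), fact_Vc hF hQ]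

theorem fact_V01 : tV F ((pos, 0) :: (pos, 1) :: Q) = tU F Q := by
  rw [fact_V0 hF (ok_cons4 hQ (by decide)), fact_Uc hF hQ]

theorem fact_braid : tV F ((pos, 0) :: (pos, 0) :: (pos, 1) :: (pos, 0) :: Q) =
    tV F ((pos, 0) :: (pos, 1) :: (pos, 0) :: (pos, 1) :: Q) :=
  hF.mv [(cup, 0), (cup, 1), (pos, 0)] [] (Move.three 0) hQ (by decide) (by decide)

variable {b0 b1 b2 bi : k} (hS : SiteRel F b0 b1 b2 1 bi)
include hS

theorem fact_skeinV : tV F ((pos, 0) :: (pos, 0) :: Q) =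
    -(bi * a * tU F Q + b1 * tV F Q + b0 * tU F ((pos, 1) :: Q) + b2 * tV F ((pos, 0) :: Q)) := by
  have h := hS [(cup, 0), (cup, 1), (neg, 0)] Q 0 ⟨4, by decide, by decide, hQ⟩
  have e0 := fact_U1 hF hQ
  have e1 := fact_Vc hF hQ
  have e2 := fact_Vc hF (ok_cons4 hQ (i := 0) (by decide))
  have e3 := fact_Vc hF (ok_cons4 (ok_cons4 hQ (i := 0) (by decide)) (i := 0) (by decide))
  have e4 := hF.negCapTwist (P := [(cup, 0), (cup, 1)]) (n := 2) (i := 0) (by decide)
    (by decide) (Q := (cup, 0) :: Q) ⟨by decide, hQ⟩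
  have e5 : F ((cup, 0) :: (cup, 1) :: (cap, 0) :: (cup, 0) :: Q) =
      F ((cup, 0) :: (cup, 0) :: Q) :=
    hF.mv [(cup, 0)] [(cup, 0)] (Move.zig 0) hQ (by decide) (by decide)
  have e6 := fact_cc hF hQ
  simp only [List.cons_append, List.nil_append, tV] at h e0 e1 e2 e3 e4 ⊢
  linear_combination h + b0 * e0 - b1 * e1 - b2 * e2 - e3 - bi * e4 - bi * a * e5 -
    bi * a * e6

theorem fact_skeinU : tU F ((pos, 1) :: (pos, 1) :: Q) =
    -(b1 * tU F Q + bi * a * tV F Q + b2 * tU F ((pos, 1) :: Q) + b0 * tV F ((pos, 0) :: Q)) := by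
  have h := hS [(cup, 0), (cup, 2), (neg, 1)] Q 1 ⟨4, by decide, by decide, hQ⟩
  have e0 := fact_V0 hF hQ
  have e1 := fact_Uc hF hQ
  have e2 := fact_Uc hF (ok_cons4 hQ (i := 1) (by decide))
  have e3 := fact_Uc hF (ok_cons4 (ok_cons4 hQ (i := 1) (by decide)) (i := 1) (by decide))
  have e4 := hF.negCapTwist (P := [(cup, 0), (cup, 2)]) (n := 2) (i := 1) (by decide)
    (by decide) (Q := (cup, 1) :: Q) ⟨by decide, hQ⟩
  have e5 : F ((cup, 0) :: (cup, 2) :: (cap, 1) :: (cup, 1) :: Q) =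
      F ((cup, 0) :: (cup, 1) :: Q) :=
    hF.mv [(cup, 0)] [(cup, 1)] (Move.zig 1) hQ (by decide) (by decide)
  simp only [List.cons_append, List.nil_append, tU, tV] at h e0 e1 e2 e3 e4 ⊢
  linear_combination h + b0 * e0 - b1 * e1 - b2 * e2 - e3 - bi * e4 - bi * a * e5

end Facts

/-- The space of relations. -/
def nullRel (F : Word → k) (x1 x2 x3 x4 : k) : Prop :=
  ∀ Q, Ok 4 Q 0 → x1 * tU F Q + x2 * tV F Q + x3 * tU F ((pos, 1) :: Q) +
    x4 * tV F ((pos, 0) :: Q) = 0

theorem null_of_inv (hF : Inv F a) {s b0 b1 b2 bi : k} (hs : a * s = 1) (h0 : b0 ≠ 0)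
    (hS : SiteRel F b0 b1 b2 1 bi) :
    Null (nullRel F) a s b0 b1 b2 bi (tU F [(cap, 0), (cap, 0)]) := by
  have hs0 : s ≠ 0 := right_ne_zero_of_mul_eq_one hs
  have q1 : Ok 4 [(cap, 0), (cap, 0)] 0 := by decide
  have v2 : tV F [(cap, 0), (cap, 0)] = 1 := by
    rw [← hF.unk]
    exact hF.mv [(cup, 0)] [(cap, 0)] (Q := []) (Move.zig 0) rfl (by decide) (by decide)
  have v3 : tU F [(pos, 1), (cap, 0), (cap, 0)] = a := by
    rw [fact_U1 hF q1, ← mul_one a, ← v2]
    exact hF.negCapTwist (P := [(cup, 0), (cup, 1)]) (n := 2) (by decide) (by decide)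
      (by decide)
  have v4 : tV F [(pos, 0), (cap, 0), (cap, 0)] = s := by
    rw [← mul_one s, ← v2]
    exact hF.posCapTwist hs (P := [(cup, 0), (cup, 1)]) (n := 2) (by decide) (by decide)
      (by decide)
  have v5 : tV F [(pos, 0), (pos, 0), (cap, 0), (cap, 0)] = s * s := by
    have := hF.posCapTwist hs (P := [(cup, 0), (cup, 1), (pos, 0)]) (n := 2) (i := 0)
      (Q := [(cap, 0)]) (by decide) (by decide) (by decide)
    rw [← v4] at this ⊢
    rw [v4] at this
    rw [v4]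
    exact this.trans (congrArg (s * ·) v4)
  refine ⟨hs, h0, ?_, ?_, ?_, ?_, ?_, ?_⟩
  · intro x1 x2 x3 x4 y1 y2 y3 y4 c d hx hy Q hQ
    linear_combination c * hx Q hQ + d * hy Q hQ
  · intro x1 x2 x3 x4 hx Q hQ
    have k0 := ok_cons4 hQ (i := 0) (by decide)
    have k1 := ok_cons4 hQ (i := 1) (by decide)
    have k10 := ok_cons4 k0 (i := 1) (by decide)
    have k01 := ok_cons4 k1 (i := 0) (by decide)
    have h := hx _ (ok_cons4 k10 (i := 0) (by decide))
    rw [fact_braid hF hQ, fact_V01 hF k01, fact_U10 hF k10, fact_V01 hF k0,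
      fact_U0 hF hs k10, fact_U10 hF hQ, fact_U0 hF hs hQ, fact_V1 hF hs k0,
      fact_U0 hF hs k1] at h
    apply mul_left_cancel₀ hs0
    linear_combination h
  · intro x1 x2 x3 x4 hx Q hQ
    have h := hx _ (ok_cons4 hQ (i := 0) (by decide))
    rw [fact_U0 hF hs hQ, fact_U10 hF hQ, fact_skeinV hF hQ hS] at h
    linear_combination h
  · intro Q hQ
    have k0 := ok_cons4 hQ (i := 0) (by decide)
    have k1 := ok_cons4 hQ (i := 1) (by decide)
    have k10 := ok_cons4 k0 (i := 1) (by decide)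
    have k01 := ok_cons4 k1 (i := 0) (by decide)
    have h := fact_braid hF hQ
    rw [fact_V01 hF k01, fact_U0 hF hs k1, fact_skeinV hF k10 hS, fact_U10 hF hQ,
      fact_V1 hF hs k0, fact_V01 hF k0, fact_skeinU hF k0 hS, fact_U10 hF hQ,
      fact_U0 hF hs hQ, fact_skeinV hF hQ hS] at h
    linear_combination -h
  · intro x1 x2 x3 x4 hx
    have h := hx _ q1
    rw [v2, v3, v4] at h
    linear_combination h
  · have h := fact_skeinV hF q1 hS
    rw [v2, v3, v4, v5] at h
    linear_combination h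

theorem nec_all [IsAlgClosed k] (hF : Inv F a) {b0 b1 b2 b3 bi : k} (ha : a ≠ 0)
    (h0 : b0 ≠ 0) (hb : b3 ≠ 0) (hS : SiteRel F b0 b1 b2 b3 bi) :
    Classical4 a b0 b1 b2 b3 bi ∨ (bi ≠ 0 ∧ Exceptional a b0 b1 b2 b3 bi) := by
  have hS' : SiteRel F (b0 / b3) (b1 / b3) (b2 / b3) 1 (bi / b3) := by
    intro P Q i h
    field_simp
    linear_combination hS P Q i h
  have hN := null_of_inv hF (mul_inv_cancel₀ ha) (div_ne_zero h0 hb) hS'
  have c1 : FamOne a (b0 / b3) (b1 / b3) (b2 / b3) 1 (bi / b3) → FamOne a b0 b1 b2 b3 bi := by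
    rintro ⟨h1, h2⟩
    refine ⟨h1, ?_⟩
    field_simp at h2
    linear_combination h2
  have c2 : FamBracket a (b0 / b3) (b1 / b3) (b2 / b3) 1 (bi / b3) →
      FamBracket a b0 b1 b2 b3 bi := by
    rintro ⟨x, h1, h2, h3⟩
    refine ⟨x, h1, ?_, ?_⟩
    · field_simp at h2
      linear_combination h2
    · field_simp at h3
      linear_combination h3
  have c3 : FamKauffman a (b0 / b3) (b1 / b3) (b2 / b3) 1 (bi / b3) →
      FamKauffman a b0 b1 b2 b3 bi := by
    rintro ⟨e, he, h1, h2, h3⟩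
    refine ⟨e, he, fun h => h1 (by rw [h]; ring), ?_, ?_⟩
    · field_simp at h2
      linear_combination h2
    · field_simp at h3
      linear_combination h3
  rcases hN.main with h | h | h | h
  · exact Or.inl (Or.inl (c1 h))
  · exact Or.inl (Or.inr (Or.inl (c2 h)))
  · exact Or.inl (Or.inr (Or.inr (Or.inl (c3 h))))
  · by_cases hi : bi = 0
    · subst hi
      rw [zero_div] at hN h c1 c2 c3
      rcases hN.zero_case h with h | h | h
      · exact Or.inl (Or.inl (c1 h))
      · exact Or.inl (Or.inr (Or.inl (c2 h)))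
      · exact Or.inl (Or.inr (Or.inr (Or.inl (c3 h))))
    · obtain ⟨h1, h2⟩ := h
      refine Or.inr ⟨hi, ?_, ?_⟩
      · field_simp at h1
        linear_combination h1
      · field_simp at h2
        linear_combination h2

end Pool.Agent.Lib.MP_43d316_gt
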