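import Pool.Agent.Lib.MP_43d316_gt.Interp
import Pool.Agent.Lib.MP_43d316_gt.Nec

-- part Pool.Agent.Lib.MP_43d316_gt.Exist
section

/-
Existence of the normalised Dubrovnik polynomial and Kauffman bracket at arbitrary values of
the variables, and of the one-dimensional invariants.
-/

namespace Pool.Agent.Lib.MP_43d316_gt

open Kind Polynomial

section Alg

variable {L A : Type*} [CommRing L] [Ring A] [Algebra L A] {r : Kind → ℕ → A}

theorem Dub.sq {a a' z d : L} (h : Dub r a a' z d) (i : ℕ) :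
    r pos i * r pos i = z • r pos i + 1 - (z * a') • (r cap i * r cup i) := by
  have h1 := congrArg (fun x => r pos i * x) (h.skein i)
  simp only [mul_sub, h.twoPos, mul_smul_comm, mul_one] at h1
  rw [← mul_assoc, h.posCap, smul_mul_assoc] at h1
  rw [sub_eq_iff_eq_add.1 h1]
  module

theorem Dub.cube {a a' z d : L} (h : Dub r a a' z d) (i : ℕ) :
    r pos i * r pos i * r pos i =
      (z ^ 2 + 1) • r pos i + z • 1 - (z * a' * (z + a')) • (r cap i * r cup i) := by
  rw [mul_assoc, h.sq, mul_sub, mul_add, mul_smul_comm, mul_smul_comm, mul_one, h.sq,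
    ← mul_assoc (r pos i), h.posCap, smul_mul_assoc]
  module

end Alg

theorem strictMono_z : StrictMono fun m : ℕ => ((m : ℚ) + 2) - ((m : ℚ) + 2)⁻¹ := by
  refine strictMono_nat_of_lt_succ fun m => ?_
  have h1 : (0 : ℚ) < (m : ℚ) + 2 := by positivity
  have h2 : (((m + 1 : ℕ) : ℚ) + 2)⁻¹ ≤ ((m : ℚ) + 2)⁻¹ := by
    apply inv_anti₀ h1
    push_cast
    linarith
  push_cast at h2 ⊢
  linarith

theorem poly_zero_of_injective (f : ℕ → ℚ) (hf : Function.Injective f) (p : ℚ[X])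
    (h : ∀ m, p.eval (f m) = 0) : p = 0 := by
  apply Polynomial.eq_zero_of_infinite_isRoot
  exact Set.infinite_of_injective_forall_mem hf h

theorem intPoly_zero (f : ℕ → ℚ) (hf : Function.Injective f) (p : ℤ[X])
    (h : ∀ m, eval₂RingHom (Int.castRingHom ℚ) (f m) p = 0) : p = 0 := by
  apply Polynomial.map_injective (Int.castRingHom ℚ) Int.cast_injective
  rw [Polynomial.map_zero]
  refine poly_zero_of_injective f hf _ fun m => ?_
  rw [Polynomial.eval_map]
  exact h m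

theorem away_inj {P J : Type*} [CommRing P] (s : P) (g : J → P →+* ℚ)
    (hs : ∀ j, IsUnit (g j s)) (hg : ∀ p, (∀ j, g j p = 0) → p = 0)
    (x : Localization.Away s) (hx : ∀ j, IsLocalization.Away.lift s (hs j) x = 0) : x = 0 := by
  obtain ⟨n, p, hp⟩ := IsLocalization.Away.surj s x
  have h0 : p = 0 := by
    refine hg p fun j => ?_
    have := congrArg (IsLocalization.Away.lift s (hs j)) hp
    rw [map_mul, hx, zero_mul, IsLocalization.Away.lift_eq] at this
    exact this.symm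
  rw [h0, map_zero] at hp
  exact ((IsLocalization.Away.algebraMap_isUnit s).pow n).mul_left_eq_zero.1 hp

theorem lift_invSelf {P k : Type*} [CommRing P] [Field k] (s : P) (g : P →+* k)
    (hs : IsUnit (g s)) :
    IsLocalization.Away.lift s hs (IsLocalization.Away.invSelf s : Localization.Away s) =
      (g s)⁻¹ := by
  have h1 := congrArg (IsLocalization.Away.lift s hs)
    (IsLocalization.Away.mul_invSelf (S := Localization.Away s) s)
  rw [map_mul, map_one, IsLocalization.Away.lift_eq] at h1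
  exact eq_inv_of_mul_eq_one_right h1

instance stNontrivial (I : Type*) [Inhabited I] : Nontrivial (Module.End ℚ (St ℚ I)) := by
  refine ⟨0, 1, fun h => ?_⟩
  have := congrFun (congrArg (fun L : Module.End ℚ (St ℚ I) => L (fun _ => 1)) h)
    (Stream'.const default)
  simp at this

/-- Evaluation of two-variable integer polynomials. -/
noncomputable def ev2 {k : Type*} [Field k] (a z : k) : ℤ[X][X] →+* k :=
  eval₂RingHom (eval₂RingHom (Int.castRingHom k) z) a

theorem ev2_X {k : Type*} [Field k] (a z : k) : ev2 a z X = a := by simp [ev2]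

theorem ev2_CX {k : Type*} [Field k] (a z : k) : ev2 a z (C X) = z := by simp [ev2]

theorem ev2_unit {k : Type*} [Field k] {a z : k} (ha : a ≠ 0) (hz : z ≠ 0) :
    IsUnit (ev2 a z (X * C X)) := by
  rw [map_mul, ev2_X, ev2_CX]
  exact (mul_ne_zero ha hz).isUnit

/-- The ring of the Dubrovnik polynomial. -/
abbrev LD : Type := Localization.Away (X * C X : ℤ[X][X])

/-- The framing variable. -/
noncomputable def ldA : LD := algebraMap _ LD (X : ℤ[X][X])

/-- The skein variable. -/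
noncomputable def ldZ : LD := algebraMap _ LD (C X : ℤ[X][X])

/-- The inverse of the product of the variables. -/
noncomputable def ldS : LD := IsLocalization.Away.invSelf (X * C X : ℤ[X][X])

/-- Evaluation of the Dubrovnik ring. -/
noncomputable def ldEv {k : Type*} [Field k] {a z : k} (ha : a ≠ 0) (hz : z ≠ 0) : LD →+* k :=
  IsLocalization.Away.lift (X * C X : ℤ[X][X]) (ev2_unit ha hz)

theorem ldEv_A {k : Type*} [Field k] {a z : k} (ha : a ≠ 0) (hz : z ≠ 0) :
    ldEv ha hz ldA = a := by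
  rw [ldEv, ldA, IsLocalization.Away.lift_eq, ev2_X]

theorem ldEv_Z {k : Type*} [Field k] {a z : k} (ha : a ≠ 0) (hz : z ≠ 0) :
    ldEv ha hz ldZ = z := by
  rw [ldEv, ldZ, IsLocalization.Away.lift_eq, ev2_CX]

theorem ldEv_S {k : Type*} [Field k] {a z : k} (ha : a ≠ 0) (hz : z ≠ 0) :
    ldEv ha hz ldS = (a * z)⁻¹ := by
  rw [ldEv, ldS, lift_invSelf, map_mul, ev2_X, ev2_CX]

theorem ldEv_ZS {k : Type*} [Field k] {a z : k} (ha : a ≠ 0) (hz : z ≠ 0) :
    ldEv ha hz (ldZ * ldS) = a⁻¹ := by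
  rw [map_mul, ldEv_Z, ldEv_S]
  field_simp

theorem ldEv_AS {k : Type*} [Field k] {a z : k} (ha : a ≠ 0) (hz : z ≠ 0) :
    ldEv ha hz (ldA * ldS) = z⁻¹ := by
  rw [map_mul, ldEv_A, ldEv_S]
  field_simp

theorem q_gt (m : ℕ) : (1 : ℚ) < (m : ℚ) + 2 := by
  have : (0 : ℚ) ≤ m := Nat.cast_nonneg m
  linarith

theorem q_ne (m : ℕ) : (m : ℚ) + 2 ≠ 0 := by positivity

theorem sub_inv_pos {x : ℚ} (hx : 1 < x) : 0 < x - x⁻¹ := by
  have := inv_lt_one_of_one_lt₀ hx
  linarith

theorem ev2_dense (p : ℤ[X][X])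
    (h : ∀ j : ℕ × ℕ, ev2 (((j.2 : ℚ) + 2) ^ (2 * j.1 + 1))
      (((j.2 : ℚ) + 2) - ((j.2 : ℚ) + 2)⁻¹) p = 0) : p = 0 := by
  ext1 i
  rw [coeff_zero]
  refine intPoly_zero _ strictMono_z.injective _ fun m => ?_
  have h1 : p.map (eval₂RingHom (Int.castRingHom ℚ) (((m : ℚ) + 2) - ((m : ℚ) + 2)⁻¹)) = 0 := by
    refine poly_zero_of_injective (fun n => ((m : ℚ) + 2) ^ (2 * n + 1)) ?_ _ fun n => ?_
    · intro n n' hn
      have := pow_right_injective₀ (by positivity) (q_gt m).ne' hn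
      omega
    · rw [Polynomial.eval_map]
      exact h (n, m)
  have h2 := congrArg (fun t => t.coeff i) h1
  simpa only [coeff_map, coeff_zero] using h2

theorem exists_dubrovnik {k : Type*} [Field k] {a z : k} (ha : a ≠ 0) (hz : z ≠ 0) :
    ∃ F : Word → k, Inv F a ∧ SiteRel F (-1) (-z) 1 0 (z * a⁻¹) ∧
      SiteRel F (-z) (-(z ^ 2 + 1)) 0 1 (z * a⁻¹ * (z + a⁻¹)) := by
  have hA : ∀ j : ℕ × ℕ, ((j.2 : ℚ) + 2) ^ (2 * j.1 + 1) ≠ 0 := fun j => pow_ne_zero _ (q_ne _)
  have hZ : ∀ j : ℕ × ℕ, ((j.2 : ℚ) + 2) - ((j.2 : ℚ) + 2)⁻¹ ≠ 0 :=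
    fun j => (sub_inv_pos (q_gt _)).ne'
  have hD : ∀ j : ℕ × ℕ, Dub (orthoRep j.1 ((j.2 : ℚ) + 2) (q_ne _)) (ldEv (hA j) (hZ j) ldA)
      (ldEv (hA j) (hZ j) (ldZ * ldS)) (ldEv (hA j) (hZ j) ldZ)
      (ldEv (hA j) (hZ j) (1 + (ldA - ldZ * ldS) * (ldA * ldS))) := by
    intro j
    rw [map_add, map_one, map_mul _ (ldA - ldZ * ldS), map_sub, ldEv_ZS, ldEv_AS, ldEv_A,
      ldEv_Z]
    exact ortho_dub _ _ _ (hZ j)
  obtain ⟨G, hG, hrel⟩ := interp (fun j : ℕ × ℕ => Module.End ℚ (St ℚ (Fin (2 * j.1 + 2))))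
    (fun j => ldEv (hA j) (hZ j)) (fun j => orthoRep j.1 ((j.2 : ℚ) + 2) (q_ne _))
    ldA (ldZ * ldS) ldZ (1 + (ldA - ldZ * ldS) * (ldA * ldS)) hD
    (away_inj _ _ (fun j => ev2_unit (hA j) (hZ j)) ev2_dense) (fun j => by
      rw [map_add, map_one, map_mul _ (ldA - ldZ * ldS), map_sub, ldEv_ZS, ldEv_AS, ldEv_A]
      have h1 := sub_inv_pos (one_lt_pow₀ (q_gt j.2) (show 2 * j.1 + 1 ≠ 0 by omega))
      have h2 := sub_inv_pos (q_gt j.2)
      positivity)
  refine ⟨fun w => ldEv ha hz (G w), ?_, ?_, ?_⟩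
  · simpa only [ldEv_A] using hG.map (ldEv ha hz)
  · have h1 := hrel (-1) (-ldZ) 1 0 (ldZ * (ldZ * ldS)) fun j i => by
      rw [(hD j).sq, map_mul _ ldZ (ldZ * ldS)]
      simp only [map_neg, map_one, map_zero]
      module
    have h2 := h1.map (ldEv ha hz)
    rw [map_mul _ ldZ (ldZ * ldS), ldEv_ZS] at h2
    simpa only [map_neg, map_one, map_zero, ldEv_Z] using h2
  · have h1 := hrel (-ldZ) (-(ldZ ^ 2 + 1)) 0 1 (ldZ * (ldZ * ldS) * (ldZ + ldZ * ldS))
      fun j i => by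
        rw [(hD j).cube, map_mul _ (ldZ * (ldZ * ldS)), map_mul _ ldZ (ldZ * ldS), map_add _ ldZ]
        simp only [map_neg, map_one, map_zero, map_add, map_pow]
        module
    have h2 := h1.map (ldEv ha hz)
    rw [map_mul _ (ldZ * (ldZ * ldS)), map_mul _ ldZ (ldZ * ldS), map_add _ ldZ, ldEv_ZS] at h2
    simpa only [map_neg, map_one, map_zero, map_add, map_pow, ldEv_Z] using h2

/-- The ring of the Kauffman bracket. -/
abbrev LB : Type := Localization.Away (X : ℤ[X])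

theorem ev1_unit {k : Type*} [Field k] {x : k} (hx : x ≠ 0) :
    IsUnit (eval₂RingHom (Int.castRingHom k) x X) := by
  simpa using hx

/-- Evaluation of the bracket ring. -/
noncomputable def lbEv {k : Type*} [Field k] {x : k} (hx : x ≠ 0) : LB →+* k :=
  IsLocalization.Away.lift (X : ℤ[X]) (ev1_unit hx)

/-- The bracket variable. -/
noncomputable def lbX : LB := algebraMap _ LB (X : ℤ[X])

/-- The inverse of the bracket variable. -/
noncomputable def lbY : LB := IsLocalization.Away.invSelf (X : ℤ[X])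

theorem lbEv_X {k : Type*} [Field k] {x : k} (hx : x ≠ 0) : lbEv hx lbX = x := by
  rw [lbEv, lbX, IsLocalization.Away.lift_eq]
  simp

theorem lbEv_Y {k : Type*} [Field k] {x : k} (hx : x ≠ 0) : lbEv hx lbY = x⁻¹ := by
  rw [lbEv, lbY, lift_invSelf]
  simp

theorem exists_bracket {k : Type*} [Field k] {x : k} (hx : x ≠ 0) :
    ∃ F : Word → k, Inv F (-x ^ 3) ∧ SiteRel F (-x) 1 0 0 (-x⁻¹) ∧
      SiteRel F (-x ^ 2) 0 1 0 (-(1 - x⁻¹ ^ 4)) ∧
      SiteRel F (-x ^ 3) 0 0 1 (-(x - x⁻¹ ^ 3 + x⁻¹ ^ 7)) := by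
  have hD : ∀ m : ℕ, Dub (brRep ((m : ℚ) + 2) (q_ne m)) (lbEv (q_ne m) (-lbX ^ 3))
      (lbEv (q_ne m) (-lbY ^ 3)) (lbEv (q_ne m) (lbX - lbY))
      (lbEv (q_ne m) (-lbX ^ 2 - lbY ^ 2)) := by
    intro m
    simp only [map_neg, map_sub, map_pow, lbEv_X, lbEv_Y]
    exact br_dub _ _
  obtain ⟨G, hG, hrel⟩ := interp (fun _ : ℕ => Module.End ℚ (St ℚ (Fin 2)))
    (fun m => lbEv (q_ne m)) (fun m => brRep ((m : ℚ) + 2) (q_ne m))
    (-lbX ^ 3) (-lbY ^ 3) (lbX - lbY) (-lbX ^ 2 - lbY ^ 2) hD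
    (away_inj _ _ (fun m => ev1_unit (q_ne m))
      (intPoly_zero (fun m => (m : ℚ) + 2) fun m n h => by simpa using h)) (fun m => by
      simp only [map_neg, map_sub, map_pow, lbEv_X, lbEv_Y]
      have h1 : (0 : ℚ) < ((m : ℚ) + 2) ^ 2 + ((m : ℚ) + 2)⁻¹ ^ 2 := by positivity
      linarith)
  have hsq : ∀ (q : ℚ) (hq : q ≠ 0) (i : ℕ), brRep q hq pos i * brRep q hq pos i =
      q ^ 2 • 1 + (1 - q⁻¹ ^ 4) • (brRep q hq cap i * brRep q hq cup i) := by
    intro q hq i
    rw [(br_dub q hq).sq, br_pos]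
    match_scalars <;> field_simp <;> ring
  have hcu : ∀ (q : ℚ) (hq : q ≠ 0) (i : ℕ),
      brRep q hq pos i * brRep q hq pos i * brRep q hq pos i =
      q ^ 3 • 1 + (q - q⁻¹ ^ 3 + q⁻¹ ^ 7) • (brRep q hq cap i * brRep q hq cup i) := by
    intro q hq i
    rw [(br_dub q hq).cube, br_pos]
    match_scalars <;> field_simp <;> ring
  refine ⟨fun w => lbEv hx (G w), ?_, ?_, ?_, ?_⟩
  · simpa only [map_neg, map_pow, lbEv_X] using hG.map (lbEv hx)
  · have h1 := hrel (-lbX) 1 0 0 (-lbY) fun m i => by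
      simp only [map_neg, map_one, map_zero, lbEv_X, lbEv_Y, zero_smul, add_zero]
      rw [br_pos]
      module
    simpa only [map_neg, map_one, map_zero, lbEv_X, lbEv_Y] using h1.map (lbEv hx)
  · have h1 := hrel (-lbX ^ 2) 0 1 0 (-(1 - lbY ^ 4)) fun m i => by
      simp only [map_neg, map_one, map_zero, map_sub, map_pow, lbEv_X, lbEv_Y, zero_smul,
        add_zero]
      rw [hsq]
      module
    simpa only [map_neg, map_one, map_zero, map_sub, map_pow, lbEv_X, lbEv_Y] using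
      h1.map (lbEv hx)
  · have h1 := hrel (-lbX ^ 3) 0 0 1 (-(lbX - lbY ^ 3 + lbY ^ 7)) fun m i => by
      simp only [map_neg, map_one, map_zero, map_sub, map_add, map_pow, lbEv_X, lbEv_Y,
        zero_smul, add_zero]
      rw [hcu]
      module
    simpa only [map_neg, map_one, map_zero, map_sub, map_add, map_pow, lbEv_X, lbEv_Y] using
      h1.map (lbEv hx)

/-- The weight of a slice in the one-dimensional invariant. -/
def oneRep {k : Type*} [CommRing k] (t : k) : Kind → ℕ → k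
  | .cup, i => (t ^ 2) ^ (i + 1)
  | .cap, i => (t ^ 2) ^ i
  | .pos, _ => t
  | .neg, _ => t ^ 3

theorem one_framed {k : Type*} [CommRing k] {t : k} (ht : t ^ 4 = 1) :
    Framed (oneRep t) (t ^ 3) t := by
  have h2 : ∀ i : ℕ, (t ^ 2) ^ i * (t ^ 2) ^ i = 1 := by
    intro i
    rw [← mul_pow, ← pow_add, ht, one_pow]
  have h3 : ∀ (y : Kind) (i : ℕ), oneRep t y (i + 2) = oneRep t y i := by
    intro y i
    cases y <;> simp only [oneRep]
    · linear_combination (t ^ 2) ^ (i + 1) * ht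
    · linear_combination (t ^ 2) ^ i * ht
  refine ⟨⟨?_, ?_, ?_, ?_, ?_, ?_, ?_, ?_, ?_, ?_⟩, ?_, ?_⟩
  · intro x y i k
    rw [mul_comm]
    congr 1
    cases x <;> simp only [Kind.out, Kind.inp, add_zero]
    · rw [add_right_comm, h3]
    · rw [add_right_comm, h3]
  all_goals
    try intro i
    try simp only [oneRep, smul_eq_mul]
  · linear_combination h2 i + (t ^ 2) ^ i * (t ^ 2) ^ i * ht
  · linear_combination h2 (i + 1)
  · ring
  · linear_combination (t ^ 2) ^ (i + 1) * t * ht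
  · ring
  · linear_combination (t ^ 2) ^ i * t * ht
  · linear_combination ht
  · linear_combination ht
  · linear_combination ht

theorem exists_one {k : Type*} [CommRing k] {t : k} (ht : t ^ 4 = 1) :
    ∃ F : Word → k, Inv F (t ^ 3) ∧ SiteRel F (-t) 1 0 0 0 ∧ SiteRel F (-t ^ 2) 0 1 0 0 ∧
      SiteRel F (-t ^ 3) 0 0 1 0 ∧ SiteRel F (-t ^ 2) 0 0 0 1 := by
  have h := one_framed ht
  have h2 : ∀ i : ℕ, (t ^ 2) ^ i * (t ^ 2) ^ i = 1 := by
    intro i
    rw [← mul_pow, ← pow_add, ht, one_pow]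
  refine ⟨fun w => t ^ 2 * ev (oneRep t) w, ⟨?_, ?_, ?_⟩, ?_, ?_, ?_, ?_⟩
  · intro P Q u v m _ _
    simp only [ev_append, h.move m]
  · intro P Q i _ _
    have := h.curlR i
    simp only [ev_append, curl, ev_cons, ev_nil, mul_one, ← mul_assoc, smul_eq_mul] at this ⊢
    linear_combination t ^ 2 * ev (oneRep t) P * ev (oneRep t) Q * this
  · simp only [ev_cons, ev_nil, oneRep]
    linear_combination ht
  all_goals
    intro P Q i _
    simp only [ev_append, ev_cons, ev_nil, oneRep]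
  · ring
  · ring
  · ring
  · linear_combination t ^ 4 * ev (oneRep t) P * ev (oneRep t) Q * h2 i

end Pool.Agent.Lib.MP_43d316_gt
end

-- part Pool.Agent.Lib.MP_43d316_gt.Suff
section

/-
On each of the four families there is an invariant satisfying the skein relation.
-/

namespace Pool.Agent.Lib.MP_43d316_gt

open Kind Polynomial

variable {k : Type*} [Field k] {a b0 b1 b2 b3 bi : k}

theorem suff_one (h : FamOne a b0 b1 b2 b3 bi) :
    ∃ F : Word → k, Inv F a ∧ SiteRel F b0 b1 b2 b3 bi := by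
  obtain ⟨h1, h2⟩ := h
  have ht : (a ^ 3) ^ 4 = 1 := by rw [← pow_mul, mul_comm, pow_mul, h1, one_pow]
  obtain ⟨F, hF, r1, r2, r3, ri⟩ := exists_one ht
  have e3 : (a ^ 3) ^ 3 = a := by linear_combination (a ^ 5 + a) * h1
  have e2 : (a ^ 3) ^ 2 = a ^ 2 := by linear_combination (a ^ 2) * h1
  rw [e3] at hF r3
  rw [e2] at r2 ri
  refine ⟨F, hF, fun P Q i hS => ?_⟩
  linear_combination b1 * r1 P Q i hS + b2 * r2 P Q i hS + b3 * r3 P Q i hS +
    bi * ri P Q i hS + F (P ++ Q) * h2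

theorem suff_bracket (ha : a ≠ 0) (h : FamBracket a b0 b1 b2 b3 bi) :
    ∃ F : Word → k, Inv F a ∧ SiteRel F b0 b1 b2 b3 bi := by
  obtain ⟨x, h1, h2, h3⟩ := h
  have hx : x ≠ 0 := by
    rintro rfl
    exact ha (by simpa using h1)
  obtain ⟨F, hF, r1, r2, r3⟩ := exists_bracket hx
  have h4 : bi + b1 * x⁻¹ + b2 * (1 - x⁻¹ ^ 4) + b3 * (x - x⁻¹ ^ 3 + x⁻¹ ^ 7) = 0 := by
    field_simp
    linear_combination h3 + x ^ 5 * h2
  refine ⟨F, h1 ▸ hF, fun P Q i hS => ?_⟩
  linear_combination b1 * r1 P Q i hS + b2 * r2 P Q i hS + b3 * r3 P Q i hS +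
    F (P ++ Q) * h2 + F (P ++ [(cap, i), (cup, i)] ++ Q) * h4

theorem suff_kauffman [IsAlgClosed k] (ha : a ≠ 0) (hb : b3 ≠ 0)
    (h : FamKauffman a b0 b1 b2 b3 bi) :
    ∃ F : Word → k, Inv F a ∧ SiteRel F b0 b1 b2 b3 bi := by
  obtain ⟨e, he, h1, h2, h3⟩ := h
  obtain ⟨z, hz⟩ : ∃ z, z * b3 = e * b0 - b2 := ⟨(e * b0 - b2) / b3, by field_simp⟩
  have hz0 : z ≠ 0 := by
    rintro rfl
    exact h1 (by linear_combination hz)
  rcases he with rfl | rfl
  · obtain ⟨t, ht⟩ := IsAlgClosed.exists_pow_nat_eq (-1 : k) two_pos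
    have ht4 : t ^ 4 = 1 := by linear_combination (t ^ 2 - 1) * ht
    have ht0 : t ≠ 0 := by
      rintro rfl
      simp at ht4
    obtain ⟨G, hG, s1, s2, s3, si⟩ := exists_one ht4
    obtain ⟨F, hF, r2, r3⟩ := exists_dubrovnik (mul_ne_zero ha ht0)
      (neg_ne_zero.2 (mul_ne_zero ht0 hz0))
    have hi : (a * t)⁻¹ = -t * a⁻¹ := by
      field_simp
      linear_combination ht
    rw [hi] at r2 r3
    have c0 : b0 - b2 - z * b3 = 0 := by linear_combination -hz
    have c1 : b1 + z * b2 + (z ^ 2 - 1) * b3 = 0 := by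
      apply mul_right_cancel₀ hb
      linear_combination h2 + (z * b3 + b0) * hz
    have ci : bi + z * a⁻¹ * b2 + z * a⁻¹ * (z + a⁻¹) * b3 = 0 := by
      field_simp
      apply mul_right_cancel₀ hb
      linear_combination h3 + (a * (z * b3 + b0) + b3) * hz
    have hfr : a * t * t ^ 3 = a := by linear_combination a * ht4
    refine ⟨fun w => F w * G w, hfr ▸ hF.mul hG, fun P Q i hS => ?_⟩
    have t1 := s1 P Q i hS
    have t2 := s2 P Q i hS
    have t3 := s3 P Q i hS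
    have ti := si P Q i hS
    have u2 := r2 P Q i hS
    have u3 := r3 P Q i hS
    beta_reduce
    generalize G (P ++ Q) = g at *
    generalize G (P ++ [(pos, i)] ++ Q) = y1 at *
    generalize G (P ++ [(pos, i), (pos, i)] ++ Q) = y2 at *
    generalize G (P ++ [(pos, i), (pos, i), (pos, i)] ++ Q) = y3 at *
    generalize G (P ++ [(cap, i), (cup, i)] ++ Q) = yi at *
    obtain rfl : y1 = t * g := by linear_combination t1
    obtain rfl : y2 = t ^ 2 * g := by linear_combination t2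
    obtain rfl : y3 = t ^ 3 * g := by linear_combination t3
    obtain rfl : yi = t ^ 2 * g := by linear_combination ti
    generalize F (P ++ Q) = x0 at *
    generalize F (P ++ [(pos, i)] ++ Q) = x1 at *
    generalize F (P ++ [(pos, i), (pos, i)] ++ Q) = x2 at *
    generalize F (P ++ [(pos, i), (pos, i), (pos, i)] ++ Q) = x3 at *
    generalize F (P ++ [(cap, i), (cup, i)] ++ Q) = xi at *
    generalize a⁻¹ = y at *
    have e2 : x2 = x0 - t * z * x1 + z * y * xi := by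
      linear_combination u2 - z * y * xi * ht
    have e3 : x3 = -t * z * x0 + (1 - z ^ 2) * x1 - t * z * y * (z + y) * xi := by
      linear_combination u3 + (z ^ 2 * x1 + t * z * y * (z + y) * xi) * ht
    rw [e2, e3]
    linear_combination g * x0 * c0 + g * t * x1 * c1 - g * xi * ci +
      g * (b2 * (x0 - t * z * x1 + z * y * xi) + bi * xi +
        b3 * (t * (1 - z ^ 2) * x1 - (t ^ 2 - 1) * (z * x0 + z * y * (z + y) * xi))) * ht
  · obtain ⟨F, hF, r2, r3⟩ := exists_dubrovnik ha hz0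
    have c0 : b0 + b2 + z * b3 = 0 := by linear_combination hz
    have c1 : b1 + z * b2 + (z ^ 2 + 1) * b3 = 0 := by
      apply mul_right_cancel₀ hb
      linear_combination h2 + (z * b3 - b0) * hz
    have ci : bi - z * a⁻¹ * b2 - z * a⁻¹ * (z + a⁻¹) * b3 = 0 := by
      field_simp
      apply mul_right_cancel₀ hb
      linear_combination h3 - (a * (z * b3 - b0) + b3) * hz
    refine ⟨F, hF, fun P Q i hS => ?_⟩
    linear_combination b2 * r2 P Q i hS + b3 * r3 P Q i hS + F (P ++ Q) * c0 +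
      F (P ++ [(pos, i)] ++ Q) * c1 + F (P ++ [(cap, i), (cup, i)] ++ Q) * ci

theorem exists_quartic_root [IsAlgClosed k] (p q : k) : ∃ A : k, A ^ 8 + p * A ^ 4 + q = 0 := by
  obtain ⟨A, hA⟩ := IsAlgClosed.exists_root (X ^ 8 + C p * X ^ 4 + C q : k[X]) (by
    have : (X ^ 8 + C p * X ^ 4 + C q : k[X]).degree = 8 := by compute_degree!
    rw [this]
    decide)
  exact ⟨A, by simpa using hA⟩

theorem suff_product [IsAlgClosed k] (h0 : b0 ≠ 0) (hb : b3 ≠ 0)
    (h : FamProduct a b0 b1 b2 b3 bi) :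
    ∃ F : Word → k, Inv F a ∧ SiteRel F b0 b1 b2 b3 bi := by
  obtain ⟨⟨h1, h2⟩, h3⟩ := h
  obtain ⟨m, hm⟩ : ∃ m, m * b0 = -b3 := ⟨-b3 / b0, by field_simp⟩
  have hm0 : m ≠ 0 := by
    rintro rfl
    exact hb (by linear_combination hm)
  obtain ⟨A, hA⟩ := exists_quartic_root ((-b2 / b3 - m) * m ^ 3) (m ^ 4)
  have hA0 : A ≠ 0 := by
    rintro rfl
    exact hm0 (by simpa using hA)
  obtain ⟨B, rfl⟩ : ∃ B, m = A * B := ⟨m / A, by field_simp⟩
  have hB0 : B ≠ 0 := right_ne_zero_of_mul hm0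
  have e0 : b0 = -b3 / (A * B) := by
    field_simp
    linear_combination hm
  have ea : a = (A * B) ^ 3 := by
    rw [e0] at h1
    field_simp at h1
    apply mul_left_cancel₀ (pow_ne_zero 3 hb)
    linear_combination -h1
  have e2 : b2 = b3 * (A * B⁻¹ ^ 3 + A⁻¹ ^ 3 * B - A * B) := by
    field_simp at hA ⊢
    apply mul_left_cancel₀ (pow_ne_zero 4 hA0)
    linear_combination -hA
  have e1 : b1 = b3 * (A⁻¹ ^ 2 * B⁻¹ ^ 2 - A ^ 2 * B⁻¹ ^ 2 - A⁻¹ ^ 2 * B ^ 2) := by
    rw [e0, e2] at h3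
    field_simp at h3 ⊢
    apply mul_left_cancel₀ (pow_ne_zero 3 hb)
    linear_combination -h3
  have ei : bi = -b3 * (A⁻¹ * B⁻¹) ^ 4 * ((A⁻¹ * B⁻¹) ^ 3 - A * B) := by
    rw [e0, e2, e1, ea] at h2
    field_simp at h2 ⊢
    linear_combination h2
  obtain ⟨F, hF, r1, r2, r3⟩ := exists_bracket hA0
  obtain ⟨G, hG, s1, s2, s3⟩ := exists_bracket hB0
  have hfr : -A ^ 3 * -B ^ 3 = a := by rw [ea]; ring
  refine ⟨fun w => F w * G w, hfr ▸ hF.mul hG, fun P Q i hS => ?_⟩
  have t1 := s1 P Q i hS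
  have t2 := s2 P Q i hS
  have t3 := s3 P Q i hS
  have u1 := r1 P Q i hS
  have u2 := r2 P Q i hS
  have u3 := r3 P Q i hS
  beta_reduce
  generalize G (P ++ Q) = y0 at *
  generalize G (P ++ [(pos, i)] ++ Q) = y1 at *
  generalize G (P ++ [(pos, i), (pos, i)] ++ Q) = y2 at *
  generalize G (P ++ [(pos, i), (pos, i), (pos, i)] ++ Q) = y3 at *
  generalize G (P ++ [(cap, i), (cup, i)] ++ Q) = yi at *
  generalize F (P ++ Q) = x0 at *
  generalize F (P ++ [(pos, i)] ++ Q) = x1 at *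
  generalize F (P ++ [(pos, i), (pos, i)] ++ Q) = x2 at *
  generalize F (P ++ [(pos, i), (pos, i), (pos, i)] ++ Q) = x3 at *
  generalize F (P ++ [(cap, i), (cup, i)] ++ Q) = xi at *
  obtain rfl : x1 = A * x0 + A⁻¹ * xi := by linear_combination u1
  obtain rfl : x2 = A ^ 2 * x0 + (1 - A⁻¹ ^ 4) * xi := by linear_combination u2
  obtain rfl : x3 = A ^ 3 * x0 + (A - A⁻¹ ^ 3 + A⁻¹ ^ 7) * xi := by linear_combination u3
  obtain rfl : y1 = B * y0 + B⁻¹ * yi := by linear_combination t1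
  obtain rfl : y2 = B ^ 2 * y0 + (1 - B⁻¹ ^ 4) * yi := by linear_combination t2
  obtain rfl : y3 = B ^ 3 * y0 + (B - B⁻¹ ^ 3 + B⁻¹ ^ 7) * yi := by linear_combination t3
  rw [e0, e1, e2, ei]
  field_simp
  ring

theorem suff_all [IsAlgClosed k] (ha : a ≠ 0) (h0 : b0 ≠ 0) (hb : b3 ≠ 0)
    (h : Classical4 a b0 b1 b2 b3 bi) :
    ∃ F : Word → k, Inv F a ∧ SiteRel F b0 b1 b2 b3 bi := by
  rcases h with h | h | h | h
  · exact suff_one h
  · exact suff_bracket ha h
  · exact suff_kauffman ha hb h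
  · exact suff_product h0 hb h

end Pool.Agent.Lib.MP_43d316_gt
end

-- part Pool.Agent.Lib.MP_43d316_gt.Main
section

/-
The trivial knot is not torsion exactly when there is an invariant with values in a field
containing the ground ring.
-/

namespace Pool.Agent.Lib.MP_43d316_gt

open Kind

variable {R k : Type*} [CommRing R] [Field k] [Algebra R k] {a b0 b1 b2 b3 bi : R}

theorem not_torsion_of_inv [Nontrivial R] (hinj : Function.Injective (algebraMap R k))
    {F : Word → k} (hF : Inv F (algebraMap R k a))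
    (hS : SiteRel F (algebraMap R k b0) (algebraMap R k b1) (algebraMap R k b2)
      (algebraMap R k b3) (algebraMap R k bi)) :
    trivialKnot a b0 b1 b2 b3 bi ∉ Submodule.torsion R (Skein a b0 b1 b2 b3 bi) := by
  let f : Link → k := Quot.lift (fun D : Diagram => F D.1) (by
    rintro D E ⟨P, Q, u, v, m, h1, h2⟩
    rw [h1, h2]
    exact hF.move P Q u v m (h1 ▸ D.2) (h2 ▸ E.2))
  let L : (Link →₀ R) →ₗ[R] k := Finsupp.linearCombination R f
  have hL : ∀ D, L (gen R D) = F D.1 := by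
    intro D
    simp only [L, gen, Finsupp.linearCombination_single, one_smul]
    rfl
  have hle : Submodule.span R (relations a b0 b1 b2 b3 bi) ≤ LinearMap.ker L := by
    rw [Submodule.span_le]
    rintro x (⟨P, Q, i, L0, L1, L2, L3, Li, h0, h1, h2, h3, hi, rfl⟩ |
      ⟨P, Q, i, L0, L1, h0, h1, rfl⟩)
    · have := hS P Q i (site_of_ok (h1 ▸ L1.2))
      simp only [SetLike.mem_coe, LinearMap.mem_ker, map_add, map_smul, hL, h0, h1, h2, h3, hi,
        Algebra.smul_def]
      exact this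
    · have := hF.frame P Q i (h0 ▸ L0.2) (by rw [curl, ← h1]; exact L1.2)
      simp only [SetLike.mem_coe, LinearMap.mem_ker, map_sub, map_smul, hL, h0, h1,
        Algebra.smul_def]
      rw [← this, curl, sub_self]
  intro ht
  obtain ⟨r, hr⟩ := (Submodule.mem_torsion_iff _).1 ht
  have h1 := congrArg (Submodule.liftQ _ L hle) hr
  rw [Submonoid.smul_def, map_smul, map_zero, trivialKnot, Submodule.liftQ_apply, hL] at h1
  have h2 : F unknot.1 = 1 := hF.unk
  rw [h2, Algebra.smul_def, mul_one] at h1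
  exact nonZeroDivisors.coe_ne_zero r (hinj (h1.trans (map_zero _).symm))

theorem baer_field (hinj : Function.Injective (algebraMap R k)) : Module.Baer R k := by
  intro I g
  by_cases hI : ∃ x : I, x ≠ 0
  · obtain ⟨x, hx⟩ := hI
    have hx' : algebraMap R k x ≠ 0 := fun h =>
      hx (Subtype.ext (hinj (h.trans (map_zero _).symm)))
    refine ⟨LinearMap.toSpanSingleton R k (g x / algebraMap R k x), fun y hy => ?_⟩
    have h1 : (y : R) • x = (x : R) • (⟨y, hy⟩ : I) := Subtype.ext (mul_comm _ _)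
    have h2 := congrArg g h1
    rw [map_smul, map_smul, Algebra.smul_def, Algebra.smul_def] at h2
    rw [LinearMap.toSpanSingleton_apply, Algebra.smul_def]
    field_simp
    linear_combination h2
  · push Not at hI
    refine ⟨0, fun y hy => ?_⟩
    rw [hI ⟨y, hy⟩, map_zero]
    rfl

theorem inv_of_not_torsion [IsDomain R] (hinj : Function.Injective (algebraMap R k))
    (ht : trivialKnot a b0 b1 b2 b3 bi ∉ Submodule.torsion R (Skein a b0 b1 b2 b3 bi)) :
    ∃ F : Word → k, Inv F (algebraMap R k a) ∧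
      SiteRel F (algebraMap R k b0) (algebraMap R k b1) (algebraMap R k b2)
        (algebraMap R k b3) (algebraMap R k bi) := by
  have hi : Function.Injective (LinearMap.toSpanSingleton R _ (trivialKnot a b0 b1 b2 b3 bi)) := by
    rw [injective_iff_map_eq_zero]
    intro r hr
    by_contra h0
    exact ht ((Submodule.mem_torsion_iff _).2 ⟨⟨r, mem_nonZeroDivisors_of_ne_zero h0⟩, hr⟩)
  obtain ⟨g, hg⟩ := (baer_field hinj).extension_property _ hi (Algebra.linearMap R k)
  have hg1 : g (trivialKnot a b0 b1 b2 b3 bi) = 1 := by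
    simpa using LinearMap.congr_fun hg 1
  let F : Word → k := fun w =>
    if h : Ok 0 w 0 then g (Submodule.Quotient.mk (gen R ⟨w, h⟩)) else 0
  have hFv : ∀ w (h : Ok 0 w 0), F w = g (Submodule.Quotient.mk (gen R ⟨w, h⟩)) :=
    fun w h => dif_pos h
  have hrel : ∀ x ∈ relations a b0 b1 b2 b3 bi, g (Submodule.Quotient.mk x) = 0 := by
    intro x hx
    rw [(Submodule.Quotient.mk_eq_zero _).2 (Submodule.subset_span hx), map_zero]
  refine ⟨F, ⟨?_, ?_, ?_⟩, ?_⟩
  · intro P Q u v m h1 h2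
    have : Diagram.link ⟨_, h1⟩ = Diagram.link ⟨_, h2⟩ := Quot.sound ⟨P, Q, u, v, m, rfl, rfl⟩
    rw [hFv _ h1, hFv _ h2]
    unfold gen
    rw [this]
  · intro P Q i h1 h2
    have := hrel _ (Or.inr ⟨P, Q, i, ⟨_, h1⟩, ⟨_, h2⟩, rfl, rfl, rfl⟩)
    rw [Submodule.Quotient.mk_sub, Submodule.Quotient.mk_smul, map_sub, map_smul,
      Algebra.smul_def, sub_eq_zero] at this
    rw [hFv _ h1, hFv _ h2]
    exact this
  · exact (hFv _ unknot.2).trans hg1
  · intro P Q i hS
    have h0 : Ok 0 (P ++ Q) 0 := by simpa using hS.ok0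
    have := hrel _ (Or.inl ⟨P, Q, i, ⟨_, h0⟩, ⟨_, hS.ok1⟩, ⟨_, hS.ok2⟩, ⟨_, hS.ok3⟩,
      ⟨_, hS.oki⟩, rfl, rfl, rfl, rfl, rfl, rfl⟩)
    simp only [Submodule.Quotient.mk_add, Submodule.Quotient.mk_smul, map_add, map_smul,
      Algebra.smul_def] at this
    rw [hFv _ h0, hFv _ hS.ok1, hFv _ hS.ok2, hFv _ hS.ok3, hFv _ hS.oki]
    exact this

theorem classification [IsDomain R] [IsAlgClosed k]
    (hinj : Function.Injective (algebraMap R k)) (ha : a ≠ 0) (h0 : b0 ≠ 0) (h3 : b3 ≠ 0) :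
    (Classical4 (algebraMap R k a) (algebraMap R k b0) (algebraMap R k b1) (algebraMap R k b2)
        (algebraMap R k b3) (algebraMap R k bi) →
      trivialKnot a b0 b1 b2 b3 bi ∉ Submodule.torsion R (Skein a b0 b1 b2 b3 bi)) ∧
    (trivialKnot a b0 b1 b2 b3 bi ∉ Submodule.torsion R (Skein a b0 b1 b2 b3 bi) →
      Classical4 (algebraMap R k a) (algebraMap R k b0) (algebraMap R k b1) (algebraMap R k b2)
        (algebraMap R k b3) (algebraMap R k bi) ∨ (bi ≠ 0 ∧ Exceptional a b0 b1 b2 b3 bi)) := by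
  have ne : ∀ {x : R}, x ≠ 0 → algebraMap R k x ≠ 0 := fun hx h =>
    hx (hinj (h.trans (map_zero _).symm))
  constructor
  · intro h
    obtain ⟨F, hF, hS⟩ := suff_all (ne ha) (ne h0) (ne h3) h
    exact not_torsion_of_inv hinj hF hS
  · intro h
    obtain ⟨F, hF, hS⟩ := inv_of_not_torsion hinj h
    rcases nec_all hF (ne ha) (ne h0) (ne h3) hS with h1 | ⟨h1, h2, h4⟩
    · exact Or.inl h1
    · refine Or.inr ⟨fun hb => h1 (by rw [hb, map_zero]), hinj ?_, hinj ?_⟩
      · simpa using h2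
      · simpa using h4

end Pool.Agent.Lib.MP_43d316_gt
end
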