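import Pool.Agent.Lib.MP_43d316_gt.Defs

-- part Pool.Agent.Lib.MP_43d316_gt.Span
section

/-
Word representations in an algebra, and the spanning theorem for the Dubrovnik relation:
every nonempty closed diagram evaluates to a scalar multiple of the loop value.
-/

namespace Pool.Agent.Lib.MP_43d316_gt

open Kind

/-- Evaluation of a word in a monoid. -/
def ev {A : Type*} [Monoid A] (r : Kind → ℕ → A) (w : Word) : A :=
  (w.map fun p => r p.1 p.2).prod

@[simp] theorem ev_nil {A : Type*} [Monoid A] (r : Kind → ℕ → A) : ev r [] = 1 := rfl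

@[simp] theorem ev_cons {A : Type*} [Monoid A] (r : Kind → ℕ → A) (x : Kind) (i : ℕ)
    (w : Word) : ev r ((x, i) :: w) = r x i * ev r w := by
  simp [ev]

theorem ev_append {A : Type*} [Monoid A] (r : Kind → ℕ → A) (u v : Word) :
    ev r (u ++ v) = ev r u * ev r v := by
  simp [ev]

/-- The relations of a representation, without the framed first move. -/
structure Rels {A : Type*} [Monoid A] (r : Kind → ℕ → A) : Prop where
  far : ∀ x y i k, r x i * r y (i + x.out + k) = r y (i + x.inp + k) * r x i
  zig : ∀ i, r cup (i + 1) * r cap i = 1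
  zag : ∀ i, r cup i * r cap (i + 1) = 1
  cupPos : ∀ i, r cup (i + 1) * r pos i = r cup i * r neg (i + 1)
  cupNeg : ∀ i, r cup (i + 1) * r neg i = r cup i * r pos (i + 1)
  capPos : ∀ i, r pos i * r cap (i + 1) = r neg (i + 1) * r cap i
  capNeg : ∀ i, r neg i * r cap (i + 1) = r pos (i + 1) * r cap i
  twoPos : ∀ i, r pos i * r neg i = 1
  twoNeg : ∀ i, r neg i * r pos i = 1
  three : ∀ i, r pos i * r pos (i + 1) * r pos i = r pos (i + 1) * r pos i * r pos (i + 1)

section Twist

variable {L A : Type*} [CommRing L] [Ring A] [Algebra L A] {r : Kind → ℕ → A}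

/-- A representation in which a half twist next to a maximum is a scalar. -/
structure Framed (r : Kind → ℕ → A) (a a' : L) : Prop extends Rels r where
  unit : a * a' = 1
  negCap : ∀ i, r neg i * r cap i = a • r cap i

theorem Framed.posCap {a a' : L} (h : Framed r a a') (i : ℕ) :
    r pos i * r cap i = a' • r cap i := by
  have h1 : r pos i * (r neg i * r cap i) = r cap i := by
    rw [← mul_assoc, h.twoPos, one_mul]
  rw [h.negCap, mul_smul_comm] at h1
  calc r pos i * r cap i = (a' * a) • (r pos i * r cap i) := by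
        rw [mul_comm a' a, h.unit, one_smul]
    _ = a' • r cap i := by rw [mul_smul, h1]

theorem Framed.curlR {a a' : L} (h : Framed r a a') (i : ℕ) :
    r cup (i + 1) * r pos i * r cap (i + 1) = a • (1 : A) := by
  rw [h.cupPos, mul_assoc, h.negCap, mul_smul_comm, h.zag]

theorem Framed.curlL {a a' : L} (h : Framed r a a') (i : ℕ) :
    r cup i * r pos (i + 1) * r cap i = a • (1 : A) := by
  rw [← h.cupNeg, mul_assoc, h.negCap, mul_smul_comm, h.zig]

theorem Framed.curlLneg {a a' : L} (h : Framed r a a') (i : ℕ) :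
    r cup i * r neg (i + 1) * r cap i = a' • (1 : A) := by
  rw [← h.cupPos, mul_assoc, h.posCap, mul_smul_comm, h.zig]

theorem Framed.cupTwist {a a' : L} (h : Framed r a a') (i : ℕ) :
    r cup i * r pos i = a' • r cup i := by
  have h1 : r cup (i + 1 + 1) * r cap (i + 1) = 1 := h.zig (i + 1)
  have h2 : r pos i * r cup (i + 1 + 1) = r cup (i + 1 + 1) * r pos i := by
    simpa [Kind.out, Kind.inp] using h.far pos cup i 0
  have h3 : r cup i * r cup (i + 1 + 1) = r cup i * r cup i := by
    simpa [Kind.out, Kind.inp] using h.far cup cup i 0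
  calc r cup i * r pos i = r cup i * (r pos i * r cup (i + 1 + 1)) * r cap (i + 1) := by
        rw [mul_assoc, mul_assoc, h1, mul_one]
    _ = r cup i * r cup (i + 1 + 1) * (r pos i * r cap (i + 1)) := by
        rw [h2]; simp only [mul_assoc]
    _ = r cup i * (r cup i * r neg (i + 1) * r cap i) := by
        rw [h3, h.capPos]; simp only [mul_assoc]
    _ = a' • r cup i := by rw [h.curlLneg, mul_smul_comm, mul_one]

theorem Framed.cupTwistNeg {a a' : L} (h : Framed r a a') (i : ℕ) :
    r cup i * r neg i = a • r cup i := by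
  have h1 : r cup i * r pos i * r neg i = r cup i := by
    rw [mul_assoc, h.twoPos, mul_one]
  rw [h.cupTwist, smul_mul_assoc] at h1
  calc r cup i * r neg i = (a * a') • (r cup i * r neg i) := by rw [h.unit, one_smul]
    _ = a • r cup i := by rw [mul_smul, h1]

theorem Framed.move {a a' : L} (h : Framed r a a') {u v : Word} (m : Move u v) :
    ev r u = ev r v := by
  cases m with
  | far x y i k => simpa using h.far x y i k
  | zig i => simpa using h.zig i
  | zag i => simpa using h.zag i
  | cupPos i => simpa using h.cupPos i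
  | cupNeg i => simpa using h.cupNeg i
  | capPos i => simpa using h.capPos i
  | capNeg i => simpa using h.capNeg i
  | twoPos i => simpa using h.twoPos i
  | twoNeg i => simpa using h.twoNeg i
  | three i => simpa [mul_assoc] using h.three i
  | curl i =>
    have h1 := h.curlR i
    have h2 := h.curlL i
    simp only [ev_cons, ev_nil, mul_one, ← mul_assoc]
    rw [h1, h2]

end Twist

section Span

variable {A : Type*} [Ring A] {r : Kind → ℕ → A}

/-- The arc from position `0` to position `j + 1` passing over the strands in between. -/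
def arc (r : Kind → ℕ → A) : ℕ → A
  | 0 => r cup 0
  | j + 1 => arc r j * r pos (j + 1)

theorem arc_right (h : Rels r) (y : Kind) (j k : ℕ) :
    arc r j * r y (j + 2 + k) = r y (j + k) * arc r j := by
  induction j generalizing k with
  | zero => simpa [arc, Kind.out, Kind.inp] using h.far cup y 0 k
  | succ j ih =>
    have h1 := h.far pos y (j + 1) k
    simp only [Kind.out, Kind.inp] at h1
    have h2 := ih (k + 1)
    rw [show j + 2 + (k + 1) = j + 1 + 2 + k by ring, show j + (k + 1) = j + 1 + k by ring] at h2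
    rw [arc, mul_assoc, h1, ← mul_assoc, h2, mul_assoc]

theorem arc_under (h : Rels r) (y : Kind) (p m : ℕ) :
    arc r (p + y.inp + m) * r y (p + 1) = r y p * arc r (p + y.out + m) := by
  induction m with
  | zero =>
    have h0 := arc_right h y p 0
    simp only [add_zero] at h0
    cases y with
    | cup =>
      simp only [Kind.inp, Kind.out, add_zero, arc]
      have : r cup (p + 1) = r cup (p + 1 + 1) * r pos (p + 1) * r pos (p + 1 + 1) := by
        rw [h.cupPos, mul_assoc, h.twoNeg, mul_one]
      rw [this, ← mul_assoc, ← mul_assoc, ← mul_assoc, ← mul_assoc, ← h0]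
    | cap =>
      simp only [Kind.inp, Kind.out, add_zero, arc]
      have : r pos (p + 1) * (r pos (p + 1 + 1) * r cap (p + 1)) = r cap (p + 1 + 1) := by
        rw [← h.capNeg, ← mul_assoc, h.twoPos, one_mul]
      rw [mul_assoc, mul_assoc, this, ← h0]
    | pos =>
      simp only [Kind.inp, Kind.out, add_zero, arc]
      rw [← mul_assoc, ← mul_assoc, ← h0]
      have := h.three (p + 1)
      simp only [mul_assoc] at this ⊢
      rw [this]
    | neg =>
      simp only [Kind.inp, Kind.out, add_zero, arc]
      rw [← mul_assoc, ← mul_assoc, ← h0]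
      have h3 := h.three (p + 1)
      have : r pos (p + 1) * r pos (p + 1 + 1) * r neg (p + 1) =
          r neg (p + 1 + 1) * r pos (p + 1) * r pos (p + 1 + 1) := by
        calc r pos (p + 1) * r pos (p + 1 + 1) * r neg (p + 1)
            = r neg (p + 1 + 1) * (r pos (p + 1 + 1) * r pos (p + 1) * r pos (p + 1 + 1)) *
              r neg (p + 1) := by
              simp only [← mul_assoc]; rw [h.twoNeg, one_mul]
          _ = r neg (p + 1 + 1) * r pos (p + 1) * r pos (p + 1 + 1) *
              (r pos (p + 1) * r neg (p + 1)) := by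
              rw [← h3]; simp only [mul_assoc]
          _ = _ := by rw [h.twoPos, mul_one]
      simp only [mul_assoc] at this ⊢
      rw [this]
  | succ m ih =>
    have h1 := h.far y pos (p + 1) m
    rw [show p + 1 + y.out + m = p + y.out + m + 1 by ring,
      show p + 1 + y.inp + m = p + y.inp + m + 1 by ring] at h1
    rw [← add_assoc, ← add_assoc, arc, arc, mul_assoc, ← h1, ← mul_assoc, ih, mul_assoc]

variable {L : Type*} [CommRing L] [Algebra L A]

/-- The span of the descending diagrams with `n` endpoints. -/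
def desc (L : Type*) [CommRing L] [Algebra L A] (r : Kind → ℕ → A) : ℕ → Submodule L A
  | 0 => Submodule.span L {1}
  | 1 => ⊥
  | n + 2 => ⨆ j : Fin (n + 1), (desc L r n).map (LinearMap.mulRight L (arc r j))

theorem desc_arc {n j : ℕ} (hj : j ≤ n) {y : A} (hy : y ∈ desc L r n) :
    y * arc r j ∈ desc L r (n + 2) := by
  rw [desc]
  exact Submodule.mem_iSup_of_mem (⟨j, Nat.lt_succ_of_le hj⟩ : Fin (n + 1))
    (Submodule.mem_map_of_mem (f := LinearMap.mulRight L (arc r j)) hy)

theorem desc_ind {n : ℕ} (T : A) (N : Submodule L A)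
    (H : ∀ j ≤ n, ∀ y ∈ desc L r n, y * arc r j * T ∈ N) :
    ∀ x ∈ desc L r (n + 2), x * T ∈ N := by
  have : desc L r (n + 2) ≤ N.comap (LinearMap.mulRight L T) := by
    rw [desc]
    refine iSup_le fun j => ?_
    rw [Submodule.map_le_iff_le_comap]
    intro y hy
    exact H j (Nat.le_of_lt_succ j.2) y hy
  intro x hx
  exact this hx

theorem desc_one {x : A} (hx : x ∈ desc L r 1) : x = 0 := by
  simpa [desc] using hx

theorem desc_cup (h : Rels r) : ∀ n i, i ≤ n → ∀ x ∈ desc L r n, x * r cup i ∈ desc L r (n + 2)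
  | n, 0, _ => fun x hx => desc_arc (j := 0) (Nat.zero_le n) hx
  | 0, i + 1, hi => absurd hi (by omega)
  | 1, i + 1, _ => fun x hx => by rw [desc_one hx, zero_mul]; exact Submodule.zero_mem _
  | m + 2, p + 1, hi => by
    refine desc_ind _ _ fun j hj y hy => ?_
    rcases le_or_gt p j with hp | hp
    · obtain ⟨k, rfl⟩ := Nat.exists_eq_add_of_le hp
      have := arc_under h cup p k
      simp only [Kind.inp, Kind.out, add_zero] at this
      rw [mul_assoc, this, ← mul_assoc]
      exact desc_arc (by omega) (desc_cup h m p (by omega) y hy)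
    · obtain ⟨k, rfl⟩ := Nat.exists_eq_add_of_lt hp
      have := arc_right h cup j k
      rw [show j + k + 1 + 1 = j + 2 + k by ring, mul_assoc, this, ← mul_assoc]
      exact desc_arc (by omega) (desc_cup h m (j + k) (by omega) y hy)

/-- The Dubrovnik relations. -/
structure Dub (r : Kind → ℕ → A) (a a' z d : L) : Prop extends Framed r a a' where
  loop : ∀ i, r cup i * r cap i = d • (1 : A)
  skein : ∀ i, r pos i - r neg i = z • (1 - r cap i * r cup i)

/-- Closure of `desc n` under crossings. -/
def CrossOk (L : Type*) [CommRing L] [Algebra L A] (r : Kind → ℕ → A) (n : ℕ) : Prop :=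
  ∀ i, i + 2 ≤ n → ∀ x ∈ desc L r n, x * r pos i ∈ desc L r n ∧ x * r neg i ∈ desc L r n

/-- Closure of `desc` under maxima. -/
def CapOk (L : Type*) [CommRing L] [Algebra L A] (r : Kind → ℕ → A) (n : ℕ) : Prop :=
  ∀ i, i ≤ n → ∀ x ∈ desc L r (n + 2), x * r cap i ∈ desc L r n

theorem cap_end {a a' z d : L} (h : Dub r a a' z d) {n : ℕ} (hc : CrossOk L r n) :
    ∀ j, j + 1 ≤ n → ∀ y ∈ desc L r n, y * arc r j * r cap (j + 1) ∈ desc L r n
  | 0, _, y, hy => by rw [arc, mul_assoc, h.zag, mul_one]; exact hy
  | j + 1, hj, y, hy => by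
    have h1 := arc_right h.toRels neg j 0
    simp only [add_zero] at h1
    have : y * arc r (j + 1) * r cap (j + 1 + 1) = y * r neg j * arc r j * r cap (j + 1) := by
      rw [arc, mul_assoc, mul_assoc, h.capPos, ← mul_assoc (arc r j), h1]
      simp only [mul_assoc]
    rw [this]
    exact cap_end h hc j (by omega) _ (hc j (by omega) y hy).2

theorem cap_start {a a' z d : L} (h : Dub r a a' z d) {n : ℕ} (hc : CrossOk L r n) :
    ∀ j, j ≤ n → ∀ y ∈ desc L r n, y * arc r j * r cap 0 ∈ desc L r n
  | 0, _, y, hy => by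
    rw [arc, mul_assoc, h.loop, mul_smul_comm, mul_one]; exact Submodule.smul_mem _ _ hy
  | 1, _, y, hy => by
    have := h.curlL 0
    rw [arc, arc, mul_assoc, this, mul_smul_comm, mul_one]; exact Submodule.smul_mem _ _ hy
  | j + 2, hj, y, hy => by
    have h1 := h.far cap pos 0 j
    simp only [Kind.out, Kind.inp, zero_add] at h1
    have : y * arc r (j + 2) * r cap 0 = y * arc r (j + 1) * r cap 0 * r pos j := by
      rw [arc, mul_assoc (y * arc r (j + 1)), h1, add_comm 2 j]
      simp only [mul_assoc]
    rw [this]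
    exact (hc j (by omega) _ (cap_start h hc (j + 1) (by omega) y hy)).1

theorem capOk_step {a a' z d : L} (h : Dub r a a' z d) {n : ℕ} (hc : CrossOk L r n)
    (hk : ∀ m, n = m + 2 → CapOk L r m) : CapOk L r n := by
  intro i hi
  refine desc_ind _ _ fun j hj y hy => ?_
  rcases Nat.eq_zero_or_pos i with rfl | hi0
  · exact cap_start h hc j hj y hy
  obtain ⟨p, rfl⟩ : ∃ p, i = p + 1 := ⟨i - 1, by omega⟩
  rcases lt_trichotomy p j with hp | rfl | hp
  · rcases (show p + 1 = j ∨ p + 2 ≤ j by omega) with rfl | hp2
    · have : y * arc r (p + 1) * r cap (p + 1) = a' • (y * arc r p * r cap (p + 1)) := by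
        rw [arc, mul_assoc, mul_assoc, h.posCap, mul_smul_comm, mul_smul_comm, mul_assoc]
      rw [this]
      exact Submodule.smul_mem _ _ (cap_end h hc p hi y hy)
    · obtain ⟨k, rfl⟩ := Nat.exists_eq_add_of_le hp2
      obtain ⟨m, rfl⟩ : ∃ m, n = m + 2 := ⟨n - 2, by omega⟩
      have := arc_under h.toRels cap p k
      simp only [Kind.inp, Kind.out, add_zero] at this
      rw [mul_assoc, this, ← mul_assoc]
      exact desc_arc (by omega) (hk m rfl p (by omega) y hy)
  · exact cap_end h hc p hi y hy
  · obtain ⟨k, rfl⟩ := Nat.exists_eq_add_of_lt hp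
    obtain ⟨m, rfl⟩ : ∃ m, n = m + 2 := ⟨n - 2, by omega⟩
    have := arc_right h.toRels cap j k
    rw [show j + k + 1 + 1 = j + 2 + k by ring, mul_assoc, this, ← mul_assoc]
    exact desc_arc (by omega) (hk m rfl (j + k) (by omega) y hy)

theorem cross_swap {a a' z d : L} (h : Dub r a a' z d) {n : ℕ} (hk : CapOk L r n) {i : ℕ}
    (hi : i ≤ n) {x : A} (hx : x ∈ desc L r (n + 2)) :
    x * r pos i ∈ desc L r (n + 2) ↔ x * r neg i ∈ desc L r (n + 2) := by
  have h1 : x * r pos i - x * r neg i ∈ desc L r (n + 2) := by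
    rw [← mul_sub, h.skein, mul_smul_comm, mul_sub, mul_one, ← mul_assoc]
    exact Submodule.smul_mem _ _
      (Submodule.sub_mem _ hx (desc_cup h.toRels n i hi _ (hk i hi x hx)))
  constructor
  · intro h2
    simpa using Submodule.sub_mem _ h2 h1
  · intro h2
    simpa using Submodule.add_mem _ h1 h2

theorem crossOk_step {a a' z d : L} (h : Dub r a a' z d) {n : ℕ} (hc : CrossOk L r n)
    (hk : CapOk L r n) : CrossOk L r (n + 2) := by
  have key : ∀ p, p + 1 ≤ n → ∀ x ∈ desc L r (n + 2), x * r pos (p + 1) ∈ desc L r (n + 2) := by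
    intro p hp
    refine desc_ind _ _ fun j hj y hy => ?_
    rcases lt_trichotomy p j with hpj | rfl | hpj
    · rcases (show p + 1 = j ∨ p + 2 ≤ j by omega) with rfl | hp2
      · rw [cross_swap h hk hp (desc_arc hj hy), arc, mul_assoc, mul_assoc, h.twoPos, mul_one]
        exact desc_arc (by omega) hy
      · obtain ⟨k, rfl⟩ := Nat.exists_eq_add_of_le hp2
        have := arc_under h.toRels pos p k
        simp only [Kind.inp, Kind.out] at this
        rw [mul_assoc, this, ← mul_assoc]
        exact desc_arc hj (hc p (by omega) y hy).1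
    · rw [mul_assoc]
      exact desc_arc (j := p + 1) hp hy
    · obtain ⟨k, rfl⟩ := Nat.exists_eq_add_of_lt hpj
      have := arc_right h.toRels pos j k
      rw [show j + k + 1 + 1 = j + 2 + k by ring, mul_assoc, this, ← mul_assoc]
      exact desc_arc hj (hc (j + k) (by omega) y hy).1
  have key0 : ∀ x ∈ desc L r (n + 2), x * r pos 0 ∈ desc L r (n + 2) := by
    refine desc_ind _ _ fun j => ?_
    induction j with
    | zero =>
      intro _ y hy
      rw [arc, mul_assoc, h.cupTwist, mul_smul_comm]
      exact Submodule.smul_mem _ _ (desc_arc (j := 0) (Nat.zero_le _) hy)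
    | succ j ih =>
      intro hj y hy
      rcases j with _ | j
      · have : y * arc r (0 + 1) * r pos 0 = y * r cup 1 := by
          rw [arc, arc, ← h.cupNeg, mul_assoc, mul_assoc, h.twoNeg, mul_one]
        rw [this]
        exact desc_cup h.toRels n 1 hj y hy
      · have h1 := h.far pos pos 0 j
        simp only [Kind.out, Kind.inp, zero_add] at h1
        have : y * arc r (j + 1 + 1) * r pos 0 =
            y * arc r (j + 1) * r pos 0 * r pos (j + 1 + 1) := by
          rw [arc, mul_assoc (y * arc r (j + 1)), show j + 1 + 1 = 2 + j by ring, h1]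
          simp only [mul_assoc]
        rw [this]
        exact key (j + 1) hj _ (ih (by omega) y hy)
  intro i hi x hx
  have hp : x * r pos i ∈ desc L r (n + 2) := by
    rcases i with _ | p
    · exact key0 x hx
    · exact key p (by omega) x hx
  exact ⟨hp, (cross_swap h hk (by omega) hx).1 hp⟩

theorem desc_closed {a a' z d : L} (h : Dub r a a' z d) :
    ∀ n, CrossOk L r n ∧ CapOk L r n
  | 0 => by
    have hc : CrossOk L r 0 := fun i hi => absurd hi (by omega)
    exact ⟨hc, capOk_step h hc fun m hm => absurd hm (by omega)⟩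
  | 1 => by
    have hc : CrossOk L r 1 := fun i hi => absurd hi (by omega)
    exact ⟨hc, capOk_step h hc fun m hm => absurd hm (by omega)⟩
  | n + 2 => by
    have ih := desc_closed h n
    have hc := crossOk_step h ih.1 ih.2
    refine ⟨hc, capOk_step h hc fun m hm => ?_⟩
    obtain rfl : m = n := by omega
    exact ih.2

theorem desc_ev {a a' z d : L} (h : Dub r a a' z d) :
    ∀ (w : Word) (m n : ℕ), Ok m w n → ∀ x ∈ desc L r m, x * ev r w ∈ desc L r n
  | [], m, n, hw => fun x hx => by
    obtain rfl : m = n := hw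
    simpa using hx
  | (k, i) :: w, m, n, hw => fun x hx => by
    obtain ⟨h1, h2⟩ := hw
    rw [ev_cons, ← mul_assoc]
    refine desc_ev h w _ n h2 _ ?_
    cases k with
    | cup => exact desc_cup h.toRels m i h1 x hx
    | cap =>
      obtain ⟨m, rfl⟩ : ∃ m', m = m' + 2 := ⟨m - 2, by simp only [Kind.inp] at h1; omega⟩
      exact (desc_closed h m).2 i (by simp only [Kind.inp] at h1; omega) x hx
    | pos =>
      simp only [Kind.inp, Kind.out] at h1 ⊢
      rw [show m - 2 + 2 = m by omega]
      exact ((desc_closed h m).1 i h1 x hx).1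
    | neg =>
      simp only [Kind.inp, Kind.out] at h1 ⊢
      rw [show m - 2 + 2 = m by omega]
      exact ((desc_closed h m).1 i h1 x hx).2

theorem ok_append {u v : Word} {m n : ℕ} :
    Ok m (u ++ v) n ↔ ∃ l, Ok m u l ∧ Ok l v n := by
  induction u generalizing m with
  | nil => simp [Ok]
  | cons p u ih =>
    obtain ⟨x, i⟩ := p
    simp only [List.cons_append, Ok, ih]
    constructor
    · rintro ⟨h1, l, h2, h3⟩; exact ⟨l, ⟨h1, h2⟩, h3⟩
    · rintro ⟨l, ⟨h1, h2⟩, h3⟩; exact ⟨h1, l, h2, h3⟩

/-- Spanning theorem: a nonempty closed diagram evaluates to a multiple of the loop value. -/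
theorem closed_ev {a a' z d : L} (h : Dub r a a' z d) {w : Word} (hw : Ok 0 w 0)
    (hne : w ≠ []) : ∃ g : L, ev r w = (d * g) • (1 : A) := by
  obtain ⟨P, ⟨x, i⟩, rfl⟩ := List.eq_nil_or_concat'.{0} w |>.resolve_left hne
  obtain ⟨l, h1, h2⟩ := ok_append.1 hw
  obtain ⟨h3, h4⟩ := h2
  have h5 : l - x.inp + x.out = 0 := h4
  have hx : x = cap := by
    cases x <;> simp [Kind.out] at h5 ⊢
  subst hx
  simp only [Kind.inp, Kind.out] at h3 h5
  obtain rfl : l = 2 := by omega
  obtain rfl : i = 0 := by omega
  have h6 := desc_ev h P 0 2 h1 1 (Submodule.mem_span_singleton_self _)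
  have h7 : ∀ x ∈ desc L r (0 + 2), x * r cap 0 ∈ Submodule.span L {d • (1 : A)} := by
    refine desc_ind _ _ fun j hj y hy => ?_
    obtain rfl : j = 0 := by omega
    obtain ⟨c, rfl⟩ := Submodule.mem_span_singleton.1 hy
    rw [arc, mul_assoc, h.loop, smul_mul_assoc, one_mul]
    exact Submodule.smul_mem _ _ (Submodule.mem_span_singleton_self _)
  obtain ⟨c, hc⟩ := Submodule.mem_span_singleton.1 (h7 _ h6)
  refine ⟨c, ?_⟩
  rw [ev_append, ev_cons, ev_nil, mul_one, ← one_mul (ev r P), ← hc, smul_smul, mul_comm]

end Span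

end Pool.Agent.Lib.MP_43d316_gt
end

-- part Pool.Agent.Lib.MP_43d316_gt.Shift
section

/-
Representations of words built from a shift endomorphism, and state-sum operators on
functions of streams.
-/

namespace Pool.Agent.Lib.MP_43d316_gt

open Kind

section Abstract

variable {K A : Type*} [CommRing K] [Ring A] [Algebra K A]

/-- Iterated shift. -/
def shn (sh : A →ₐ[K] A) : ℕ → (A →ₐ[K] A)
  | 0 => AlgHom.id K A
  | n + 1 => (shn sh n).comp sh

theorem shn_add (sh : A →ₐ[K] A) (i n : ℕ) (x : A) :
    shn sh (i + n) x = shn sh i (shn sh n x) := by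
  induction n generalizing x with
  | zero => rfl
  | succ n ih => rw [← add_assoc, shn, shn]; exact ih (sh x)

/-- The representation of slices given by shifting four local operators. -/
def shRep (sh : A →ₐ[K] A) (op : Kind → A) (x : Kind) (i : ℕ) : A := shn sh i (op x)

theorem shRep_succ (sh : A →ₐ[K] A) (op : Kind → A) (x : Kind) (i : ℕ) :
    shRep sh op x (i + 1) = shn sh i (sh (op x)) := rfl

/-- The relations at position zero that do not involve the second and third moves. -/
structure Pre (sh : A →ₐ[K] A) (op : Kind → A) (a a' z d : K) : Prop where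
  far : ∀ x L, op x * shn sh x.out L = shn sh x.inp L * op x
  zig : sh (op cup) * op cap = 1
  zag : op cup * sh (op cap) = 1
  cupPos : sh (op cup) * op pos = op cup * sh (op neg)
  cupNeg : sh (op cup) * op neg = op cup * sh (op pos)
  capPos : op pos * sh (op cap) = sh (op neg) * op cap
  capNeg : op neg * sh (op cap) = sh (op pos) * op cap
  unit : a * a' = 1
  negCap : op neg * op cap = a • op cap
  loop : op cup * op cap = d • (1 : A)
  skein : op pos - op neg = z • (1 - op cap * op cup)
  value : a + z - z * d = a'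

variable {sh : A →ₐ[K] A} {op : Kind → A} {a a' z d : K}

theorem Pre.posCap (h : Pre sh op a a' z d) : op pos * op cap = a' • op cap := by
  have h1 : op pos = op neg + z • (1 - op cap * op cup) := by rw [← h.skein]; abel
  rw [h1, add_mul, h.negCap, smul_mul_assoc, sub_mul, one_mul, mul_assoc, h.loop,
    mul_smul_comm, mul_one, ← h.value]
  module

theorem Pre.cupTwist (h : Pre sh op a a' z d) : op cup * op pos = a' • op cup := by
  have h1 : sh (sh (op cup)) * sh (op cap) = 1 := by rw [← map_mul, h.zig, map_one]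
  have h2 : op pos * sh (sh (op cup)) = sh (sh (op cup)) * op pos := h.far pos (op cup)
  have h3 : op cup * sh (sh (op cup)) = op cup * op cup := h.far cup (op cup)
  have h4 : op cup * sh (op neg) * op cap = a' • (1 : A) := by
    rw [← h.cupPos, mul_assoc, h.posCap, mul_smul_comm, h.zig]
  calc op cup * op pos = op cup * (op pos * sh (sh (op cup))) * sh (op cap) := by
        rw [mul_assoc, mul_assoc, h1, mul_one]
    _ = op cup * sh (sh (op cup)) * (op pos * sh (op cap)) := by
        rw [h2]; simp only [mul_assoc]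
    _ = op cup * (op cup * sh (op neg) * op cap) := by
        rw [h3, h.capPos]; simp only [mul_assoc]
    _ = a' • op cup := by rw [h4, mul_smul_comm, mul_one]

theorem Pre.comm (h : Pre sh op a a' z d) : op pos * op neg = op neg * op pos := by
  have h1 : op neg = op pos - z • (1 - op cap * op cup) := by rw [← h.skein]; abel
  rw [h1, mul_sub, sub_mul, mul_smul_comm, smul_mul_assoc, mul_sub, sub_mul, mul_one, one_mul,
    ← mul_assoc, h.posCap, mul_assoc, h.cupTwist, smul_mul_assoc, mul_smul_comm]

theorem Pre.defect (h : Pre sh op a a' z d) (h2 : op pos * op neg = 1)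
    (h2' : op neg * op pos = 1) :
    op pos * sh (op pos) * op pos - sh (op pos) * op pos * sh (op pos) =
      op neg * sh (op neg) * op neg - sh (op neg) * op neg * sh (op neg) := by
  have k2 : sh (op pos) * sh (op neg) = 1 := by rw [← map_mul, h2, map_one]
  have k2' : sh (op neg) * sh (op pos) = 1 := by rw [← map_mul, h2', map_one]
  have s0 : op pos = op neg + z • (1 - op cap * op cup) := by rw [← h.skein]; abel
  have s1 : sh (op pos) = sh (op neg) + z • (1 - sh (op cap) * sh (op cup)) := by
    rw [s0]; simp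
  generalize hg0 : op pos = g0 at *
  generalize hh0 : op neg = h0 at *
  have c1 := h.cupPos
  have c2 := h.cupNeg
  have c3 := h.capPos
  have c4 := h.capNeg
  rw [hg0, hh0] at c1 c2 c3 c4
  generalize sh g0 = g1 at *
  generalize sh h0 = h1 at *
  generalize sh (op cup) = c1' at *
  generalize sh (op cap) = d1 at *
  generalize op cup = c0 at *
  generalize op cap = d0 at *
  have e1 : d0 * c0 * g1 * g0 = g1 * g0 * (d1 * c1') := by
    calc d0 * c0 * g1 * g0 = d0 * (c0 * g1) * g0 := by simp only [mul_assoc]
      _ = d0 * c1' * (h0 * g0) := by rw [← c2]; simp only [mul_assoc]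
      _ = (g1 * h1) * d0 * c1' := by rw [h2', k2, mul_one, one_mul]
      _ = g1 * (h1 * d0) * c1' := by simp only [mul_assoc]
      _ = _ := by rw [← c3]; simp only [mul_assoc]
  have e2 : h0 * (d1 * c1') * g0 = g1 * (d0 * c0) * h1 := by
    calc h0 * (d1 * c1') * g0 = (h0 * d1) * (c1' * g0) := by simp only [mul_assoc]
      _ = _ := by rw [c4, c1]; simp only [mul_assoc]
  have e3 : h0 * h1 * (d0 * c0) = d1 * c1' * h0 * h1 := by
    calc h0 * h1 * (d0 * c0) = h0 * (h1 * d0) * c0 := by simp only [mul_assoc]
      _ = (h0 * g0) * d1 * c0 := by rw [← c3]; simp only [mul_assoc]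
      _ = d1 * c0 * (g1 * h1) := by rw [h2', k2, mul_one, one_mul]
      _ = d1 * (c0 * g1) * h1 := by simp only [mul_assoc]
      _ = _ := by rw [← c2]; simp only [mul_assoc]
  have f1 : g0 * g1 * g0 - g1 * g0 * g1 = h0 * g1 * g0 - g1 * g0 * h1 := by
    calc g0 * g1 * g0 - g1 * g0 * g1
        = (h0 + z • (1 - d0 * c0)) * g1 * g0 - g1 * g0 * (h1 + z • (1 - d1 * c1')) := by
          rw [← s0, ← s1]
      _ = h0 * g1 * g0 - g1 * g0 * h1 -
          z • (d0 * c0 * g1 * g0 - g1 * g0 * (d1 * c1')) := by
          simp only [add_mul, mul_add, smul_mul_assoc, mul_smul_comm, sub_mul, mul_sub,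
            one_mul, mul_one, smul_sub]
          abel
      _ = _ := by rw [e1, sub_self, smul_zero, sub_zero]
  have f2 : h0 * g1 * g0 - g1 * g0 * h1 = h0 * h1 * g0 - g1 * h0 * h1 := by
    calc h0 * g1 * g0 - g1 * g0 * h1
        = h0 * (h1 + z • (1 - d1 * c1')) * g0 - g1 * (h0 + z • (1 - d0 * c0)) * h1 := by
          rw [← s0, ← s1]
      _ = h0 * h1 * g0 - g1 * h0 * h1 + z • (h0 * g0 - g1 * h1) -
          z • (h0 * (d1 * c1') * g0 - g1 * (d0 * c0) * h1) := by
          simp only [add_mul, mul_add, smul_mul_assoc, mul_smul_comm, sub_mul, mul_sub,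
            mul_one, smul_sub]
          abel
      _ = _ := by rw [e2, h2', k2]; simp
  have f3 : h0 * h1 * g0 - g1 * h0 * h1 = h0 * h1 * h0 - h1 * h0 * h1 := by
    calc h0 * h1 * g0 - g1 * h0 * h1
        = h0 * h1 * (h0 + z • (1 - d0 * c0)) - (h1 + z • (1 - d1 * c1')) * h0 * h1 := by
          rw [← s0, ← s1]
      _ = h0 * h1 * h0 - h1 * h0 * h1 -
          z • (h0 * h1 * (d0 * c0) - d1 * c1' * h0 * h1) := by
          simp only [add_mul, mul_add, smul_mul_assoc, mul_smul_comm, sub_mul, mul_sub,
            one_mul, mul_one, smul_sub]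
          abel
      _ = _ := by rw [e3, sub_self, smul_zero, sub_zero]
  rw [f1, f2, f3]

theorem Pre.dub (h : Pre sh op a a' z d) (h2 : op pos * op neg = 1)
    (h2' : op neg * op pos = 1)
    (h3 : op pos * sh (op pos) * op pos = sh (op pos) * op pos * sh (op pos)) :
    Dub (shRep sh op) a a' z d where
  far x y i k := by
    simp only [shRep]
    rw [add_assoc, add_assoc, shn_add, shn_add, shn_add, shn_add, ← map_mul, ← map_mul, h.far]
  zig i := by rw [shRep_succ, shRep, ← map_mul, h.zig, map_one]
  zag i := by rw [shRep_succ, shRep, ← map_mul, h.zag, map_one]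
  cupPos i := by
    rw [shRep_succ, shRep_succ, shRep, shRep, ← map_mul, ← map_mul, h.cupPos]
  cupNeg i := by
    rw [shRep_succ, shRep_succ, shRep, shRep, ← map_mul, ← map_mul, h.cupNeg]
  capPos i := by
    rw [shRep_succ, shRep_succ, shRep, shRep, ← map_mul, ← map_mul, h.capPos]
  capNeg i := by
    rw [shRep_succ, shRep_succ, shRep, shRep, ← map_mul, ← map_mul, h.capNeg]
  twoPos i := by rw [shRep, shRep, ← map_mul, h2, map_one]
  twoNeg i := by rw [shRep, shRep, ← map_mul, h2', map_one]
  three i := by
    rw [shRep_succ, shRep, ← map_mul, ← map_mul, ← map_mul, ← map_mul, h3]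
  unit := h.unit
  negCap i := by rw [shRep, shRep, ← map_mul, h.negCap, map_smul]
  loop i := by rw [shRep, shRep, ← map_mul, h.loop, map_smul, map_one]
  skein i := by
    simp only [shRep]
    rw [← map_sub, h.skein, map_smul, map_sub, map_one, map_mul]

end Abstract

section Stream

variable {K I : Type*} [CommRing K] [Fintype I]

/-- Functions of an infinite sequence of states. -/
abbrev St (K I : Type*) : Type _ := Stream' I → K

/-- Acting on all strands but the first. -/
def shift : Module.End K (St K I) →ₐ[K] Module.End K (St K I) where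
  toFun L :=
    { toFun := fun f s => L (fun s' => f (Stream'.cons s.head s')) s.tail
      map_add' := fun f g => by
        funext s
        exact congrFun (L.map_add (fun s' => f (Stream'.cons s.head s'))
          (fun s' => g (Stream'.cons s.head s'))) s.tail
      map_smul' := fun c f => by
        funext s
        exact congrFun (L.map_smul c (fun s' => f (Stream'.cons s.head s'))) s.tail }
  map_one' := by
    ext f s
    simp
  map_mul' L M := by
    ext f s
    simp
  map_zero' := by
    ext f s
    simp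
  map_add' L M := by
    ext f s
    simp
  commutes' c := by
    ext f s
    simp

omit [Fintype I] in
@[simp] theorem shift_cons (L : Module.End K (St K I)) (f : St K I) (x : I) (s : Stream' I) :
    shift L f (Stream'.cons x s) = L (fun s' => f (Stream'.cons x s')) s := rfl

/-- State-sum operator of a minimum. -/
def opCup (cu : I → I → K) : Module.End K (St K I) where
  toFun f s := ∑ x, ∑ y, cu x y * f (Stream'.cons x (Stream'.cons y s))
  map_add' f g := by
    funext s
    simp [mul_add, Finset.sum_add_distrib]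
  map_smul' c f := by
    funext s
    simp [Finset.mul_sum, mul_left_comm]

/-- State-sum operator of a maximum. -/
def opCap (ca : I → I → K) : Module.End K (St K I) where
  toFun f s := ca s.head s.tail.head * f s.tail.tail
  map_add' f g := by
    funext s
    simp [mul_add]
  map_smul' c f := by
    funext s
    simp [mul_left_comm]

/-- State-sum operator of a crossing. -/
def opX (R : I → I → I → I → K) : Module.End K (St K I) where
  toFun f s := ∑ x, ∑ y, R s.head s.tail.head x y *
    f (Stream'.cons x (Stream'.cons y s.tail.tail))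
  map_add' f g := by
    funext s
    simp [mul_add, Finset.sum_add_distrib]
  map_smul' c f := by
    funext s
    simp [Finset.mul_sum, mul_left_comm]

@[simp] theorem opCup_apply (cu : I → I → K) (f : St K I) (s : Stream' I) :
    opCup cu f s = ∑ x, ∑ y, cu x y * f (Stream'.cons x (Stream'.cons y s)) := rfl

omit [Fintype I] in
@[simp] theorem opCap_cons (ca : I → I → K) (f : St K I) (x y : I) (s : Stream' I) :
    opCap ca f (Stream'.cons x (Stream'.cons y s)) = ca x y * f s := rfl

@[simp] theorem opX_cons (R : I → I → I → I → K) (f : St K I) (a b : I) (s : Stream' I) :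
    opX R f (Stream'.cons a (Stream'.cons b s)) =
      ∑ x, ∑ y, R a b x y * f (Stream'.cons x (Stream'.cons y s)) := rfl

omit [Fintype I] in
theorem end_ext1 {L M : Module.End K (St K I)}
    (h : ∀ f x s, L f (Stream'.cons x s) = M f (Stream'.cons x s)) : L = M := by
  ext f s
  rw [← Stream'.eta s]
  exact h f _ _

omit [Fintype I] in
theorem end_ext2 {L M : Module.End K (St K I)}
    (h : ∀ f x y s, L f (Stream'.cons x (Stream'.cons y s)) =
      M f (Stream'.cons x (Stream'.cons y s))) : L = M := by
  refine end_ext1 fun f x s => ?_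
  rw [← Stream'.eta s]
  exact h f _ _ _

omit [Fintype I] in
theorem end_ext3 {L M : Module.End K (St K I)}
    (h : ∀ f x y u s, L f (Stream'.cons x (Stream'.cons y (Stream'.cons u s))) =
      M f (Stream'.cons x (Stream'.cons y (Stream'.cons u s)))) : L = M := by
  refine end_ext2 fun f x y s => ?_
  rw [← Stream'.eta s]
  exact h f _ _ _ _

theorem lin_sum (L : Module.End K (St K I)) (c : I → I → K) (F : I → I → St K I)
    (s : Stream' I) :
    L (fun s' => ∑ x, ∑ y, c x y * F x y s') s = ∑ x, ∑ y, c x y * L (F x y) s := by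
  have : (fun s' => ∑ x, ∑ y, c x y * F x y s') = ∑ x, ∑ y, c x y • F x y := by
    funext s'
    simp [Finset.sum_apply]
  rw [this]
  simp [map_sum, Finset.sum_apply]

/-- The four local operators. -/
def stOp (cu ca : I → I → K) (R Rb : I → I → I → I → K) : Kind → Module.End K (St K I)
  | .cup => opCup cu
  | .cap => opCap ca
  | .pos => opX R
  | .neg => opX Rb

theorem far_X (R : I → I → I → I → K) (L : Module.End K (St K I)) :
    opX R * shift (shift L) = shift (shift L) * opX R := by
  refine end_ext2 fun f a b s => ?_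
  simp only [Module.End.mul_apply, opX_cons, shift_cons]
  exact (lin_sum L (R a b) (fun x y s' => f (Stream'.cons x (Stream'.cons y s'))) s).symm

theorem stOp_far (cu ca : I → I → K) (R Rb : I → I → I → I → K) (x : Kind)
    (L : Module.End K (St K I)) :
    stOp cu ca R Rb x * shn shift x.out L = shn shift x.inp L * stOp cu ca R Rb x := by
  cases x with
  | cup =>
    show opCup cu * shift (shift L) = L * opCup cu
    ext f s
    simp only [Module.End.mul_apply, opCup_apply, shift_cons]
    exact (lin_sum L cu (fun x y s' => f (Stream'.cons x (Stream'.cons y s'))) s).symm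
  | cap =>
    show opCap ca * L = shift (shift L) * opCap ca
    refine end_ext2 fun f a b s => ?_
    simp only [Module.End.mul_apply, opCap_cons, shift_cons]
    exact (congrFun (L.map_smul (ca a b) f) s).symm
  | pos => exact far_X R L
  | neg => exact far_X Rb L

end Stream

end Pool.Agent.Lib.MP_43d316_gt
end

-- part Pool.Agent.Lib.MP_43d316_gt.RMat
section

/-
The orthogonal and symplectic R-matrices give representations satisfying the Dubrovnik
relation.  The second and third Reidemeister moves follow from triangularity.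
-/

namespace Pool.Agent.Lib.MP_43d316_gt

open Kind

section Tri

variable {K I : Type*} [CommRing K] [Fintype I] [DecidableEq I]

/-- Triangularity of a crossing matrix with respect to a strict order. -/
def Tri (lt : I → I → Prop) (T : I → I → I → I → K) : Prop :=
  ∀ a b c d, T a b c d ≠ 0 → (c = b ∧ d = a) ∨ (lt a d ∧ lt c b)

/-- Matrix entries of a product of two crossings. -/
def pTwo (S T : I → I → I → I → K) (a b e f : I) : K := ∑ c, ∑ d, S a b c d * T c d e f

/-- Matrix entries of the left side of the third move. -/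
def pL (T : I → I → I → I → K) (a b c d e g : I) : K :=
  ∑ x, ∑ y, ∑ p, T a b x y * T y c p g * T x p d e

/-- Matrix entries of the right side of the third move. -/
def pR (T : I → I → I → I → K) (a b c d e g : I) : K :=
  ∑ x, ∑ y, ∑ p, T b c x y * T a x d p * T p y e g

omit [DecidableEq I] in
theorem opX_two (S T : I → I → I → I → K) : opX S * opX T = opX (pTwo S T) := by
  refine end_ext2 fun f a b s => ?_
  simp only [Module.End.mul_apply, opX_cons, pTwo, Finset.mul_sum, Finset.sum_mul]
  rw [← Finset.sum_product', ← Finset.sum_product', ← Finset.sum_product',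
    ← Finset.sum_product', ← Finset.sum_product', ← Finset.sum_product']
  refine Finset.sum_bij' (fun t _ => (((t.1.2, t.2), t.1.1.1), t.1.1.2))
    (fun t _ => (((t.1.2, t.2), t.1.1.1), t.1.1.2))
    (by simp) (by simp) (by simp) (by simp) ?_
  intro t _
  ring

theorem opX_inj [Inhabited I] {S T : I → I → I → I → K} (h : opX S = opX T) : S = T := by
  funext a b c d
  have := congrFun (congrArg (fun L : Module.End K (St K I) =>
    L (fun s => if s.head = c ∧ s.tail.head = d then 1 else 0)) h)
    (Stream'.cons a (Stream'.cons b (Stream'.const default)))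
  have h2 : (∑ x, ∑ y, S a b x y * if x = c ∧ y = d then 1 else 0) =
      ∑ x, ∑ y, T a b x y * if x = c ∧ y = d then 1 else 0 := this
  simpa [ite_and] using h2

/-- Operators on three strands. -/
def opY (P : I → I → I → I → I → I → K) (f : St K I) (a b c : I) (s : Stream' I) : K :=
  ∑ d, ∑ e, ∑ g, P a b c d e g * f (Stream'.cons d (Stream'.cons e (Stream'.cons g s)))

omit [DecidableEq I] in
theorem opX_pL (T : I → I → I → I → K) (f : St K I) (a b c : I) (s : Stream' I) :
    (opX T * shift (opX T) * opX T) f (Stream'.cons a (Stream'.cons b (Stream'.cons c s))) =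
      opY (pL T) f a b c s := by
  simp only [Module.End.mul_apply, opX_cons, shift_cons, opY, pL, Finset.mul_sum,
    Finset.sum_mul]
  rw [← Finset.sum_product', ← Finset.sum_product', ← Finset.sum_product',
    ← Finset.sum_product', ← Finset.sum_product', ← Finset.sum_product',
    ← Finset.sum_product', ← Finset.sum_product', ← Finset.sum_product',
    ← Finset.sum_product']
  refine Finset.sum_bij' (fun t _ => (((((t.1.2, t.2), t.1.1.2), t.1.1.1.1.1), t.1.1.1.1.2),
      t.1.1.1.2))
    (fun t _ => (((((t.1.1.2, t.1.2), t.2), t.1.1.1.2), t.1.1.1.1.1), t.1.1.1.1.2))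
    (by simp) (by simp) (by simp) (by simp) ?_
  intro t _
  ring

omit [DecidableEq I] in
theorem opX_pR (T : I → I → I → I → K) (f : St K I) (a b c : I) (s : Stream' I) :
    (shift (opX T) * opX T * shift (opX T)) f
      (Stream'.cons a (Stream'.cons b (Stream'.cons c s))) = opY (pR T) f a b c s := by
  simp only [Module.End.mul_apply, opX_cons, shift_cons, opY, pR, Finset.mul_sum,
    Finset.sum_mul]
  rw [← Finset.sum_product', ← Finset.sum_product', ← Finset.sum_product',
    ← Finset.sum_product', ← Finset.sum_product', ← Finset.sum_product',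
    ← Finset.sum_product', ← Finset.sum_product', ← Finset.sum_product',
    ← Finset.sum_product']
  refine Finset.sum_bij' (fun t _ => (((((t.1.1.1.2, t.1.2), t.2), t.1.1.1.1.1), t.1.1.1.1.2),
      t.1.1.2))
    (fun t _ => (((((t.1.1.2, t.1.2), t.1.1.1.1.1), t.2), t.1.1.1.1.2), t.1.1.1.2))
    (by simp) (by simp) (by simp) (by simp) ?_
  intro t _
  ring

theorem opY_delta (P : I → I → I → I → I → I → K) (a b c d e g : I) (s : Stream' I) :
    opY P (fun s => if s.head = d ∧ s.tail.head = e ∧ s.tail.tail.head = g then 1 else 0)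
      a b c s = P a b c d e g := by
  show (∑ x, ∑ y, ∑ u, P a b c x y u * if x = d ∧ y = e ∧ u = g then 1 else 0) = _
  simp [ite_and]

variable {lt : I → I → Prop}

omit [DecidableEq I] in
theorem pTwo_tri (htr : ∀ a b c, lt a b → lt b c → lt a c) {S T : I → I → I → I → K}
    (hS : Tri lt S) (hT : Tri (fun x y => lt y x) T) {a b e f : I} (h1 : a ≠ e)
    (h2 : ¬ lt a e) : pTwo S T a b e f = 0 := by
  refine Finset.sum_eq_zero fun c _ => Finset.sum_eq_zero fun d _ => ?_
  by_contra hne
  have k1 := hS _ _ _ _ (left_ne_zero_of_mul hne)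
  have k2 := hT _ _ _ _ (right_ne_zero_of_mul hne)
  rcases k1 with ⟨_, rfl⟩ | ⟨k1, _⟩ <;> rcases k2 with ⟨rfl, _⟩ | ⟨_, k2⟩
  · exact h1 rfl
  · exact h2 k2
  · exact h2 k1
  · exact h2 (htr _ _ _ k1 k2)

theorem pTwo_diag (htr : ∀ a b c, lt a b → lt b c → lt a c) (hir : ∀ a, ¬ lt a a)
    {S T : I → I → I → I → K}
    (hS : Tri lt S) (hT : Tri (fun x y => lt y x) T) (a b f : I) :
    pTwo S T a b a f = if f = b then S a b b a * T b a a b else 0 := by
  have key : ∀ c d, S a b c d * T c d a f ≠ 0 → c = b ∧ d = a ∧ f = b := by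
    intro c d hne
    have k1 := hS _ _ _ _ (left_ne_zero_of_mul hne)
    have k2 := hT _ _ _ _ (right_ne_zero_of_mul hne)
    rcases k1 with ⟨rfl, rfl⟩ | ⟨k1, _⟩ <;> rcases k2 with ⟨k3, rfl⟩ | ⟨_, k2⟩
    · exact ⟨rfl, rfl, rfl⟩
    · exact absurd k2 (hir _)
    · subst k3; exact absurd k1 (hir _)
    · exact absurd (htr _ _ _ k1 k2) (hir _)
  unfold pTwo
  split_ifs with hf
  · subst hf
    rw [Finset.sum_eq_single f, Finset.sum_eq_single a]
    · intro d _ hd
      by_contra hne
      exact hd (key _ _ hne).2.1
    · simp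
    · intro c _ hc
      refine Finset.sum_eq_zero fun d _ => ?_
      by_contra hne
      exact hc (key _ _ hne).1
    · simp
  · refine Finset.sum_eq_zero fun c _ => Finset.sum_eq_zero fun d _ => ?_
    by_contra hne
    exact hf (key _ _ hne).2.2

omit [DecidableEq I] in
theorem pL_tri (htr : ∀ a b c, lt a b → lt b c → lt a c) {T : I → I → I → I → K}
    (hT : Tri lt T) {a b c d e g : I} (h1 : a ≠ g) (h2 : ¬ lt a g) : pL T a b c d e g = 0 := by
  refine Finset.sum_eq_zero fun x _ => Finset.sum_eq_zero fun y _ =>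
    Finset.sum_eq_zero fun p _ => ?_
  by_contra hne
  have k1 := hT _ _ _ _ (left_ne_zero_of_mul (left_ne_zero_of_mul hne))
  have k2 := hT _ _ _ _ (right_ne_zero_of_mul (left_ne_zero_of_mul hne))
  rcases k1 with ⟨_, rfl⟩ | ⟨k1, _⟩ <;> rcases k2 with ⟨_, rfl⟩ | ⟨k2, _⟩
  · exact h1 rfl
  · exact h2 k2
  · exact h2 k1
  · exact h2 (htr _ _ _ k1 k2)

omit [DecidableEq I] in
theorem pR_tri (htr : ∀ a b c, lt a b → lt b c → lt a c) {T : I → I → I → I → K}
    (hT : Tri lt T) {a b c d e g : I} (h1 : a ≠ g) (h2 : ¬ lt a g) : pR T a b c d e g = 0 := by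
  refine Finset.sum_eq_zero fun x _ => Finset.sum_eq_zero fun y _ =>
    Finset.sum_eq_zero fun p _ => ?_
  by_contra hne
  have k1 := hT _ _ _ _ (right_ne_zero_of_mul (left_ne_zero_of_mul hne))
  have k2 := hT _ _ _ _ (right_ne_zero_of_mul hne)
  rcases k1 with ⟨_, rfl⟩ | ⟨k1, _⟩ <;> rcases k2 with ⟨_, rfl⟩ | ⟨k2, _⟩
  · exact h1 rfl
  · exact h2 k2
  · exact h2 k1
  · exact h2 (htr _ _ _ k1 k2)

omit [DecidableEq I] in
theorem pL_diag (htr : ∀ a b c, lt a b → lt b c → lt a c) (hir : ∀ a, ¬ lt a a)
    {T : I → I → I → I → K} (hT : Tri lt T) (a b c d e : I) :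
    pL T a b c d e a = T a b b a * T a c c a * T b c d e := by
  have key : ∀ x y p, T a b x y * T y c p a * T x p d e ≠ 0 → x = b ∧ y = a ∧ p = c := by
    intro x y p hne
    have k1 := hT _ _ _ _ (left_ne_zero_of_mul (left_ne_zero_of_mul hne))
    have k2 := hT _ _ _ _ (right_ne_zero_of_mul (left_ne_zero_of_mul hne))
    rcases k1 with ⟨rfl, rfl⟩ | ⟨k1, _⟩ <;> rcases k2 with ⟨rfl, k3⟩ | ⟨k2, _⟩
    · exact ⟨rfl, rfl, rfl⟩
    · exact absurd k2 (hir _)
    · subst k3; exact absurd k1 (hir _)
    · exact absurd (htr _ _ _ k1 k2) (hir _)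
  unfold pL
  rw [Finset.sum_eq_single b, Finset.sum_eq_single a, Finset.sum_eq_single c]
  · intro p _ hp
    by_contra hne
    exact hp (key _ _ _ hne).2.2
  · simp
  · intro y _ hy
    refine Finset.sum_eq_zero fun p _ => ?_
    by_contra hne
    exact hy (key _ _ _ hne).2.1
  · simp
  · intro x _ hx
    refine Finset.sum_eq_zero fun y _ => Finset.sum_eq_zero fun p _ => ?_
    by_contra hne
    exact hx (key _ _ _ hne).1
  · simp

omit [DecidableEq I] in
theorem pR_diag (htr : ∀ a b c, lt a b → lt b c → lt a c) (hir : ∀ a, ¬ lt a a)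
    {T : I → I → I → I → K} (hT : Tri lt T) (a b c d e : I) :
    pR T a b c d e a = T b c d e * T a d d a * T a e e a := by
  have key : ∀ x y p, T b c x y * T a x d p * T p y e a ≠ 0 → x = d ∧ y = e ∧ p = a := by
    intro x y p hne
    have k1 := hT _ _ _ _ (right_ne_zero_of_mul (left_ne_zero_of_mul hne))
    have k2 := hT _ _ _ _ (right_ne_zero_of_mul hne)
    rcases k1 with ⟨rfl, rfl⟩ | ⟨k1, _⟩ <;> rcases k2 with ⟨rfl, k3⟩ | ⟨k2, _⟩
    · exact ⟨rfl, rfl, rfl⟩
    · exact absurd k2 (hir _)
    · subst k3; exact absurd k1 (hir _)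
    · exact absurd (htr _ _ _ k1 k2) (hir _)
  unfold pR
  rw [Finset.sum_eq_single d, Finset.sum_eq_single e, Finset.sum_eq_single a]
  · intro p _ hp
    by_contra hne
    exact hp (key _ _ _ hne).2.2
  · simp
  · intro y _ hy
    refine Finset.sum_eq_zero fun p _ => ?_
    by_contra hne
    exact hy (key _ _ _ hne).2.1
  · simp
  · intro x _ hx
    refine Finset.sum_eq_zero fun y _ => Finset.sum_eq_zero fun p _ => ?_
    by_contra hne
    exact hx (key _ _ _ hne).1
  · simp

end Tri

section Assemble

variable {K I : Type*} [CommRing K] [Fintype I] [LinearOrder I] [Inhabited I]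

theorem dub_of_tri {cu ca : I → I → K} {R Rb : I → I → I → I → K} {a a' z d : K}
    (h : Pre shift (stOp cu ca R Rb) a a' z d)
    (hR : Tri (· < ·) R) (hRb : Tri (fun x y => y < x) Rb)
    (hd : ∀ x y, R x y y x * Rb y x x y = 1) :
    Dub (shRep shift (stOp cu ca R Rb)) a a' z d := by
  have t1 : ∀ a b c : I, a < b → b < c → a < c := fun _ _ _ => lt_trans
  have t2 : ∀ a b c : I, b < a → c < b → c < a := fun _ _ _ h1 h2 => lt_trans h2 h1
  have i1 : ∀ a : I, ¬ a < a := lt_irrefl
  have hc : pTwo R Rb = pTwo Rb R := by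
    apply opX_inj
    rw [← opX_two, ← opX_two]
    exact h.comm
  have e2 : ∀ x y e f, pTwo R Rb x y e f = if e = x ∧ f = y then 1 else 0 := by
    intro x y e f
    rcases lt_trichotomy x e with hx | rfl | hx
    · rw [hc, pTwo_tri (lt := fun x y => y < x) t2 hRb hR hx.ne (not_lt.2 hx.le),
        if_neg fun hh => hx.ne' hh.1]
    · rw [pTwo_diag t1 i1 hR hRb, hd]; simp
    · rw [pTwo_tri t1 hR hRb hx.ne' (not_lt.2 hx.le), if_neg fun hh => hx.ne hh.1]
  have h2 : opX R * opX Rb = 1 := by
    rw [opX_two]
    refine end_ext2 fun f x y s => ?_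
    simp [e2, ite_and]
  have h2' : opX Rb * opX R = 1 := by rw [opX_two, ← hc, ← opX_two, h2]
  have hdef := h.defect h2 h2'
  have e3 : ∀ x y u p q g, pL R x y u p q g - pR R x y u p q g =
      pL Rb x y u p q g - pR Rb x y u p q g := by
    intro x y u p q g
    have := congrFun (congrArg (fun L : Module.End K (St K I) =>
      L (fun s => if s.head = p ∧ s.tail.head = q ∧ s.tail.tail.head = g then 1 else 0)) hdef)
      (Stream'.cons x (Stream'.cons y (Stream'.cons u (Stream'.const default))))
    simp only [stOp, LinearMap.sub_apply, Pi.sub_apply, opX_pL, opX_pR, opY_delta] at this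
    exact this
  have e4 : pL R = pR R := by
    funext x y u p q g
    rw [← sub_eq_zero]
    rcases lt_trichotomy x g with hx | rfl | hx
    · rw [e3, pL_tri (lt := fun x y => y < x) t2 hRb hx.ne (not_lt.2 hx.le),
        pR_tri (lt := fun x y => y < x) t2 hRb hx.ne (not_lt.2 hx.le), sub_zero]
    · by_cases hz : R y u p q = 0
      · rw [pL_diag t1 i1 hR, pR_diag t1 i1 hR, hz]; simp
      · rcases hR _ _ _ _ hz with ⟨rfl, rfl⟩ | ⟨k1, k2⟩
        · rw [pL_diag t1 i1 hR, pR_diag t1 i1 hR]; ring
        · have hz' : Rb y u p q = 0 := by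
            by_contra hne
            rcases hRb _ _ _ _ hne with ⟨_, rfl⟩ | ⟨k3, _⟩
            · exact lt_irrefl _ k1
            · exact lt_asymm k1 k3
          rw [e3, pL_diag (lt := fun x y => y < x) t2 i1 hRb,
            pR_diag (lt := fun x y => y < x) t2 i1 hRb, hz']
          simp
    · rw [pL_tri t1 hR hx.ne' (not_lt.2 hx.le), pR_tri t1 hR hx.ne' (not_lt.2 hx.le), sub_zero]
  refine h.dub h2 h2' ?_
  refine end_ext3 fun f x y u s => ?_
  show (opX R * shift (opX R) * opX R) f _ = (shift (opX R) * opX R * shift (opX R)) f _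
  rw [opX_pL, opX_pR, e4]

end Assemble

end Pool.Agent.Lib.MP_43d316_gt
end
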