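import Pool.Agent.Lib.MP_43d316_gt.Main

/-
Arbitrary ground rings: the relations among the simplest two-tangles hold in the skein module
itself, and a prime ideal of the polynomial ring in the loop variable gives a point of the
parameter space.
-/

namespace Pool.Agent.Lib.MP_43d316_gt.Rg

open Kind

section Diagrams

variable {k : Type*} [CommRing k] {F : Word → k} {a : k}

/-- An invariant of framed links with framing factor `a`. -/
structure PInv {k : Type*} [CommRing k] (F : Word → k) (a : k) : Prop where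
  move : ∀ P Q u v, Move u v → Ok 0 (P ++ u ++ Q) 0 → Ok 0 (P ++ v ++ Q) 0 →
    F (P ++ u ++ Q) = F (P ++ v ++ Q)
  frame : ∀ P Q i, Ok 0 (P ++ Q) 0 → Ok 0 (P ++ curl i ++ Q) 0 →
    F (P ++ curl i ++ Q) = a * F (P ++ Q)

theorem PInv.mv (hF : PInv F a) (A B : Word) {u v Q : Word} {l : ℕ} (m : Move u v)
    (hQ : Ok l Q 0) (h1 : Ok 0 (A ++ u ++ B) l) (h2 : Ok 0 (A ++ v ++ B) l) :
    F (A ++ u ++ (B ++ Q)) = F (A ++ v ++ (B ++ Q)) := by
  refine hF.move A (B ++ Q) u v m ?_ ?_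
  · rw [← List.append_assoc]
    exact ok_append.2 ⟨l, h1, hQ⟩
  · rw [← List.append_assoc]
    exact ok_append.2 ⟨l, h2, hQ⟩

theorem PInv.fr (hF : PInv F a) (A B : Word) {Q : Word} {l : ℕ} (i : ℕ)
    (hQ : Ok l Q 0) (h1 : Ok 0 (A ++ B) l) (h2 : Ok 0 (A ++ curl i ++ B) l) :
    F (A ++ curl i ++ (B ++ Q)) = a * F (A ++ (B ++ Q)) := by
  refine hF.frame A (B ++ Q) i ?_ ?_
  · rw [← List.append_assoc]
    exact ok_append.2 ⟨l, h1, hQ⟩
  · rw [← List.append_assoc]
    exact ok_append.2 ⟨l, h2, hQ⟩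

/-- A left-handed half twist next to a minimum. -/
theorem PInv.cupNegTwist (hF : PInv F a) {P Q : Word} {n i : ℕ} (hP : Ok 0 P n) (hi : i ≤ n)
    (hQ : Ok (n + 2) Q 0) :
    F (P ++ (cup, i) :: (neg, i) :: Q) = a * F (P ++ (cup, i) :: Q) := by
  have ok : ∀ {T : Word}, Ok n T (n + 2) → Ok 0 (P ++ T) (n + 2) := fun h =>
    ok_append.2 ⟨n, hP, h⟩
  have s1 := hF.mv (P ++ [(cup, i), (neg, i)]) [] (Move.zig (i + 1)) hQ
    (by simp only [List.append_assoc]; apply ok; simp [Ok, Kind.inp, Kind.out]; omega)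
    (by simp only [List.append_assoc]; apply ok; simp [Ok, Kind.inp, Kind.out]; omega)
  have s2 := hF.mv (P ++ [(cup, i)]) [(cap, i + 1)] (Move.far neg cup i 0) hQ
    (by simp only [List.append_assoc]; apply ok; simp [Ok, Kind.inp, Kind.out]; omega)
    (by simp only [List.append_assoc]; apply ok; simp [Ok, Kind.inp, Kind.out]; omega)
  have s3 := hF.mv P [(neg, i), (cap, i + 1)] (Move.far cup cup i 0) hQ
    (by simp only [List.append_assoc]; apply ok; simp [Ok, Kind.inp, Kind.out]; omega)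
    (by simp only [List.append_assoc]; apply ok; simp [Ok, Kind.inp, Kind.out]; omega)
  have s4 := hF.mv (P ++ [(cup, i), (cup, i)]) [] (Move.capNeg i) hQ
    (by simp only [List.append_assoc]; apply ok; simp [Ok, Kind.inp, Kind.out]; omega)
    (by simp only [List.append_assoc]; apply ok; simp [Ok, Kind.inp, Kind.out]; omega)
  have s5 := hF.mv (P ++ [(cup, i)]) [] (Move.curl i) hQ
    (by simp only [List.append_assoc]; apply ok; simp [Ok, Kind.inp, Kind.out]; omega)
    (by simp only [List.append_assoc]; apply ok; simp [Ok, Kind.inp, Kind.out]; omega)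
  have s6 := hF.fr (P ++ [(cup, i)]) [] i hQ
    (by simp only [List.append_assoc]; apply ok; simp [Ok, Kind.inp, Kind.out]; omega)
    (by simp only [List.append_assoc]; apply ok; simp [curl, Ok, Kind.inp, Kind.out]; omega)
  simp only [curl, List.append_assoc, List.cons_append, List.nil_append, Kind.out, Kind.inp,
    add_zero, add_assoc, Nat.reduceAdd] at s1 s2 s3 s4 s5 s6
  rw [← s1, s2, s3, s4, ← s5, s6]

/-- A left-handed half twist next to a maximum. -/
theorem PInv.negCapTwist (hF : PInv F a) {P Q : Word} {n i : ℕ} (hP : Ok 0 P (n + 2))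
    (hi : i ≤ n) (hQ : Ok n Q 0) :
    F (P ++ (neg, i) :: (cap, i) :: Q) = a * F (P ++ (cap, i) :: Q) := by
  have ok : ∀ {T : Word}, Ok (n + 2) T n → Ok 0 (P ++ T) n := fun h =>
    ok_append.2 ⟨n + 2, hP, h⟩
  have s1 := hF.mv P [(neg, i), (cap, i)] (Move.zag (i + 1)) hQ
    (by simp only [List.append_assoc]; apply ok; simp [Ok, Kind.inp, Kind.out]; omega)
    (by simp only [List.append_assoc]; apply ok; simp [Ok, Kind.inp, Kind.out]; omega)
  have s2 := hF.mv (P ++ [(cup, i + 1)]) [(cap, i)] (Move.far neg cap i 0) hQ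
    (by simp only [List.append_assoc]; apply ok; simp [Ok, Kind.inp, Kind.out]; omega)
    (by simp only [List.append_assoc]; apply ok; simp [Ok, Kind.inp, Kind.out]; omega)
  have s3 := hF.mv P [(cap, i + 2), (cap, i)] (Move.cupNeg i) hQ
    (by simp only [List.append_assoc]; apply ok; simp [Ok, Kind.inp, Kind.out]; omega)
    (by simp only [List.append_assoc]; apply ok; simp [Ok, Kind.inp, Kind.out]; omega)
  have s4 := hF.mv (P ++ [(cup, i), (pos, i + 1)]) [] (Move.far cap cap i 0) hQ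
    (by simp only [List.append_assoc]; apply ok; simp [Ok, Kind.inp, Kind.out]; omega)
    (by simp only [List.append_assoc]; apply ok; simp [Ok, Kind.inp, Kind.out]; omega)
  have s5 := hF.mv P [(cap, i)] (Move.curl i) hQ
    (by simp only [List.append_assoc]; apply ok; simp [Ok, Kind.inp, Kind.out]; omega)
    (by simp only [List.append_assoc]; apply ok; simp [Ok, Kind.inp, Kind.out]; omega)
  have s6 := hF.fr P [(cap, i)] i hQ
    (by apply ok; simp [Ok, Kind.inp, Kind.out]; omega)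
    (by simp only [List.append_assoc]; apply ok; simp [curl, Ok, Kind.inp, Kind.out]; omega)
  simp only [curl, List.append_assoc, List.cons_append, List.nil_append, Kind.out, Kind.inp,
    add_zero, add_assoc, Nat.reduceAdd] at s1 s2 s3 s4 s5 s6
  rw [← s1, ← s2, s3, ← s4, ← s5, s6]

theorem PInv.cupPosTwist (hF : PInv F a) {s : k} (hs : a * s = 1) {P Q : Word} {n i : ℕ}
    (hP : Ok 0 P n) (hi : i ≤ n) (hQ : Ok (n + 2) Q 0) :
    F (P ++ (cup, i) :: (pos, i) :: Q) = s * F (P ++ (cup, i) :: Q) := by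
  have ok : ∀ {T : Word}, Ok n T (n + 2) → Ok 0 (P ++ T) (n + 2) := fun h =>
    ok_append.2 ⟨n, hP, h⟩
  have s1 := hF.cupNegTwist hP hi (Q := (pos, i) :: Q)
    ⟨by simp only [Kind.inp]; omega, by simpa [Kind.inp, Kind.out] using hQ⟩
  have s2 := hF.mv (P ++ [(cup, i)]) [] (Move.twoNeg i) hQ
    (by simp only [List.append_assoc]; apply ok; simp [Ok, Kind.inp, Kind.out]; omega)
    (by simp only [List.append_assoc]; apply ok; simp [Ok, Kind.inp, Kind.out]; omega)
  simp only [List.append_assoc, List.cons_append, List.nil_append] at s2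
  linear_combination s * s2 - s * s1 - F (P ++ (cup, i) :: (pos, i) :: Q) * hs

theorem PInv.posCapTwist (hF : PInv F a) {s : k} (hs : a * s = 1) {P Q : Word} {n i : ℕ}
    (hP : Ok 0 P (n + 2)) (hi : i ≤ n) (hQ : Ok n Q 0) :
    F (P ++ (pos, i) :: (cap, i) :: Q) = s * F (P ++ (cap, i) :: Q) := by
  have ok : ∀ {T : Word} {l : ℕ}, Ok (n + 2) T l → Ok 0 (P ++ T) l := fun h =>
    ok_append.2 ⟨n + 2, hP, h⟩
  have s1 := hF.negCapTwist (P := P ++ [(pos, i)])
    (by apply ok; simp [Ok, Kind.inp, Kind.out]; omega) hi hQ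
  have s2 := hF.mv P [(cap, i)] (Move.twoPos i) hQ
    (by simp only [List.append_assoc]; apply ok; simp [Ok, Kind.inp, Kind.out]; omega)
    (by simp only [List.append_assoc]; apply ok; simp [Ok, Kind.inp, Kind.out]; omega)
  simp only [List.append_assoc, List.cons_append, List.nil_append] at s1 s2
  linear_combination s * s2 - s * s1 - F (P ++ (pos, i) :: (cap, i) :: Q) * hs

/-- The first smoothing. -/
def tU (F : Word → k) (Q : Word) : k := F ((cup, 0) :: (cup, 2) :: Q)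

/-- The second smoothing. -/
def tV (F : Word → k) (Q : Word) : k := F ((cup, 0) :: (cup, 1) :: Q)

section Facts

variable (hF : PInv F a) {s : k} (hs : a * s = 1) {Q : Word} (hQ : Ok 4 Q 0)
include hF hQ

theorem fact_cc : F ((cup, 0) :: (cup, 0) :: Q) = tU F Q :=
  (hF.mv [] [] (Move.far cup cup 0 0) hQ (by decide) (by decide)).symm

include hs in
theorem fact_U0 : tU F ((pos, 0) :: Q) = s * tU F Q := by
  have s1 : F ((cup, 0) :: (pos, 0) :: (cup, 2) :: Q) = tU F ((pos, 0) :: Q) :=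
    hF.mv [(cup, 0)] [] (Move.far pos cup 0 0) hQ (by decide) (by decide)
  rw [← s1]
  exact hF.cupPosTwist hs (P := []) (n := 0) rfl le_rfl (Q := (cup, 2) :: Q) ⟨le_rfl, hQ⟩

include hs in
theorem fact_V1 : tV F ((pos, 1) :: Q) = s * tV F Q :=
  hF.cupPosTwist hs (P := [(cup, 0)]) (n := 2) (by decide) (by decide) hQ

theorem fact_U1 : tU F ((pos, 1) :: Q) = tV F ((neg, 0) :: Q) := by
  rw [← fact_cc hF (ok_cons4 hQ (by decide))]
  exact (hF.mv [(cup, 0)] [] (Move.cupNeg 0) hQ (by decide) (by decide)).symm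

theorem fact_V0 : tV F ((pos, 0) :: Q) = tU F ((neg, 1) :: Q) := by
  rw [← fact_cc hF (Q := (neg, 1) :: Q) ⟨by decide, hQ⟩]
  exact hF.mv [(cup, 0)] [] (Move.cupPos 0) hQ (by decide) (by decide)

theorem fact_Vc : tV F ((neg, 0) :: (pos, 0) :: Q) = tV F Q :=
  hF.mv [(cup, 0), (cup, 1)] [] (Move.twoNeg 0) hQ (by decide) (by decide)

theorem fact_Uc : tU F ((neg, 1) :: (pos, 1) :: Q) = tU F Q :=
  hF.mv [(cup, 0), (cup, 2)] [] (Move.twoNeg 1) hQ (by decide) (by decide)

theorem fact_U10 : tU F ((pos, 1) :: (pos, 0) :: Q) = tV F Q := by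
  rw [fact_U1 hF (ok_cons4 hQ (by decide)), fact_Vc hF hQ]

theorem fact_V01 : tV F ((pos, 0) :: (pos, 1) :: Q) = tU F Q := by
  rw [fact_V0 hF (ok_cons4 hQ (by decide)), fact_Uc hF hQ]

theorem fact_braid : tV F ((pos, 0) :: (pos, 0) :: (pos, 1) :: (pos, 0) :: Q) =
    tV F ((pos, 0) :: (pos, 1) :: (pos, 0) :: (pos, 1) :: Q) :=
  hF.mv [(cup, 0), (cup, 1), (pos, 0)] [] (Move.three 0) hQ (by decide) (by decide)

variable {b0 b1 b2 bi : k} (hS : SiteRel F b0 b1 b2 1 bi)
include hS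

theorem fact_skeinV : tV F ((pos, 0) :: (pos, 0) :: Q) =
    -(bi * a * tU F Q + b1 * tV F Q + b0 * tU F ((pos, 1) :: Q) + b2 * tV F ((pos, 0) :: Q)) := by
  have h := hS [(cup, 0), (cup, 1), (neg, 0)] Q 0 ⟨4, by decide, by decide, hQ⟩
  have e0 := fact_U1 hF hQ
  have e1 := fact_Vc hF hQ
  have e2 := fact_Vc hF (ok_cons4 hQ (i := 0) (by decide))
  have e3 := fact_Vc hF (ok_cons4 (ok_cons4 hQ (i := 0) (by decide)) (i := 0) (by decide))
  have e4 := hF.negCapTwist (P := [(cup, 0), (cup, 1)]) (n := 2) (i := 0) (by decide)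
    (by decide) (Q := (cup, 0) :: Q) ⟨by decide, hQ⟩
  have e5 : F ((cup, 0) :: (cup, 1) :: (cap, 0) :: (cup, 0) :: Q) =
      F ((cup, 0) :: (cup, 0) :: Q) :=
    hF.mv [(cup, 0)] [(cup, 0)] (Move.zig 0) hQ (by decide) (by decide)
  have e6 := fact_cc hF hQ
  simp only [List.cons_append, List.nil_append, tV] at h e0 e1 e2 e3 e4 ⊢
  linear_combination h + b0 * e0 - b1 * e1 - b2 * e2 - e3 - bi * e4 - bi * a * e5 -
    bi * a * e6

theorem fact_skeinU : tU F ((pos, 1) :: (pos, 1) :: Q) =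
    -(b1 * tU F Q + bi * a * tV F Q + b2 * tU F ((pos, 1) :: Q) + b0 * tV F ((pos, 0) :: Q)) := by
  have h := hS [(cup, 0), (cup, 2), (neg, 1)] Q 1 ⟨4, by decide, by decide, hQ⟩
  have e0 := fact_V0 hF hQ
  have e1 := fact_Uc hF hQ
  have e2 := fact_Uc hF (ok_cons4 hQ (i := 1) (by decide))
  have e3 := fact_Uc hF (ok_cons4 (ok_cons4 hQ (i := 1) (by decide)) (i := 1) (by decide))
  have e4 := hF.negCapTwist (P := [(cup, 0), (cup, 2)]) (n := 2) (i := 1) (by decide)
    (by decide) (Q := (cup, 1) :: Q) ⟨by decide, hQ⟩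
  have e5 : F ((cup, 0) :: (cup, 2) :: (cap, 1) :: (cup, 1) :: Q) =
      F ((cup, 0) :: (cup, 1) :: Q) :=
    hF.mv [(cup, 0)] [(cup, 1)] (Move.zig 1) hQ (by decide) (by decide)
  simp only [List.cons_append, List.nil_append, tU, tV] at h e0 e1 e2 e3 e4 ⊢
  linear_combination h + b0 * e0 - b1 * e1 - b2 * e2 - e3 - bi * e4 - bi * a * e5

end Facts

/-- The space of relations. -/
def nullRel (F : Word → k) (x1 x2 x3 x4 : k) : Prop :=
  ∀ Q, Ok 4 Q 0 → x1 * tU F Q + x2 * tV F Q + x3 * tU F ((pos, 1) :: Q) +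
    x4 * tV F ((pos, 0) :: Q) = 0

variable (hF : PInv F a) {s b0 b1 b2 bi : k} (hs : a * s = 1)
include hF hs

theorem null_sym {x1 x2 x3 x4 : k} (hx : nullRel F x1 x2 x3 x4) : nullRel F x2 x1 x4 x3 := by
  intro Q hQ
  have k0 := ok_cons4 hQ (i := 0) (by decide)
  have k1 := ok_cons4 hQ (i := 1) (by decide)
  have k10 := ok_cons4 k0 (i := 1) (by decide)
  have k01 := ok_cons4 k1 (i := 0) (by decide)
  have h := hx _ (ok_cons4 k10 (i := 0) (by decide))
  rw [fact_braid hF hQ, fact_V01 hF k01, fact_U10 hF k10, fact_V01 hF k0,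
    fact_U0 hF hs k10, fact_U10 hF hQ, fact_U0 hF hs hQ, fact_V1 hF hs k0,
    fact_U0 hF hs k1] at h
  linear_combination a * h - (x2 * tU F Q + x1 * tV F Q + x4 * tU F ((pos, 1) :: Q) +
    x3 * tV F ((pos, 0) :: Q)) * hs

theorem null_sig (hS : SiteRel F b0 b1 b2 1 bi) {x1 x2 x3 x4 : k} (hx : nullRel F x1 x2 x3 x4) :
    nullRel F (x1 * s - x4 * (bi * a)) (x3 - x4 * b1) (-x4 * b0) (x2 - x4 * b2) := by
  intro Q hQ
  have h := hx _ (ok_cons4 hQ (i := 0) (by decide))
  rw [fact_U0 hF hs hQ, fact_U10 hF hQ, fact_skeinV hF hQ hS] at h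
  linear_combination h

theorem null_defect (hS : SiteRel F b0 b1 b2 1 bi) :
    nullRel F (s * (b2 - b0 * b1) + b0 ^ 2 * (bi * a)) (bi * a - b0 * b2 + b0 ^ 2 * b1)
      (b0 ^ 3 + s) (b1 * s - b0 * (bi * a) + b0 ^ 2 * b2) := by
  intro Q hQ
  have k0 := ok_cons4 hQ (i := 0) (by decide)
  have k1 := ok_cons4 hQ (i := 1) (by decide)
  have k10 := ok_cons4 k0 (i := 1) (by decide)
  have k01 := ok_cons4 k1 (i := 0) (by decide)
  have h := fact_braid hF hQ
  rw [fact_V01 hF k01, fact_U0 hF hs k1, fact_skeinV hF k10 hS, fact_U10 hF hQ,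
    fact_V1 hF hs k0, fact_V01 hF k0, fact_skeinU hF k0 hS, fact_U10 hF hQ,
    fact_U0 hF hs hQ, fact_skeinV hF hQ hS] at h
  linear_combination -h

/-- The trivial link with `n` components. -/
def circ : ℕ → Word
  | 0 => []
  | n + 1 => (cup, 0) :: (cap, 0) :: circ n

omit hF hs in
theorem ok_circ : ∀ n, Ok 0 (circ n) 0
  | 0 => rfl
  | n + 1 => ⟨le_rfl, le_rfl, ok_circ n⟩

theorem vals (n : ℕ) : tU F ((cap, 0) :: (cap, 0) :: circ n) = F (circ (n + 2)) ∧
    tV F ((cap, 0) :: (cap, 0) :: circ n) = F (circ (n + 1)) ∧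
    tU F ((pos, 1) :: (cap, 0) :: (cap, 0) :: circ n) = a * F (circ (n + 1)) ∧
    tV F ((pos, 0) :: (cap, 0) :: (cap, 0) :: circ n) = s * F (circ (n + 1)) ∧
    tV F ((pos, 0) :: (pos, 0) :: (cap, 0) :: (cap, 0) :: circ n) =
      s * (s * F (circ (n + 1))) := by
  have q0 := ok_circ n
  have q2 : Ok 2 ((cap, 0) :: circ n) 0 := ⟨le_rfl, q0⟩
  have q1 : Ok 4 ((cap, 0) :: (cap, 0) :: circ n) 0 := ⟨by decide, q2⟩
  have v2 : tV F ((cap, 0) :: (cap, 0) :: circ n) = F (circ (n + 1)) :=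
    hF.mv [(cup, 0)] [(cap, 0)] (Move.zig 0) q0 (by decide) (by decide)
  have v4 : tV F ((pos, 0) :: (cap, 0) :: (cap, 0) :: circ n) = s * F (circ (n + 1)) := by
    rw [← v2]
    exact hF.posCapTwist hs (P := [(cup, 0), (cup, 1)]) (n := 2) (by decide) (by decide) q2
  refine ⟨?_, v2, ?_, v4, ?_⟩
  · exact (hF.mv [(cup, 0)] [(cap, 0)] (Move.far cap cup 0 0) q0 (by decide) (by decide)).symm
  · rw [fact_U1 hF q1, ← v2]
    exact hF.negCapTwist (P := [(cup, 0), (cup, 1)]) (n := 2) (by decide) (by decide) q2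
  · rw [← v4]
    exact hF.posCapTwist hs (P := [(cup, 0), (cup, 1), (pos, 0)]) (n := 2) (i := 0)
      (by decide) (by decide) q2

theorem null_val {x1 x2 x3 x4 : k} (hx : nullRel F x1 x2 x3 x4) (n : ℕ) :
    x1 * F (circ (n + 2)) + (x2 + x3 * a + x4 * s) * F (circ (n + 1)) = 0 := by
  obtain ⟨v1, v2, v3, v4, -⟩ := vals hF hs n
  have h := hx ((cap, 0) :: (cap, 0) :: circ n) ⟨by decide, le_rfl, ok_circ n⟩
  rw [v1, v2, v3, v4] at h
  linear_combination h

theorem null_cubic (hS : SiteRel F b0 b1 b2 1 bi) (n : ℕ) :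
    bi * a * F (circ (n + 2)) + (b0 * a + b1 + b2 * s + s ^ 2) * F (circ (n + 1)) = 0 := by
  obtain ⟨v1, v2, v3, v4, v5⟩ := vals hF hs n
  have h := fact_skeinV hF (Q := (cap, 0) :: (cap, 0) :: circ n) ⟨by decide, le_rfl, ok_circ n⟩ hS
  rw [v1, v2, v3, v4, v5] at h
  linear_combination h

end Diagrams

open Polynomial

universe u

/-- A point of the parameter space from a sequence which is not killed by a non-zero-divisor. -/
theorem exists_point {R : Type u} [CommRing R] {M : Type*} [AddCommGroup M] [Module R M]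
    (v : ℕ → M) (hv : ∀ r ∈ nonZeroDivisors R, r • v 0 ≠ 0) :
    ∃ (k : Type u) (_ : Field k) (_ : IsAlgClosed k) (f : R →+* k) (t : k),
      (∀ r ∈ nonZeroDivisors R, f r ≠ 0) ∧
      ∀ x y : R, (∀ n, x • v (n + 1) + y • v n = 0) → f x * t + f y = 0 := by
  let sh : (ℕ → M) →ₗ[R] ℕ → M := LinearMap.funLeft R M (· + 1)
  let I : Ideal R[X] :=
    { carrier := {p | aeval sh p v = 0}
      add_mem' := fun {p q} (hp : aeval sh p v = 0) (hq : aeval sh q v = 0) => by
        change aeval sh (p + q) v = 0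
        rw [map_add, LinearMap.add_apply, hp, hq, add_zero]
      zero_mem' := by simp
      smul_mem' := fun q p (hp : aeval sh p v = 0) => by
        change aeval sh (q * p) v = 0
        rw [map_mul, Module.End.mul_apply, hp, map_zero] }
  obtain ⟨q, hq, h1, h2⟩ := I.exists_le_prime_disjoint
    ((nonZeroDivisors R).map (C : R →+* R[X])) (Set.disjoint_right.2 (by
      rintro _ ⟨r, hr, rfl⟩ (h : aeval sh (C r) v = 0)
      exact hv r hr (by simpa using congrFun h 0)))
  let k := AlgebraicClosure (FractionRing (R[X] ⧸ q))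
  let g : R[X] →+* k := (algebraMap (R[X] ⧸ q) k).comp (Ideal.Quotient.mk q)
  have hg : ∀ p, g p = 0 ↔ p ∈ q := fun p => by
    rw [← Ideal.Quotient.eq_zero_iff_mem]
    rw [RingHom.comp_apply, IsScalarTower.algebraMap_apply _ (FractionRing (R[X] ⧸ q)),
      map_eq_zero, IsFractionRing.to_map_eq_zero_iff]
  refine ⟨k, inferInstance, inferInstance, g.comp C, g X, fun r hr h => ?_, fun x y h => ?_⟩
  · exact Set.disjoint_right.1 h2 ⟨r, hr, rfl⟩ ((hg _).1 h)
  · change g (C x) * g X + g (C y) = 0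
    rw [← map_mul, ← map_add, hg]
    refine h1 (show aeval sh (C x * X + C y) v = 0 from funext fun n => ?_)
    simpa [sh] using h n

theorem nec_null {k : Type*} [Field k] [IsAlgClosed k] {Z : k → k → k → k → Prop}
    {a s b0 b1 b2 b3 bi t : k} (hb : b3 ≠ 0)
    (hN : Null Z a s (b0 / b3) (b1 / b3) (b2 / b3) (bi / b3) t) :
    Classical4 a b0 b1 b2 b3 bi ∨ (bi ≠ 0 ∧ Exceptional a b0 b1 b2 b3 bi) := by
  have c1 : FamOne a (b0 / b3) (b1 / b3) (b2 / b3) 1 (bi / b3) → FamOne a b0 b1 b2 b3 bi := by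
    rintro ⟨h1, h2⟩
    refine ⟨h1, ?_⟩
    field_simp at h2
    linear_combination h2
  have c2 : FamBracket a (b0 / b3) (b1 / b3) (b2 / b3) 1 (bi / b3) →
      FamBracket a b0 b1 b2 b3 bi := by
    rintro ⟨x, h1, h2, h3⟩
    refine ⟨x, h1, ?_, ?_⟩
    · field_simp at h2
      linear_combination h2
    · field_simp at h3
      linear_combination h3
  have c3 : FamKauffman a (b0 / b3) (b1 / b3) (b2 / b3) 1 (bi / b3) →
      FamKauffman a b0 b1 b2 b3 bi := by
    rintro ⟨e, he, h1, h2, h3⟩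
    refine ⟨e, he, fun h => h1 (by rw [h]; ring), ?_, ?_⟩
    · field_simp at h2
      linear_combination h2
    · field_simp at h3
      linear_combination h3
  rcases hN.main with h | h | h | h
  · exact Or.inl (Or.inl (c1 h))
  · exact Or.inl (Or.inr (Or.inl (c2 h)))
  · exact Or.inl (Or.inr (Or.inr (Or.inl (c3 h))))
  · by_cases hi : bi = 0
    · subst hi
      rw [zero_div] at hN h c1 c2 c3
      rcases hN.zero_case h with h | h | h
      · exact Or.inl (Or.inl (c1 h))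
      · exact Or.inl (Or.inr (Or.inl (c2 h)))
      · exact Or.inl (Or.inr (Or.inr (Or.inl (c3 h))))
    · obtain ⟨h1, h2⟩ := h
      refine Or.inr ⟨hi, ?_, ?_⟩
      · field_simp at h1
        linear_combination h1
      · field_simp at h2
        linear_combination h2

variable {R : Type u} [CommRing R]

theorem nec_ring (a b0 b3 : Rˣ) (b1 b2 bi : R) (ht : ¬ KnotTorsion (a : R) b0 b1 b2 b3 bi) :
    ∃ (k : Type u) (_ : Field k) (_ : IsAlgClosed k) (f : R →+* k),
      (∀ r ∈ nonZeroDivisors R, f r ≠ 0) ∧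
      (Classical4 (f a) (f b0) (f b1) (f b2) (f b3) (f bi) ∨
        (f bi ≠ 0 ∧ Exceptional (f a) (f b0) (f b1) (f b2) (f b3) (f bi))) := by
  let S := Skein (a : R) b0 b1 b2 b3 bi
  let A := TrivSqZeroExt R S
  let F : Word → A := fun w =>
    if h : Ok 0 w 0 then TrivSqZeroExt.inr (Submodule.Quotient.mk (gen R ⟨w, h⟩)) else 0
  have hFv : ∀ w (h : Ok 0 w 0), F w = TrivSqZeroExt.inrHom R S
      (Submodule.Quotient.mk (gen R ⟨w, h⟩)) := fun w h => dif_pos h
  have hrel : ∀ x ∈ relations (a : R) b0 b1 b2 b3 bi,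
      TrivSqZeroExt.inrHom R S (Submodule.Quotient.mk x) = 0 := by
    intro x hx
    rw [(Submodule.Quotient.mk_eq_zero _).2 (Submodule.subset_span hx), map_zero]
  let ι := TrivSqZeroExt.inlHom R S
  have hι : ∀ (r : R) (x : A), r • x = ι r * x := fun r x =>
    (TrivSqZeroExt.inl_mul_eq_smul r x).symm
  have hF : PInv F (ι a) := by
    constructor
    · intro P Q u v m h1 h2
      have : Diagram.link ⟨_, h1⟩ = Diagram.link ⟨_, h2⟩ := Quot.sound ⟨P, Q, u, v, m, rfl, rfl⟩
      rw [hFv _ h1, hFv _ h2]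
      unfold gen
      rw [this]
    · intro P Q i h1 h2
      have := hrel _ (Or.inr ⟨P, Q, i, ⟨_, h1⟩, ⟨_, h2⟩, rfl, rfl, rfl⟩)
      rw [Submodule.Quotient.mk_sub, Submodule.Quotient.mk_smul, map_sub, map_smul,
        hι, sub_eq_zero] at this
      rw [hFv _ h1, hFv _ h2]
      exact this
  obtain ⟨c, hc⟩ : ∃ c : R, b3 * c = 1 := ⟨_, b3.mul_inv⟩
  obtain ⟨s, hs⟩ : ∃ s : R, a * s = 1 := ⟨_, a.mul_inv⟩
  have hs' : ι a * ι s = 1 := by rw [← map_mul, hs, map_one]
  have hc' : ι b3 * ι c = 1 := by rw [← map_mul, hc, map_one]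
  have hS : SiteRel F (ι (b0 * c)) (ι (b1 * c)) (ι (b2 * c)) 1 (ι (bi * c)) := by
    intro P Q i hS
    have h0 : Ok 0 (P ++ Q) 0 := by simpa using hS.ok0
    have := hrel _ (Or.inl ⟨P, Q, i, ⟨_, h0⟩, ⟨_, hS.ok1⟩, ⟨_, hS.ok2⟩, ⟨_, hS.ok3⟩,
      ⟨_, hS.oki⟩, rfl, rfl, rfl, rfl, rfl, rfl⟩)
    simp only [Submodule.Quotient.mk_add, Submodule.Quotient.mk_smul, map_add, map_smul,
      hι, ← hFv] at this
    simp only [map_mul]
    linear_combination ι c * this - F (P ++ [(pos, i), (pos, i), (pos, i)] ++ Q) * hc'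
  obtain ⟨k, _, _, f, t, hf, hv⟩ := exists_point (R := R) (fun n => F (circ (n + 1)))
    (fun r hr h => ht ⟨r, hr, by
      rw [hFv _ (ok_circ _), ← map_smul] at h
      exact TrivSqZeroExt.inr_injective h⟩)
  have un : ∀ x : Rˣ, f x ≠ 0 := fun x => (x.isUnit.map f).ne_zero
  have fc : f c = (f b3)⁻¹ := eq_inv_of_mul_eq_one_right (by rw [← map_mul, hc, map_one])
  refine ⟨k, inferInstance, inferInstance, f, hf, nec_null (t := t) (s := f s)
    (Z := fun x1 x2 x3 x4 => ∀ p1 p2 p3 p4 : k, (∀ y1 y2 y3 y4 : R,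
      nullRel F (ι y1) (ι y2) (ι y3) (ι y4) → p1 * f y1 + p2 * f y2 + p3 * f y3 + p4 * f y4 = 0) →
      p1 * x1 + p2 * x2 + p3 * x3 + p4 * x4 = 0) (un b3) ?_⟩
  simp only [div_eq_mul_inv, ← fc]
  refine ⟨by rw [← map_mul, hs, map_one], mul_ne_zero (un b0) (fc ▸ inv_ne_zero (un b3)),
    ?_, ?_, ?_, ?_, ?_, ?_⟩
  · intro x1 x2 x3 x4 y1 y2 y3 y4 c d hx hy p1 p2 p3 p4 hp
    linear_combination c * hx _ _ _ _ hp + d * hy _ _ _ _ hp
  · intro x1 x2 x3 x4 hx p1 p2 p3 p4 hp
    linear_combination hx p2 p1 p4 p3 fun y1 y2 y3 y4 hy => by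
      linear_combination hp _ _ _ _ (null_sym hF hs' hy)
  · intro x1 x2 x3 x4 hx p1 p2 p3 p4 hp
    linear_combination hx (p1 * f s) p4 p2 (-(p1 * (f bi * f c * f a)) - p2 * (f b1 * f c) -
      p3 * (f b0 * f c) - p4 * (f b2 * f c)) fun y1 y2 y3 y4 hy => by
        have := hp (y1 * s - y4 * (bi * c * a)) (y3 - y4 * (b1 * c)) (-y4 * (b0 * c))
          (y2 - y4 * (b2 * c)) (by
            simpa only [map_sub, map_mul, map_neg] using null_sig hF hs' hS hy)
        simp only [map_sub, map_mul, map_neg] at this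
        linear_combination this
  · intro p1 p2 p3 p4 hp
    have := hp (s * (b2 * c - b0 * c * (b1 * c)) + (b0 * c) ^ 2 * (bi * c * a))
      (bi * c * a - b0 * c * (b2 * c) + (b0 * c) ^ 2 * (b1 * c)) ((b0 * c) ^ 3 + s)
      (b1 * c * s - b0 * c * (bi * c * a) + (b0 * c) ^ 2 * (b2 * c)) (by
        simpa only [map_sub, map_mul, map_add, map_pow] using null_defect hF hs' hS)
    simp only [map_sub, map_mul, map_add, map_pow] at this
    exact this
  · intro x1 x2 x3 x4 hx
    linear_combination hx t 1 (f a) (f s) fun y1 y2 y3 y4 hy => by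
      have := hv y1 (y2 + y3 * a + y4 * s) fun n => by
        simpa only [hι, map_add, map_mul] using null_val hF hs' hy n
      simp only [map_add, map_mul] at this
      linear_combination this
  · have := hv (bi * c * a) (b0 * c * a + b1 * c + b2 * c * s + s ^ 2) fun n => by
      simpa only [hι, map_add, map_mul, map_pow] using null_cubic hF hs' hS n
    simp only [map_add, map_mul, map_pow] at this
    linear_combination this

theorem suff_ring {k : Type*} [Field k] [IsAlgClosed k] (f : R →+* k)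
    (hf : ∀ r ∈ nonZeroDivisors R, f r ≠ 0) (a b0 b3 : Rˣ) (b1 b2 bi : R)
    (h : Classical4 (f a) (f b0) (f b1) (f b2) (f b3) (f bi)) :
    ¬ KnotTorsion (a : R) b0 b1 b2 b3 bi := by
  have un : ∀ x : Rˣ, f x ≠ 0 := fun x => (x.isUnit.map f).ne_zero
  obtain ⟨F, hF, hS⟩ := suff_all (un a) (un b0) (un b3) h
  let _ : Algebra R k := f.toAlgebra
  let g : Link → k := Quot.lift (fun D : Diagram => F D.1) (by
    rintro D E ⟨P, Q, u, v, m, h1, h2⟩
    rw [h1, h2]
    exact hF.move P Q u v m (h1 ▸ D.2) (h2 ▸ E.2))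
  let L : (Link →₀ R) →ₗ[R] k := Finsupp.linearCombination R g
  have hL : ∀ D, L (gen R D) = F D.1 := by
    intro D
    simp only [L, gen, Finsupp.linearCombination_single, one_smul]
    rfl
  have hle : Submodule.span R (relations (a : R) b0 b1 b2 b3 bi) ≤ LinearMap.ker L := by
    rw [Submodule.span_le]
    rintro x (⟨P, Q, i, L0, L1, L2, L3, Li, h0, h1, h2, h3, hi, rfl⟩ |
      ⟨P, Q, i, L0, L1, h0, h1, rfl⟩)
    · have := hS P Q i (site_of_ok (h1 ▸ L1.2))
      simp only [SetLike.mem_coe, LinearMap.mem_ker, map_add, map_smul, hL, h0, h1, h2, h3, hi,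
        Algebra.smul_def]
      exact this
    · have := hF.frame P Q i (h0 ▸ L0.2) (by rw [curl, ← h1]; exact L1.2)
      simp only [SetLike.mem_coe, LinearMap.mem_ker, map_sub, map_smul, hL, h0, h1,
        Algebra.smul_def]
      rw [curl] at this
      exact sub_eq_zero.2 this
  rintro ⟨r, hr, hr'⟩
  have h1 := congrArg (Submodule.liftQ _ L hle) hr'
  rw [map_smul, map_zero, trivialKnot, Submodule.liftQ_apply, hL] at h1
  have h2 : F unknot.1 = 1 := hF.unk
  rw [h2, Algebra.smul_def, mul_one] at h1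
  exact hf r hr h1

end Pool.Agent.Lib.MP_43d316_gt.Rg
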