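import Pool.Agent.Lib.MP_43d316_gt.CubeImpl

/-
Side file (not a hand-in). On the exceptional family the equation `b0 ^ 4 = b3 ^ 4` forces the
first family, so the classification has no exception in that case, for instance over the integers,
the Gaussian integers and integer polynomials.
-/

namespace Pool.Agent.Lib.MP_43d316_gt.Unit5

open Pool.Agent.Lib.MP_43d316_gt Pool.Agent.Results.MP_43d316_gt.FiveFamilies

universe u

theorem famOne_of_exc {k : Type*} [Field k] {a b0 b1 b2 b3 bi : k} (h3 : b3 ≠ 0)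
    (h : b0 ^ 4 = b3 ^ 4) (he : Exceptional a b0 b1 b2 b3 bi) : FamOne a b0 b1 b2 b3 bi := by
  obtain ⟨e1, e2⟩ := he
  have ha : a * b3 = -b0 := by
    have : b3 ^ 3 * (a * b3 + b0) = 0 := by linear_combination b0 * e1 - a * h
    have := (mul_eq_zero.1 this).resolve_left (pow_ne_zero _ h3)
    linear_combination this
  refine ⟨?_, ?_⟩
  · have : b3 ^ 4 * (a ^ 4 - 1) = 0 := by
      have h4 : (a * b3) ^ 4 = b0 ^ 4 := by rw [ha]; ring
      linear_combination h4 + h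
    have := (mul_eq_zero.1 this).resolve_left (pow_ne_zero _ h3)
    linear_combination this
  · have hb : b0 = -(a * b3) := by rw [ha]; ring
    subst hb
    have : b3 ^ 2 * (-(a * b3) + b1 * a ^ 3 + b2 * a ^ 2 + b3 * a + bi * a ^ 2) = 0 := by
      linear_combination a * e2
    exact (mul_eq_zero.1 this).resolve_left (pow_ne_zero _ h3)

theorem cor (R : Type u) [CommRing R] (a b0 b3 : Rˣ) (b1 b2 bi : R)
    (h : (b0 : R) ^ 4 = (b3 : R) ^ 4) :
    ¬ KnotTorsion (a : R) b0 b1 b2 b3 bi ↔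
      AtPoint R fun _ _ f => Classical4 (f a) (f b0) (f b1) (f b2) (f b3) (f bi) := by
  refine Cb.four_of_five R a b0 b3 b1 b2 bi ?_
  rintro ⟨⟨k, _, _, f, hf, -, he⟩, hn⟩
  refine hn ⟨k, _, ‹_›, f, hf, Or.inl (famOne_of_exc (b3.isUnit.map f).ne_zero ?_ he)⟩
  rw [← map_pow, ← map_pow, h]

theorem corInt (a b0 b3 : ℤˣ) (b1 b2 bi : ℤ) :
    ¬ KnotTorsion (a : ℤ) b0 b1 b2 b3 bi ↔
      AtPoint ℤ fun _ _ f => Classical4 (f a) (f b0) (f b1) (f b2) (f b3) (f bi) := by
  have H : ∀ v : ℤˣ, (v : ℤ) ^ 4 = 1 := fun v => by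
    rcases Int.units_eq_one_or v with rfl | rfl <;> decide
  exact cor _ a b0 b3 b1 b2 bi (by rw [H, H])

theorem corPoly (a b0 b3 : (Polynomial ℤ)ˣ) (b1 b2 bi : Polynomial ℤ) :
    ¬ KnotTorsion (a : Polynomial ℤ) b0 b1 b2 b3 bi ↔
      AtPoint (Polynomial ℤ) fun _ _ f => Classical4 (f a) (f b0) (f b1) (f b2) (f b3) (f bi) := by
  have H : ∀ v : (Polynomial ℤ)ˣ, (v : Polynomial ℤ) ^ 4 = 1 := fun v => by
    obtain ⟨r, hr, h⟩ := Polynomial.isUnit_iff.1 v.isUnit
    have h4 : r ^ 4 = 1 := by rcases Int.isUnit_iff.1 hr with rfl | rfl <;> decide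
    rw [← h, ← map_pow, h4, map_one]
  exact cor _ a b0 b3 b1 b2 bi (by rw [H, H])

theorem corGauss (a b0 b3 : GaussianIntˣ) (b1 b2 bi : GaussianInt) :
    ¬ KnotTorsion (a : GaussianInt) b0 b1 b2 b3 bi ↔
      AtPoint GaussianInt fun _ _ f => Classical4 (f a) (f b0) (f b1) (f b2) (f b3) (f bi) := by
  have H : ∀ v : GaussianIntˣ, (v : GaussianInt) ^ 4 = 1 := fun v => by
    have h := (Zsqrtd.norm_eq_one_iff' (by norm_num) (v : GaussianInt)).2 v.isUnit
    generalize (v : GaussianInt) = z at h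
    obtain ⟨x, y⟩ := z
    simp only [Zsqrtd.norm_def] at h
    have hx : x ≤ 1 ∧ -1 ≤ x := by
      constructor <;> nlinarith [sq_nonneg y, sq_nonneg (x - 1), sq_nonneg (x + 1)]
    have hy : y ≤ 1 ∧ -1 ≤ y := by
      constructor <;> nlinarith [sq_nonneg x, sq_nonneg (y - 1), sq_nonneg (y + 1)]
    obtain ⟨h1, h2⟩ := hx
    obtain ⟨h3, h4⟩ := hy
    interval_cases x <;> interval_cases y <;> first | decide | simp at h
  exact cor _ a b0 b3 b1 b2 bi (by rw [H, H])

end Pool.Agent.Lib.MP_43d316_gt.Unit5
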